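import Pool.Agent.Helper59.NP.Bounds

set_option autoImplicit false
open Real MeasureTheory Set
open scoped ENNReal

namespace Pool.Agent.Helper59.NP

/-- majorant of `Gk` -/
noncomputable def HG (t : ℝ) : ℝ := (cosh t)⁻¹ + (1 / 2) * Real.log (1 + 1 / (cosh t - 1))

theorem HG_measurable : Measurable HG := by
  unfold HG
  have := continuous_cosh.measurable
  fun_prop

theorem HG_log_nonneg (t : ℝ) : 0 ≤ (1 / 2) * Real.log (1 + 1 / (cosh t - 1)) := by
  have h1 : 0 ≤ cosh t - 1 := by linarith [one_le_cosh t]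
  have : 0 ≤ 1 / (cosh t - 1) := by positivity
  have := Real.log_nonneg (x := 1 + 1 / (cosh t - 1)) (by linarith)
  positivity

theorem HG_nonneg (t : ℝ) : 0 ≤ HG t := by
  unfold HG
  have := HG_log_nonneg t
  have := inv_pos.mpr (cosh_pos t)
  linarith

theorem HG_integrable : Integrable HG := by
  unfold HG
  refine integrable_inv_cosh.add ?_
  have hm : Measurable (fun t => (1 / 2) * Real.log (1 + 1 / (cosh t - 1))) := by
    have := continuous_cosh.measurable
    fun_prop
  rw [← integrableOn_univ, ← Set.union_compl_self (Icc (-1 : ℝ) 1)]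
  refine IntegrableOn.union ?_ ?_
  · -- near zero
    have h1 : IntegrableOn (fun t : ℝ => 2 - Real.log t) (Icc (-1 : ℝ) 1) := by
      rw [← intervalIntegrable_iff_integrableOn_Icc_of_le (by norm_num)]
      exact intervalIntegrable_const.sub intervalIntegral.intervalIntegrable_log'
    refine Integrable.mono' h1 hm.aestronglyMeasurable ?_
    have h0 : ∀ᵐ t : ℝ ∂(volume.restrict (Icc (-1 : ℝ) 1)), t ≠ 0 := by
      apply ae_restrict_of_ae
      simp [ae_iff, measure_singleton]
    filter_upwards [h0, ae_restrict_mem measurableSet_Icc] with t ht hmem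
    rw [norm_eq_abs, abs_of_nonneg (HG_log_nonneg t)]
    have habs : |t| ≤ 1 := abs_le.mpr hmem
    have ht2 : 0 < t ^ 2 := by positivity
    have hch := cosh_sub_one_ge t
    have hle : 1 + 1 / (cosh t - 1) ≤ 3 / t ^ 2 := by
      have hch' : cosh t - 1 ≤ 1 := by
        have := cosh_sub_one_le habs
        have : t ^ 2 ≤ 1 := by rw [← sq_abs]; nlinarith [abs_nonneg t]
        linarith
      have h3 : 1 / (cosh t - 1) ≤ 2 / t ^ 2 := by
        rw [div_le_div_iff₀ (by linarith) ht2]; linarith
      have h4 : 1 ≤ 1 / t ^ 2 := by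
        rw [le_div_iff₀ ht2, one_mul, ← sq_abs]; nlinarith [abs_nonneg t]
      calc 1 + 1 / (cosh t - 1) ≤ 1 / t ^ 2 + 2 / t ^ 2 := add_le_add h4 h3
        _ = 3 / t ^ 2 := by ring
    have hpos : 0 < 1 + 1 / (cosh t - 1) := by
      have : 0 < cosh t - 1 := by linarith
      positivity
    have h5 := Real.log_le_log hpos hle
    rw [Real.log_div (by norm_num) ht2.ne', Real.log_pow] at h5
    have h6 : Real.log 3 ≤ 2 := by
      have := Real.log_le_sub_one_of_pos (show (0:ℝ) < 3 by norm_num)
      linarith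
    push_cast at h5
    linarith
  · have h1 : IntegrableOn (fun t : ℝ => 3 * (cosh t)⁻¹) (Icc (-1 : ℝ) 1)ᶜ :=
      (integrable_inv_cosh.const_mul 3).integrableOn
    refine Integrable.mono' h1 hm.aestronglyMeasurable ?_
    filter_upwards [ae_restrict_mem measurableSet_Icc.compl] with t ht
    rw [norm_eq_abs, abs_of_nonneg (HG_log_nonneg t)]
    have habs : 1 ≤ |t| := by
      by_contra hcon
      push Not at hcon
      exact ht (abs_le.mp hcon.le)
    have hch := cosh_sub_one_ge' habs
    have hchp := cosh_pos t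
    have h2 : 0 < cosh t - 1 := by linarith [cosh_ge_of_one_le habs]
    have h3 := Real.log_le_sub_one_of_pos (show (0:ℝ) < 1 + 1 / (cosh t - 1) by positivity)
    have h4 : 1 / (cosh t - 1) ≤ 3 * (cosh t)⁻¹ := by
      rw [← div_eq_mul_inv, div_le_div_iff₀ h2 hchp]; linarith
    have h5 : 0 ≤ 1 / (cosh t - 1) := by positivity
    linarith

variable {η : ℝ → ℝ}

theorem IsBump.Gk_bound (h : IsBump η) (x y : ℝ) : |Gk η x y| ≤ HG (x - y) := by
  unfold Gk lg HG
  set X := x - y with hX
  have hcs0 := h.cos_sum_nonneg x y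
  have hcs := h.cos_sum_le x y
  have hch := cosh_pos X
  have hNσ : 1 / 2 * cosh X ≤ N X (gam η x + gam η y) := h.N_sum_ge X x y
  have hNσ' : N X (gam η x + gam η y) ≤ cosh X := by unfold N; linarith
  by_cases hX0 : X = 0
  · have hxy : x = y := by linarith
    rw [hX0, hxy]
    have e0 : N 0 (gam η y - gam η y) = 0 := by unfold N; simp
    rw [e0]
    simp only [cosh_zero, Real.log_zero, mul_zero, sub_zero, inv_one, sub_self, div_zero,
      add_zero, Real.log_one]
    rw [hX0, hxy] at hNσ hNσ'
    simp only [cosh_zero, mul_one] at hNσ hNσ'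
    have h1 : Real.log (N 0 (gam η y + gam η y)) ≤ 0 := Real.log_nonpos (by linarith) hNσ'
    have h2 : Real.log (1 / 2) ≤ Real.log (N 0 (gam η y + gam η y)) :=
      Real.log_le_log (by norm_num) hNσ
    have h3 : -1 ≤ Real.log (1 / 2) := by
      have := Real.one_sub_inv_le_log_of_pos (show (0:ℝ) < 1 / 2 by norm_num)
      norm_num at this ⊢
      linarith
    rw [abs_le]
    constructor <;> linarith
  · have hNδpos := N_pos_of_ne hX0 (gam η x - gam η y)
    have hNδ := N_ge X (gam η x - gam η y)
    have hch1 : 0 < cosh X - 1 := by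
      have := one_lt_cosh.mpr hX0; linarith
    have hNσpos : 0 < N X (gam η x + gam η y) := lt_of_lt_of_le (by positivity) hNσ
    have hge : N X (gam η x - gam η y) ≤ N X (gam η x + gam η y) := by
      unfold N
      have : cos (gam η x + gam η y) ≤ cos (gam η x - gam η y) := by
        rw [cos_add, cos_sub]
        have h1 : 0 ≤ sin (gam η x) := sin_nonneg_of_nonneg_of_le_pi
          (by linarith [h.gam_ge' x]) (by linarith [h.gam_le x, pi_pos])
        have h2 : 0 ≤ sin (gam η y) := sin_nonneg_of_nonneg_of_le_pi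
          (by linarith [h.gam_ge' y]) (by linarith [h.gam_le y, pi_pos])
        have := mul_nonneg h1 h2
        linarith
      linarith
    have e : 1 / 2 * Real.log (N X (gam η x + gam η y))
        - 1 / 2 * Real.log (N X (gam η x - gam η y))
        = 1 / 2 * Real.log (N X (gam η x + gam η y) / N X (gam η x - gam η y)) := by
      rw [Real.log_div hNσpos.ne' hNδpos.ne']; ring
    rw [e]
    have h1 : 0 ≤ Real.log (N X (gam η x + gam η y) / N X (gam η x - gam η y)) := by
      apply Real.log_nonneg
      rw [le_div_iff₀ hNδpos]; linarith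
    rw [abs_of_nonneg (by positivity)]
    have h2 : N X (gam η x + gam η y) / N X (gam η x - gam η y) ≤ 1 + 1 / (cosh X - 1) := by
      have : 1 + 1 / (cosh X - 1) = cosh X / (cosh X - 1) := by field_simp; ring
      rw [this]
      gcongr
    have h3 := Real.log_le_log (div_pos hNσpos hNδpos) h2
    have : 0 < (cosh X)⁻¹ := by positivity
    linarith

theorem IsBump.gk_meas (h : IsBump η) : Measurable (Function.uncurry (Gk η)) := by
  unfold Function.uncurry Gk lg N
  have h1 := h.continuous_gam.measurable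
  have h2 := continuous_cosh.measurable
  have h3 := continuous_cos.measurable
  fun_prop

theorem IsBump.lk_meas (h : IsBump η) : Measurable (Function.uncurry (lk η)) := by
  unfold Function.uncurry lk Pf Qf pp qq N
  have h1 := h.continuous_gam.measurable
  have h1' := h.continuous_gam'.measurable
  have h2 := continuous_cosh.measurable
  have h3 := continuous_cos.measurable
  have h4 := continuous_sinh.measurable
  have h5 := continuous_sin.measurable
  fun_prop

theorem lw_meas : Measurable (Function.uncurry lw) := by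
  unfold Function.uncurry lw
  have h2 := continuous_cosh.measurable
  fun_prop

theorem IsBump.kbG (h : IsBump η) : KB (Gk η) HG :=
  ⟨h.gk_meas, HG_measurable, HG_integrable, h.Gk_bound⟩

/-- majorant of `lk` and `lw`. -/
noncomputable def HL (C : ℝ) (t : ℝ) : ℝ := C * (cosh t)⁻¹

theorem HL_measurable (C : ℝ) : Measurable (HL C) := by
  unfold HL
  have h2 := continuous_cosh.measurable
  fun_prop

theorem HL_integrable (C : ℝ) : Integrable (HL C) := integrable_inv_cosh.const_mul C

theorem HL_le {C : ℝ} (hC : 0 ≤ C) (t : ℝ) : HL C t ≤ C := by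
  unfold HL
  have h8 : (cosh t)⁻¹ ≤ 1 := inv_le_one_of_one_le₀ (one_le_cosh t)
  nlinarith

theorem lw_eq (x y : ℝ) : lw x y = 1 / (4 * π) * (cosh (x - y))⁻¹ := by
  unfold lw
  have := cosh_pos (x - y)
  have := pi_pos
  field_simp

theorem kb_lw : KB lw (HL (1 / (4 * π))) := by
  refine ⟨lw_meas, HL_measurable _, HL_integrable _, fun x y => ?_⟩
  rw [lw_eq, abs_of_nonneg]
  · exact le_rfl
  · have := cosh_pos (x - y)
    have := pi_pos
    positivity

/-- a constant for the bound of `lk` -/
noncomputable def IsBump.Cl (h : IsBump η) : ℝ := h.exists_lk_bound.choose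

theorem IsBump.Cl_pos (h : IsBump η) : 0 < h.Cl := h.exists_lk_bound.choose_spec.1

theorem IsBump.lk_bound (h : IsBump η) (x y : ℝ) : |lk η x y| ≤ h.Cl * (cosh (x - y))⁻¹ :=
  h.exists_lk_bound.choose_spec.2 x y

theorem IsBump.kb_lk (h : IsBump η) : KB (lk η) (HL h.Cl) :=
  ⟨h.lk_meas, HL_measurable _, HL_integrable _, h.lk_bound⟩

/-- the perturbation `lk - lw` -/
noncomputable def ld (η : ℝ → ℝ) (x y : ℝ) : ℝ := lk η x y - lw x y

theorem IsBump.kb_ld (h : IsBump η) : KB (ld η) (HL (h.Cl + 1 / (4 * π))) := by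
  refine ⟨h.lk_meas.sub lw_meas, HL_measurable _, HL_integrable _, fun x y => ?_⟩
  unfold ld HL
  rw [add_mul]
  refine (abs_sub _ _).trans (add_le_add (h.lk_bound x y) ?_)
  exact kb_lw.bound x y

theorem IsBump.ld_eq_zero (h : IsBump η) {x y : ℝ} (hx : x ∉ Icc (-1 : ℝ) 0)
    (hy : y ∉ Icc (-1 : ℝ) 0) : ld η x y = 0 := by
  unfold ld lk
  rw [h.gam_eq hx, h.gam_eq hy, h.gam'_eq hx]
  unfold Qf lw
  have e1 : π / 4 + π / 4 = π / 2 := by ring
  have e2 : qq (x - y) (π / 2) = 1 / (2 * cosh (x - y)) := by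
    unfold qq N; simp
  have e3 : qq (x - y) 0 = 0 := by unfold qq; simp
  rw [e1, sub_self, e2, e3]
  have := cosh_pos (x - y)
  have := pi_pos
  field_simp
  ring

theorem IsBump.ld_sq (h : IsBump η) : ∫⁻ x, ∫⁻ y, ‖ld η x y‖ₑ ^ 2 < ∞ := by
  set C := h.Cl + 1 / (4 * π) with hC
  set K : ℝ → ℝ≥0∞ := fun t => ‖HL C t‖ₑ ^ 2 with hK
  set I : ℝ → ℝ≥0∞ := (Icc (-1 : ℝ) 0).indicator 1 with hI
  have hKm : Measurable K := by
    have := HL_measurable C
    fun_prop
  have hIm : Measurable I := measurable_one.indicator measurableSet_Icc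
  have hC0 : 0 ≤ C := by
    have := h.Cl_pos
    have := pi_pos
    positivity
  have hKfin : ∫⁻ t, K t < ∞ := by
    have h1 : ∀ t, K t ≤ ENNReal.ofReal C * ‖HL C t‖ₑ := by
      intro t
      rw [hK]
      simp only
      rw [sq]
      gcongr
      rw [Real.enorm_eq_ofReal_abs]
      apply ENNReal.ofReal_le_ofReal
      rw [abs_of_nonneg]
      · exact HL_le hC0 t
      · unfold HL
        have := cosh_pos t
        positivity
    refine (lintegral_mono h1).trans_lt ?_
    rw [lintegral_const_mul _ (HL_measurable C).enorm]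
    exact ENNReal.mul_lt_top ENNReal.ofReal_lt_top (HL_integrable C).2
  have hIfin : ∫⁻ t, I t < ∞ := by
    rw [hI, lintegral_indicator_one measurableSet_Icc]
    simp
  have hb : ∀ x y, ‖ld η x y‖ₑ ^ 2 ≤ I x * K (x - y) + I y * K (x - y) := by
    intro x y
    have hle : ‖ld η x y‖ₑ ^ 2 ≤ K (x - y) := by
      rw [hK]
      simp only
      gcongr
      exact h.kb_ld.enorm_le x y
    by_cases hx : x ∈ Icc (-1 : ℝ) 0
    · have : I x = 1 := by rw [hI]; simp [hx]
      rw [this, one_mul]
      exact hle.trans le_self_add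
    · by_cases hy : y ∈ Icc (-1 : ℝ) 0
      · have : I y = 1 := by rw [hI]; simp [hy]
        rw [this, one_mul]
        exact hle.trans le_add_self
      · rw [h.ld_eq_zero hx hy]
        simp
  calc ∫⁻ x, ∫⁻ y, ‖ld η x y‖ₑ ^ 2 ≤ ∫⁻ x, ∫⁻ y, (I x * K (x - y) + I y * K (x - y)) :=
        lintegral_mono fun x => lintegral_mono fun y => hb x y
    _ = ∫⁻ x, ((∫⁻ y, I x * K (x - y)) + ∫⁻ y, I y * K (x - y)) := by
        congr 1
        funext x
        rw [lintegral_add_left (by fun_prop)]
    _ = (∫⁻ x, ∫⁻ y, I x * K (x - y)) + ∫⁻ x, ∫⁻ y, I y * K (x - y) := by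
        rw [lintegral_add_left (by fun_prop)]
    _ = (∫⁻ x, I x * ∫⁻ t, K t) + ∫⁻ y, ∫⁻ x, I y * K (x - y) := by
        congr 1
        · congr 1
          funext x
          rw [lintegral_const_mul _ (by fun_prop)]
          congr 1
          exact lintegral_sub_left_eq_self K x
        · rw [lintegral_lintegral_swap (by apply Measurable.aemeasurable; fun_prop)]
    _ = (∫⁻ x, I x * ∫⁻ t, K t) + ∫⁻ y, I y * ∫⁻ t, K t := by
        congr 1
        congr 1
        funext y
        rw [lintegral_const_mul _ (by fun_prop)]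
        congr 1
        exact lintegral_sub_right_eq_self K y
    _ < ∞ := by
        rw [lintegral_mul_const _ hIm]
        exact ENNReal.add_lt_top.mpr ⟨ENNReal.mul_lt_top hIfin hKfin,
          ENNReal.mul_lt_top hIfin hKfin⟩

end Pool.Agent.Helper59.NP
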