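import Pool.Agent.Helper59.NP.Kernel

set_option autoImplicit false
open scoped RealInnerProductSpace ENNReal Topology
open MeasureTheory Filter

namespace Pool.Agent.Helper59.NP

instance factTwoNeTop : Fact ((2 : ℝ≥0∞) ≠ ∞) := ⟨by norm_num⟩

/-- Every sequence in the unit ball of `L²(ℝ)` has a weakly convergent subsequence. -/
theorem exists_weak_subseq (φ : ℕ → V) (hφ : ∀ n, ‖φ n‖ ≤ 1) :
    ∃ (ψ : V) (u : ℕ → ℕ), ‖ψ‖ ≤ 1 ∧ StrictMono u ∧
      ∀ w : V, Tendsto (fun n => ⟪φ (u n), w⟫) atTop (𝓝 ⟪ψ, w⟫) := by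
  have : TopologicalSpace.SeparableSpace V := inferInstance
  have hsc := WeakDual.isSeqCompact_closedBall ℝ V (0 : StrongDual ℝ V) 1
  set x : ℕ → WeakDual ℝ V := fun n => StrongDual.toWeakDual (InnerProductSpace.toDual ℝ V (φ n))
    with hx
  have hmem : ∀ n, x n ∈ (WeakDual.toStrongDual ⁻¹' Metric.closedBall (0 : StrongDual ℝ V) 1) := by
    intro n
    simp only [Set.mem_preimage, Metric.mem_closedBall, dist_zero_right]
    have : (WeakDual.toStrongDual (x n)) = InnerProductSpace.toDual ℝ V (φ n) := rfl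
    rw [this, LinearIsometryEquiv.norm_map]
    exact hφ n
  obtain ⟨ℓ, hℓ, u, hu, hlim⟩ := hsc hmem
  set ψ : V := (InnerProductSpace.toDual ℝ V).symm (WeakDual.toStrongDual ℓ) with hψ
  refine ⟨ψ, u, ?_, hu, ?_⟩
  · rw [hψ, LinearIsometryEquiv.norm_map]
    simpa using hℓ
  · intro w
    have h1 : Continuous (fun f : WeakDual ℝ V => f w) := WeakDual.eval_continuous w
    have h2 := (h1.tendsto ℓ).comp hlim
    have h3 : ℓ w = ⟪ψ, w⟫ := by
      have : ⟪ψ, w⟫ = (InnerProductSpace.toDual ℝ V ψ) w := rfl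
      rw [this, hψ]
      simp
    rw [← h3]
    exact h2

namespace KB

variable {k : ℝ → ℝ → ℝ} {H : ℝ → ℝ}

theorem tendsto_op_of_weak (h : KB k H)
    (hk : ∫⁻ x, ∫⁻ y, ‖k x y‖ₑ ^ 2 < ∞) {φ : ℕ → V} {ψ : V} (hφ : ∀ n, ‖φ n‖ ≤ 1)
    (hψ : ‖ψ‖ ≤ 1) (hlim : ∀ w : V, Tendsto (fun n => ⟪φ n, w⟫) atTop (𝓝 ⟪ψ, w⟫)) :
    Tendsto (fun n => h.op (φ n)) atTop (𝓝 (h.op ψ)) := by
  have mk : Measurable (fun p : ℝ × ℝ => k p.1 p.2) := h.meas
  have mkx : ∀ x, Measurable (fun y => k x y) :=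
    fun x => mk.comp (measurable_const.prodMk measurable_id)
  have mN : Measurable (fun x => ∫⁻ y, ‖k x y‖ₑ ^ 2) := by
    have : Measurable (fun p : ℝ × ℝ => ‖k p.1 p.2‖ₑ ^ 2) := by fun_prop
    exact this.lintegral_prod_right'
  have hae : ∀ᵐ x, ∫⁻ y, ‖k x y‖ₑ ^ 2 < ∞ := ae_lt_top mN hk.ne
  have hmem : ∀ x, ∫⁻ y, ‖k x y‖ₑ ^ 2 < ∞ → MemLp (fun y => k x y) 2 := by
    intro x hx
    refine ⟨(mkx x).aestronglyMeasurable, ?_⟩
    rw [eLpNorm_eq_lintegral_rpow_enorm_toReal (by norm_num) (by norm_num)]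
    simp only [ENNReal.toReal_ofNat, one_div, ENNReal.rpow_ofNat]
    exact ENNReal.rpow_lt_top_of_nonneg (by norm_num) hx.ne
  have happ : ∀ x (hx : ∫⁻ y, ‖k x y‖ₑ ^ 2 < ∞) (f : V),
      app k f x = ⟪f, (hmem x hx).toLp⟫ := by
    intro x hx f
    rw [inner_eq]
    unfold app
    apply integral_congr_ae
    filter_upwards [(hmem x hx).coeFn_toLp] with y hy
    rw [hy]; ring
  have hbd : ∀ x (hx : ∫⁻ y, ‖k x y‖ₑ ^ 2 < ∞) (f : V), ‖f‖ ≤ 1 →
      ‖app k f x‖ₑ ≤ (∫⁻ y, ‖k x y‖ₑ ^ 2) ^ (1 / 2 : ℝ) := by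
    intro x hx f hf
    rw [happ x hx]
    have h1 : ‖⟪f, (hmem x hx).toLp⟫‖ ≤ ‖(hmem x hx).toLp‖ :=
      (norm_inner_le_norm f _).trans (by nlinarith [norm_nonneg ((hmem x hx).toLp)])
    have h2 : ‖⟪f, (hmem x hx).toLp⟫‖ₑ ≤ ENNReal.ofReal ‖(hmem x hx).toLp‖ := by
      rw [← ofReal_norm]
      exact ENNReal.ofReal_le_ofReal h1
    refine h2.trans ?_
    rw [Lp.norm_toLp, ENNReal.ofReal_toReal (hmem x hx).2.ne,
      eLpNorm_eq_lintegral_rpow_enorm_toReal (by norm_num) (by norm_num)]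
    simp only [ENNReal.toReal_ofNat, one_div, ENNReal.rpow_ofNat]
    exact le_rfl
  rw [tendsto_iff_norm_sub_tendsto_zero]
  have key : Tendsto (fun n => ‖h.op (φ n) - h.op ψ‖ ^ 2) atTop (𝓝 0) := by
    have e1 : ∀ n, ‖h.op (φ n) - h.op ψ‖ ^ 2
        = (∫⁻ x, ‖app k (φ n) x - app k ψ x‖ₑ ^ 2).toReal := by
      intro n
      rw [norm_sq_eq]
      congr 1
      apply lintegral_congr_ae
      filter_upwards [Lp.coeFn_sub (h.op (φ n)) (h.op ψ), h.op_ae (φ n), h.op_ae ψ]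
        with x h1 h2 h3
      rw [h1, Pi.sub_apply, h2, h3]
    simp_rw [e1]
    have e2 : (0 : ℝ) = (0 : ℝ≥0∞).toReal := by simp
    rw [e2]
    apply (ENNReal.tendsto_toReal (by simp)).comp
    have e3 : (0 : ℝ≥0∞) = ∫⁻ _ : ℝ, 0 := by simp
    rw [e3]
    have hfin : ∫⁻ x, 4 * ∫⁻ y, ‖k x y‖ₑ ^ 2 ≠ ∞ := by
      rw [lintegral_const_mul _ mN]
      exact (ENNReal.mul_lt_top (by norm_num) hk).ne
    refine tendsto_lintegral_of_dominated_convergence (fun x => 4 * ∫⁻ y, ‖k x y‖ₑ ^ 2) ?_ ?_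
      hfin ?_
    · intro n
      have m1 := (h.app_stronglyMeasurable (measurable_coe (φ n))).measurable
      have m2 := (h.app_stronglyMeasurable (measurable_coe ψ)).measurable
      fun_prop
    · intro n
      filter_upwards [hae] with x hx
      have h1 := hbd x hx (φ n) (hφ n)
      have h2 := hbd x hx ψ hψ
      calc ‖app k (φ n) x - app k ψ x‖ₑ ^ 2
          ≤ (‖app k (φ n) x‖ₑ + ‖app k ψ x‖ₑ) ^ 2 := by gcongr; exact enorm_sub_le
        _ ≤ ((∫⁻ y, ‖k x y‖ₑ ^ 2) ^ (1 / 2 : ℝ) + (∫⁻ y, ‖k x y‖ₑ ^ 2) ^ (1 / 2 : ℝ)) ^ 2 := by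
          gcongr
        _ = 4 * ∫⁻ y, ‖k x y‖ₑ ^ 2 := by
          rw [← two_mul, mul_pow, ← ENNReal.rpow_natCast _ 2, ← ENNReal.rpow_natCast _ 2,
            ← ENNReal.rpow_mul]
          norm_num
    · filter_upwards [hae] with x hx
      have h1 : Tendsto (fun n => app k (φ n) x) atTop (𝓝 (app k ψ x)) := by
        simp_rw [happ x hx]
        exact hlim _
      have h2 : Tendsto (fun n => app k (φ n) x - app k ψ x) atTop (𝓝 0) := by
        have := h1.sub_const (app k ψ x)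
        simpa using this
      have h3 : Tendsto (fun n => ‖app k (φ n) x - app k ψ x‖ₑ) atTop (𝓝 0) := by
        have := h2.enorm
        simpa using this
      have h4 := ENNReal.Tendsto.pow (n := 2) h3
      simpa using h4
  have h5 := key.sqrt
  simp only [Real.sqrt_zero] at h5
  refine h5.congr fun n => ?_
  rw [Real.sqrt_sq (norm_nonneg _)]

/-- Hilbert–Schmidt kernels give compact operators. -/
theorem isCompactOperator (h : KB k H) (hk : ∫⁻ x, ∫⁻ y, ‖k x y‖ₑ ^ 2 < ∞) :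
    IsCompactOperator h.op := by
  rw [isCompactOperator_iff_exists_mem_nhds_image_subset_compact]
  refine ⟨Metric.closedBall 0 1, Metric.closedBall_mem_nhds _ one_pos,
    h.op '' Metric.closedBall 0 1, ?_, subset_rfl⟩
  apply IsSeqCompact.isCompact
  intro y hy
  choose φ hφ1 hφ2 using hy
  have hφ : ∀ n, ‖φ n‖ ≤ 1 := fun n => by simpa using hφ1 n
  obtain ⟨ψ, u, hψ, hu, hlim⟩ := exists_weak_subseq φ hφ
  refine ⟨h.op ψ, ⟨ψ, by simpa using hψ, rfl⟩, u, hu, ?_⟩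
  have := h.tendsto_op_of_weak hk (φ := fun n => φ (u n)) (fun n => hφ _) hψ hlim
  refine this.congr fun n => ?_
  exact hφ2 (u n)

end KB

end Pool.Agent.Helper59.NP
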