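import Pool.Agent.Helper59.NP.Harm
import Pool.Agent.Helper59.NP.HS

set_option autoImplicit false
open Real MeasureTheory Set

namespace Pool.Agent.Helper59.NP

/-- a small `C²` bump supported in `[-1, 0]` -/
structure IsBump (η : ℝ → ℝ) : Prop where
  smooth : ContDiff ℝ 2 η
  supp : ∀ x, x ∉ Icc (-1 : ℝ) 0 → η x = 0
  nonneg : ∀ x, 0 ≤ η x
  small : ∀ x, η x ≤ 1 / 100

noncomputable def gam (η : ℝ → ℝ) (x : ℝ) : ℝ := π / 4 - η x

noncomputable def gam' (η : ℝ → ℝ) (x : ℝ) : ℝ := -deriv η x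

/-- `P X θ g = ∂_X (lg X (θ+g) - lg X (θ-g))` -/
noncomputable def Pf (X θ g : ℝ) : ℝ := pp X (θ + g) - pp X (θ - g)

/-- `Q X θ g = ∂_θ (lg X (θ+g) - lg X (θ-g))` -/
noncomputable def Qf (X θ g : ℝ) : ℝ := qq X (θ + g) - qq X (θ - g)

/-- the symmetrizing kernel -/
noncomputable def Gk (η : ℝ → ℝ) (x y : ℝ) : ℝ :=
  lg (x - y) (gam η x + gam η y) - lg (x - y) (gam η x - gam η y)

/-- the kernel of the operator `L` -/
noncomputable def lk (η : ℝ → ℝ) (x y : ℝ) : ℝ :=
  (1 / (2 * π)) * (Qf (x - y) (gam η x) (gam η y) - gam' η x * Pf (x - y) (gam η x) (gam η y))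

/-- the kernel of the unperturbed operator -/
noncomputable def lw (x y : ℝ) : ℝ := 1 / (4 * π * cosh (x - y))

theorem cosh_sub_one_ge (X : ℝ) : X ^ 2 / 2 ≤ cosh X - 1 := by
  have h1 : cosh X - 1 = 2 * sinh (X / 2) ^ 2 := by
    have h := cosh_two_mul (X / 2)
    have h2 := cosh_sq (X / 2)
    rw [show 2 * (X / 2) = X by ring] at h
    linarith
  rw [h1]
  have h2 : (X / 2) ^ 2 ≤ sinh (X / 2) ^ 2 := by
    rw [← sq_abs (X / 2), ← sq_abs (sinh (X / 2)), abs_sinh]
    have : |X / 2| ≤ sinh |X / 2| := self_le_sinh_iff.mpr (abs_nonneg _)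
    have h0 := abs_nonneg (X / 2)
    nlinarith
  nlinarith

theorem inv_cosh_le (t : ℝ) : (cosh t)⁻¹ ≤ 2 * (1 + t ^ 2)⁻¹ := by
  have h := cosh_sub_one_ge t
  have h1 : (1 + t ^ 2) / 2 ≤ cosh t := by nlinarith
  calc (cosh t)⁻¹ ≤ ((1 + t ^ 2) / 2)⁻¹ := by gcongr
    _ = 2 * (1 + t ^ 2)⁻¹ := by rw [inv_div]; ring

theorem integrable_inv_cosh : Integrable (fun t : ℝ => (cosh t)⁻¹) := by
  refine (integrable_inv_one_add_sq.const_mul 2).mono' ?_ (Filter.Eventually.of_forall fun t => ?_)
  · exact (continuous_cosh.measurable.inv).aestronglyMeasurable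
  · rw [norm_eq_abs, abs_of_pos (inv_pos.mpr (cosh_pos t))]
    exact inv_cosh_le t

namespace IsBump

variable {η : ℝ → ℝ}

theorem gam_le (h : IsBump η) (x : ℝ) : gam η x ≤ π / 4 := by
  unfold gam; linarith [h.nonneg x]

theorem gam_ge (h : IsBump η) (x : ℝ) : π / 4 - 1 / 100 ≤ gam η x := by
  unfold gam; linarith [h.small x]

theorem gam_ge' (h : IsBump η) (x : ℝ) : 3 / 4 ≤ gam η x := by
  have := h.gam_ge x
  have := pi_gt_d2
  linarith

theorem gam_le' (h : IsBump η) (x : ℝ) : gam η x ≤ 4 / 5 := by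
  have := h.gam_le x
  have := pi_lt_d2
  linarith

theorem gam_eq (h : IsBump η) {x : ℝ} (hx : x ∉ Icc (-1 : ℝ) 0) : gam η x = π / 4 := by
  unfold gam; rw [h.supp x hx]; ring

theorem deriv_eq_zero (h : IsBump η) {x : ℝ} (hx : x ∉ Icc (-1 : ℝ) 0) : deriv η x = 0 := by
  have hU : (Icc (-1 : ℝ) 0)ᶜ ∈ nhds x := isClosed_Icc.isOpen_compl.mem_nhds hx
  have : η =ᶠ[nhds x] fun _ => 0 := by
    filter_upwards [hU] with y hy
    exact h.supp y hy
  rw [this.deriv_eq]
  simp

theorem gam'_eq (h : IsBump η) {x : ℝ} (hx : x ∉ Icc (-1 : ℝ) 0) : gam' η x = 0 := by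
  unfold gam'; rw [h.deriv_eq_zero hx]; ring

theorem differentiable (h : IsBump η) : Differentiable ℝ η := h.smooth.differentiable (by norm_num)

theorem hasDerivAt_gam (h : IsBump η) (x : ℝ) : HasDerivAt (gam η) (gam' η x) x := by
  unfold gam gam'
  have := (h.differentiable x).hasDerivAt.const_sub (π / 4)
  exact this

theorem contDiff_deriv (h : IsBump η) : ContDiff ℝ 1 (deriv η) := by
  have : ContDiff ℝ (1 + 1) η := by
    have := h.smooth
    norm_num
    exact this
  exact (contDiff_succ_iff_deriv.mp this).2.2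

theorem continuous_gam (h : IsBump η) : Continuous (gam η) :=
  continuous_const.sub h.smooth.continuous

theorem continuous_gam' (h : IsBump η) : Continuous (gam' η) := h.contDiff_deriv.continuous.neg

theorem exists_bound (h : IsBump η) : ∃ M : ℝ, 0 < M ∧ (∀ x, |gam' η x| ≤ M) ∧
    (∀ x y, |gam η x - gam η y| ≤ M * |x - y|) ∧
    (∀ x y, |gam η x - gam η y - gam' η x * (x - y)| ≤ M * (x - y) ^ 2) := by
  have hc1 : HasCompactSupport (deriv η) := by
    refine HasCompactSupport.intro (isCompact_Icc (a := (-1 : ℝ)) (b := 0)) ?_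
    intro x hx; exact h.deriv_eq_zero hx
  obtain ⟨M1, hM1⟩ := hc1.exists_bound_of_continuous h.contDiff_deriv.continuous
  have hc2 : HasCompactSupport (deriv (deriv η)) := by
    refine HasCompactSupport.intro (isCompact_Icc (a := (-1 : ℝ)) (b := 0)) ?_
    intro x hx
    have hU : (Icc (-1 : ℝ) 0)ᶜ ∈ nhds x := isClosed_Icc.isOpen_compl.mem_nhds hx
    have : deriv η =ᶠ[nhds x] fun _ => 0 := by
      filter_upwards [hU] with y hy
      exact h.deriv_eq_zero hy
    rw [this.deriv_eq]
    simp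
  have hcont2 : Continuous (deriv (deriv η)) := h.contDiff_deriv.continuous_deriv le_rfl
  obtain ⟨M2, hM2⟩ := hc2.exists_bound_of_continuous hcont2
  set M := max (max M1 M2) 1 with hM
  have hM1' : M1 ≤ M := (le_max_left _ _).trans (le_max_left _ _)
  have hM2' : M2 ≤ M := (le_max_right _ _).trans (le_max_left _ _)
  have hMpos : 0 < M := lt_of_lt_of_le one_pos (le_max_right _ _)
  have hg' : ∀ x, |gam' η x| ≤ M := by
    intro x
    unfold gam'
    rw [abs_neg]
    exact (hM1 x).trans hM1'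
  have hlip' : ∀ x y, |gam' η x - gam' η y| ≤ M * |x - y| := by
    intro x y
    have := Convex.norm_image_sub_le_of_norm_deriv_le (f := deriv η) (s := univ) (x := y) (y := x)
      (C := M) (fun z _ => (h.contDiff_deriv.differentiable (by norm_num)) z)
      (fun z _ => (hM2 z).trans hM2') convex_univ (mem_univ _) (mem_univ _)
    unfold gam'
    rw [norm_eq_abs, norm_eq_abs] at this
    rw [show -deriv η x - -deriv η y = -(deriv η x - deriv η y) by ring, abs_neg]
    exact this
  refine ⟨M, hMpos, hg', ?_, ?_⟩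
  · intro x y
    have := Convex.norm_image_sub_le_of_norm_hasDerivWithin_le (f := gam η) (f' := gam' η)
      (s := univ) (x := y) (y := x) (C := M) (fun z _ => (h.hasDerivAt_gam z).hasDerivWithinAt)
      (fun z _ => hg' z) convex_univ (mem_univ _) (mem_univ _)
    rw [norm_eq_abs, norm_eq_abs] at this
    exact this
  · intro x y
    have := Convex.norm_image_sub_le_of_norm_hasDerivWithin_le
      (f := fun z => gam η z - gam' η x * z) (f' := fun z => gam' η z - gam' η x)
      (s := uIcc x y) (x := y) (y := x) (C := M * |x - y|)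
      (fun z _ => ((h.hasDerivAt_gam z).sub (by
        simpa using (hasDerivAt_id z).const_mul (gam' η x))).hasDerivWithinAt)
      (fun z hz => (hlip' z x).trans (by
        have : |z - x| ≤ |x - y| := by
          rw [abs_sub_comm x y]
          exact abs_sub_left_of_mem_uIcc hz
        gcongr)) (convex_uIcc x y) right_mem_uIcc left_mem_uIcc
    rw [norm_eq_abs, norm_eq_abs] at this
    have e : gam η x - gam' η x * x - (gam η y - gam' η x * y)
        = gam η x - gam η y - gam' η x * (x - y) := by ring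
    rw [e] at this
    refine this.trans (le_of_eq ?_)
    rw [mul_assoc, ← sq, sq_abs]

end IsBump

end Pool.Agent.Helper59.NP
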