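import Pool.Agent.Helper59.NP.Defs
import Pool.Agent.Helper59.NP.Curve

set_option autoImplicit false
open Set MeasureTheory Filter Topology
open scoped ENNReal

namespace Pool.Agent.Helper59.NP

/-- the curve in the strip, `u(x) = x + iγ(x)` -/
noncomputable def uu (η : ℝ → ℝ) (x : ℝ) : ℂ := (x : ℂ) + (gam η x : ℂ) * Complex.I

/-- the upper arc of the lens -/
noncomputable def Z (η : ℝ → ℝ) (x : ℝ) : ℂ :=
  Complex.exp (uu η x) / (1 + Complex.exp (uu η x))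

/-- the derivative of `Z` -/
noncomputable def Z' (η : ℝ → ℝ) (x : ℝ) : ℂ :=
  (1 + (gam' η x : ℂ) * Complex.I) * Complex.exp (uu η x) / (1 + Complex.exp (uu η x)) ^ 2

/-- kernel of the Neumann–Poincaré operator on even functions, in the variable `x` -/
noncomputable def kz (η : ℝ → ℝ) (x y : ℝ) : ℝ :=
  -(1 / (2 * Real.pi)) *
    ((Z' η y / (Z η y - Z η x)).im + (Z' η y / (Z η y - (starRingEnd ℂ) (Z η x))).im)

/-- What we need to know about the lens-shaped curvilinear polygon with upper arc `Z η`. -/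
structure IsLens (η : ℝ → ℝ) (P : CurvPolygon) : Prop where
  angle : ∀ i, P.angle i = Real.pi / 2
  lint : ∀ F : ℂ → ℝ≥0∞, Measurable F →
    ∫⁻ z, F z ∂P.ds = ∫⁻ x : ℝ, (F (Z η x) + F ((starRingEnd ℂ) (Z η x))) * ‖Z' η x‖ₑ
  ae : ∀ p : ℂ → Prop, (∀ x : ℝ, p (Z η x) ∧ p ((starRingEnd ℂ) (Z η x))) → ∀ᵐ z ∂P.ds, p z
  trunc : ∀ ε > (0 : ℝ), ∀ (f : ℂ → ℂ) (x : ℂ), P.npTrunc ε f x =
    (1 / (2 * Real.pi) : ℝ) *
    ((∫ y in {y : ℝ | ε < ‖Z η y - x‖}, ((-(Z' η y / (Z η y - x)).im : ℝ) : ℂ) * f (Z η y)) +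
      ∫ y in {y : ℝ | ε < ‖(starRingEnd ℂ) (Z η y) - x‖},
        ((-(Z' η y / (Z η y - (starRingEnd ℂ) x)).im : ℝ) : ℂ) * f ((starRingEnd ℂ) (Z η y)))

end Pool.Agent.Helper59.NP
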