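import Mathlib

set_option autoImplicit false
open scoped RealInnerProductSpace
open Module End

namespace Pool.Agent.Helper59.NP

section Lax

variable {V : Type*} [NormedAddCommGroup V] [InnerProductSpace ℝ V]

/-- The bilinear form `E v w = ⟪S v, w⟫`. -/
noncomputable def EE (S : V →L[ℝ] V) (v w : V) : ℝ := ⟪S v, w⟫

structure SymPos (S : V →L[ℝ] V) : Prop where
  symm : ∀ v w, ⟪S v, w⟫ = ⟪S w, v⟫
  nonneg : ∀ v, 0 ≤ ⟪S v, v⟫

theorem SymPos.cs {S : V →L[ℝ] V} (hS : SymPos S) (v w : V) :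
    ⟪S v, w⟫ ^ 2 ≤ ⟪S v, v⟫ * ⟪S w, w⟫ := by
  have key : ∀ t : ℝ, 0 ≤ ⟪S w, w⟫ * (t * t) + (2 * ⟪S v, w⟫) * t + ⟪S v, v⟫ := by
    intro t
    have h := hS.nonneg (v + t • w)
    have e : ⟪S (v + t • w), v + t • w⟫
        = ⟪S w, w⟫ * (t * t) + (2 * ⟪S v, w⟫) * t + ⟪S v, v⟫ := by
      simp only [map_add, map_smul, inner_add_left, inner_add_right, inner_smul_left,
        inner_smul_right, hS.symm w v]
      simp
      ring
    rw [← e]; exact h
  have := discrim_le_zero key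
  unfold discrim at this
  nlinarith

/-- Lax's lemma on symmetrizable operators. -/
theorem SymPos.lax {S T : V →L[ℝ] V} (hS : SymPos S)
    (hT : ∀ v w, ⟪S (T v), w⟫ = ⟪S v, T w⟫) (v : V) :
    ⟪S (T v), T v⟫ ≤ ‖T‖ ^ 2 * ⟪S v, v⟫ := by
  set a : ℕ → ℝ := fun n => ⟪S ((T ^ n) v), (T ^ n) v⟫ with ha
  have ha0 : ∀ n, 0 ≤ a n := fun n => hS.nonneg _
  have hlc : ∀ n, a (n + 1) ^ 2 ≤ a n * a (n + 2) := by
    intro n
    have h1 : a (n + 1) = ⟪S ((T ^ n) v), (T ^ (n + 2)) v⟫ := by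
      simp only [ha]
      have e1 : (T ^ (n + 1)) v = T ((T ^ n) v) := by rw [pow_succ']; rfl
      have e2 : (T ^ (n + 2)) v = T (T ((T ^ n) v)) := by rw [pow_succ', pow_succ']; rfl
      rw [e1, e2, hT]
    rw [h1]
    exact hS.cs _ _
  have hbd : ∀ n, a n ≤ ‖S‖ * ‖v‖ ^ 2 * (‖T‖ ^ 2) ^ n := by
    intro n
    have h1 : ‖(T ^ n) v‖ ≤ ‖T‖ ^ n * ‖v‖ := by
      clear * -
      induction n with
      | zero => simp
      | succ n ih =>
        have e1 : (T ^ (n + 1)) v = T ((T ^ n) v) := by rw [pow_succ']; rfl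
        rw [e1]
        calc ‖T ((T ^ n) v)‖ ≤ ‖T‖ * ‖(T ^ n) v‖ := ContinuousLinearMap.le_opNorm _ _
          _ ≤ ‖T‖ * (‖T‖ ^ n * ‖v‖) := by gcongr
          _ = _ := by ring
    calc a n ≤ ‖S ((T ^ n) v)‖ * ‖(T ^ n) v‖ := real_inner_le_norm _ _
      _ ≤ (‖S‖ * ‖(T ^ n) v‖) * ‖(T ^ n) v‖ :=
        mul_le_mul_of_nonneg_right (ContinuousLinearMap.le_opNorm _ _) (norm_nonneg _)
      _ ≤ (‖S‖ * (‖T‖ ^ n * ‖v‖)) * (‖T‖ ^ n * ‖v‖) := by gcongr
      _ = ‖S‖ * ‖v‖ ^ 2 * (‖T‖ ^ 2) ^ n := by ring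
  have goal : a 1 ≤ ‖T‖ ^ 2 * a 0 := by
    by_contra hcon
    push Not at hcon
    by_cases h0 : a 0 = 0
    · have := hlc 0
      rw [h0] at this hcon
      simp at this
      have : a 1 = 0 := this
      rw [this] at hcon; simp at hcon
    have h0' : 0 < a 0 := lt_of_le_of_ne (ha0 0) (Ne.symm h0)
    set r : ℝ := a 1 / a 0 with hr
    have hr' : ‖T‖ ^ 2 < r := by rw [hr, lt_div_iff₀ h0']; exact hcon
    have hrpos : 0 < r := lt_of_le_of_lt (by positivity) hr'
    have hind : ∀ n, 0 < a n ∧ r * a n ≤ a (n + 1) := by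
      intro n
      induction n with
      | zero => exact ⟨h0', by rw [hr]; field_simp; exact le_rfl⟩
      | succ n ih =>
        obtain ⟨h1, h2⟩ := ih
        have h3 : 0 < a (n + 1) := lt_of_lt_of_le (by positivity) h2
        refine ⟨h3, ?_⟩
        have h4 := hlc n
        have h5 : r * a n * a (n + 1) ≤ a n * a (n + 2) := by nlinarith
        have h6 : a n * (r * a (n + 1)) ≤ a n * a (n + 2) := by nlinarith
        exact le_of_mul_le_mul_left h6 h1
    have hgrow : ∀ n, r ^ n * a 0 ≤ a n := by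
      intro n
      induction n with
      | zero => simp
      | succ n ih =>
        calc r ^ (n + 1) * a 0 = r * (r ^ n * a 0) := by ring
          _ ≤ r * a n := by gcongr
          _ ≤ a (n + 1) := (hind n).2
    by_cases hT0 : ‖T‖ ^ 2 = 0
    · have h1 := hgrow 1
      have h2 := hbd 1
      rw [hT0] at h2
      simp at h2 h1
      have : 0 < r * a 0 := by positivity
      linarith
    · have hTpos : 0 < ‖T‖ ^ 2 := lt_of_le_of_ne (by positivity) (Ne.symm hT0)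
      have hq : 1 < r / ‖T‖ ^ 2 := by rw [lt_div_iff₀ hTpos]; linarith
      obtain ⟨n, hn⟩ := pow_unbounded_of_one_lt (‖S‖ * ‖v‖ ^ 2 / a 0) hq
      have h1 := (hgrow n).trans (hbd n)
      rw [div_pow, div_lt_div_iff₀ h0' (by positivity)] at hn
      linarith
  simpa [ha] using goal

end Lax

section Basic

variable {V : Type*} [NormedAddCommGroup V] [InnerProductSpace ℝ V] [CompleteSpace V]

/-- A positive operator plus a positive multiple of the identity is invertible. -/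
theorem exists_equiv_of_pos {P : V →L[ℝ] V} (hP : ∀ v, 0 ≤ ⟪P v, v⟫) {c : ℝ} (hc : 0 < c) :
    ∃ e : V ≃L[ℝ] V, ∀ v, e v = P v + c • v := by
  set A : V →L[ℝ] V := P + c • (1 : V →L[ℝ] V) with hA
  set B : V →L[ℝ] V →L[ℝ] ℝ := (innerSL ℝ).comp A with hB
  have hcoer : IsCoercive B := by
    refine ⟨c, hc, fun u => ?_⟩
    have : B u u = ⟪A u, u⟫ := rfl
    rw [this, hA]
    simp only [add_apply, smul_apply,
      one_apply_eq_self, inner_add_left, inner_smul_left]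
    have h1 := hP u
    have h2 : ⟪u, u⟫ = ‖u‖ * ‖u‖ := real_inner_self_eq_norm_mul_norm u
    simp only [conj_trivial, h2]
    nlinarith
  refine ⟨hcoer.continuousLinearEquivOfBilin, fun v => ?_⟩
  have := hcoer.unique_continuousLinearEquivOfBilin (v := v) (f := A v) (fun w => rfl)
  rw [← this]
  simp [hA]

/-- Fredholm alternative for `P + K - μ`, `μ < 0`, `P ≥ 0`, `K` compact. -/
theorem exists_inv {P K : V →L[ℝ] V} (hP : ∀ v, 0 ≤ ⟪P v, v⟫) (hK : IsCompactOperator K)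
    {μ : ℝ} (hμ : μ < 0) (hno : ∀ v, P v + K v = μ • v → v = 0) :
    ∃ R : V →L[ℝ] V, ∀ v, R (P v + K v - μ • v) = v ∧ P (R v) + K (R v) - μ • (R v) = v := by
  obtain ⟨e, he⟩ := exists_equiv_of_pos hP (neg_pos.mpr hμ)
  set T : V →L[ℝ] V := -((e.symm : V →L[ℝ] V).comp K) with hT
  have hTc : IsCompactOperator T := by
    have := (hK.clm_comp (e.symm : V →L[ℝ] V)).neg
    exact this
  have h1 : ¬ HasEigenvalue (T : End ℝ V) 1 := by
    intro h
    obtain ⟨v, hv⟩ := h.exists_hasEigenvector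
    have hv1 : T v = v := by simpa using hv.apply_eq_smul
    have hv2 : K v = - e v := by
      have : e (T v) = e v := by rw [hv1]
      rw [hT] at this
      simp at this
      rw [← this]; simp
    rw [he] at hv2
    exact hv.2 (hno v (by rw [hv2]; simp))
  have h2 := (IsCompactOperator.hasEigenvalue_or_mem_resolventSet hTc one_ne_zero).resolve_left h1
  rw [spectrum.mem_resolventSet_iff] at h2
  obtain ⟨U, hU⟩ := h2
  have hUv : ∀ v, (U : V →L[ℝ] V) v = v + e.symm (K v) := by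
    intro v
    rw [hU]
    simp [hT]
  set Ui : V →L[ℝ] V := ((U⁻¹ : (V →L[ℝ] V)ˣ) : V →L[ℝ] V) with hUi
  have hl : ∀ v, Ui ((U : V →L[ℝ] V) v) = v := by
    intro v
    have : (Ui * (U : V →L[ℝ] V)) v = v := by rw [hUi, Units.inv_mul]; simp
    exact this
  have hr : ∀ v, (U : V →L[ℝ] V) (Ui v) = v := by
    intro v
    have : ((U : V →L[ℝ] V) * Ui) v = v := by rw [hUi, Units.mul_inv]; simp
    exact this
  refine ⟨Ui.comp (e.symm : V →L[ℝ] V), fun v => ⟨?_, ?_⟩⟩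
  · have e1 : P v + K v - μ • v = e (v + e.symm (K v)) := by
      rw [map_add, he]
      simp only [ContinuousLinearEquiv.apply_symm_apply, neg_smul]
      abel
    rw [e1, ← hUv]
    simp [hl]
  · set w := Ui (e.symm v) with hw
    have e1 : P w + K w - μ • w = e (w + e.symm (K w)) := by
      rw [map_add, he]
      simp only [ContinuousLinearEquiv.apply_symm_apply, neg_smul]
      abel
    have e2 : Ui.comp (e.symm : V →L[ℝ] V) v = w := rfl
    rw [e2, e1, ← hUv, hw, hr]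
    simp

/-- Data of a symmetrizable operator `L = P + K`. -/
structure SymData (S L P K : V →L[ℝ] V) : Prop where
  pos : SymPos S
  symL : ∀ v w, ⟪S (L v), w⟫ = ⟪S v, L w⟫
  decomp : L = P + K
  posP : ∀ v, 0 ≤ ⟪P v, v⟫
  cpt : IsCompactOperator K

theorem SymData.nonneg_of_no_eigen {S L P K : V →L[ℝ] V} (h : SymData S L P K)
    (hno : ∀ μ : ℝ, μ < 0 → ∀ v, L v = μ • v → v = 0) (v : V) : 0 ≤ ⟪S (L v), v⟫ := by
  by_contra hcon
  push Not at hcon
  have hLb : ∀ v, |⟪S (L v), v⟫| ≤ ‖L‖ * ⟪S v, v⟫ := by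
    intro v
    have h1 := h.pos.cs (L v) v
    have h2 := h.pos.lax (T := L) h.symL v
    have h3 := h.pos.nonneg v
    have h4 : ⟪S (L v), v⟫ ^ 2 ≤ (‖L‖ * ⟪S v, v⟫) ^ 2 := by nlinarith
    exact abs_le_of_sq_le_sq h4 (by positivity)
  have hv0 : 0 < ⟪S v, v⟫ := by
    rcases (h.pos.nonneg v).lt_or_eq with h1 | h1
    · exact h1
    · have := hLb v
      rw [← h1] at this
      simp at this
      linarith
  set A : Set ℝ := {r | ∃ w, 0 < ⟪S w, w⟫ ∧ r = ⟪S (L w), w⟫ / ⟪S w, w⟫} with hA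
  have hAne : A.Nonempty := ⟨_, v, hv0, rfl⟩
  have hAbd : BddBelow A := by
    refine ⟨-‖L‖, ?_⟩
    rintro r ⟨w, hw, rfl⟩
    rw [le_div_iff₀ hw]
    have := (abs_le.mp (hLb w)).1
    linarith
  set μ := sInf A with hμdef
  have hμ : μ < 0 := by
    have : μ ≤ ⟪S (L v), v⟫ / ⟪S v, v⟫ := csInf_le hAbd ⟨v, hv0, rfl⟩
    have h2 : ⟪S (L v), v⟫ / ⟪S v, v⟫ < 0 := div_neg_of_neg_of_pos hcon hv0
    linarith
  have hge : ∀ w, μ * ⟪S w, w⟫ ≤ ⟪S (L w), w⟫ := by
    intro w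
    rcases (h.pos.nonneg w).lt_or_eq with h1 | h1
    · have : μ ≤ ⟪S (L w), w⟫ / ⟪S w, w⟫ := csInf_le hAbd ⟨w, h1, rfl⟩
      rwa [le_div_iff₀ h1] at this
    · have := hLb w
      rw [← h1] at this
      simp at this
      rw [← h1, this]; simp
  -- the resolvent
  have hL' : ∀ v, L v = P v + K v := fun v => by rw [h.decomp]; rfl
  obtain ⟨R, hR⟩ := exists_inv h.posP h.cpt hμ (fun v hv => hno μ hμ v (by rw [hL', hv]))
  have hR1 : ∀ v, R (L v - μ • v) = v := fun v => by rw [hL']; exact (hR v).1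
  have hR2 : ∀ v, L (R v) - μ • (R v) = v := fun v => by rw [hL']; exact (hR v).2
  set M : V →L[ℝ] V := L - μ • (1 : V →L[ℝ] V) with hM
  have hMv : ∀ v, M v = L v - μ • v := fun v => by simp [hM]
  have hMsym : ∀ v w, ⟪S (M v), w⟫ = ⟪S v, M w⟫ := by
    intro v w
    rw [hMv, hMv, map_sub, inner_sub_left, inner_sub_right, h.symL, map_smul, inner_smul_left,
      inner_smul_right]
    simp
  have hRsym : ∀ v w, ⟪S (R v), w⟫ = ⟪S v, R w⟫ := by
    intro v w
    have e1 : w = M (R w) := by rw [hMv, hR2]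
    have e2 : v = M (R v) := by rw [hMv, hR2]
    conv_lhs => rw [e1, ← hMsym, ← e2]
  set β : V → V → ℝ := fun v w => ⟪S (M v), w⟫ with hβ
  have hSM : SymPos (S.comp M) := by
    refine ⟨fun v w => ?_, fun v => ?_⟩
    · show ⟪S (M v), w⟫ = ⟪S (M w), v⟫
      rw [hMsym, h.pos.symm]
    · show 0 ≤ ⟪S (M v), v⟫
      rw [hMv, map_sub, inner_sub_left, map_smul, inner_smul_left]
      simp
      have := hge v
      linarith
  have key : ∀ v, ⟪S (M v), M v⟫ ≤ ‖M‖ * ⟪S (M v), v⟫ := by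
    intro v
    have h1 := hSM.cs v (M v)
    simp only [ContinuousLinearMap.comp_apply] at h1
    have h2 : ⟪S (M (M v)), M v⟫ ≤ ‖M‖ * ⟪S (M v), M v⟫ := by
      have h3 := h.pos.cs (M (M v)) (M v)
      have h4 := h.pos.lax (T := M) hMsym (M v)
      have h5 := h.pos.nonneg (M v)
      have h6 : ⟪S (M (M v)), M v⟫ ^ 2 ≤ (‖M‖ * ⟪S (M v), M v⟫) ^ 2 := by nlinarith
      exact (abs_le_of_sq_le_sq' h6 (by positivity)).2
    have h7 : 0 ≤ ⟪S (M v), v⟫ := hSM.nonneg v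
    have h8 := h.pos.nonneg (M v)
    rcases h8.lt_or_eq with h9 | h9
    · have h10 : ⟪S (M v), M v⟫ * ⟪S (M v), M v⟫
          ≤ (‖M‖ * ⟪S (M v), v⟫) * ⟪S (M v), M v⟫ := by
        nlinarith
      exact le_of_mul_le_mul_right h10 h9
    · rw [← h9]; positivity
  have key2 : ∀ v, ⟪S v, v⟫ ≤ (‖R‖ ^ 2 * ‖M‖) * ⟪S (M v), v⟫ := by
    intro v
    have h1 := h.pos.lax (T := R) hRsym (M v)
    have e : R (M v) = v := by rw [hMv, hR1]
    rw [e] at h1
    have := key v
    calc ⟪S v, v⟫ ≤ ‖R‖ ^ 2 * ⟪S (M v), M v⟫ := h1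
      _ ≤ ‖R‖ ^ 2 * (‖M‖ * ⟪S (M v), v⟫) := by gcongr
      _ = _ := by ring
  set c := ‖R‖ ^ 2 * ‖M‖ + 1 with hc
  have hcpos : 0 < c := by positivity
  have hfin : μ + 1 / c ≤ μ := by
    conv_rhs => rw [hμdef]
    apply le_csInf hAne
    rintro r ⟨w, hw, rfl⟩
    rw [le_div_iff₀ hw]
    have h1 := key2 w
    have h2 : 0 ≤ ⟪S (M w), w⟫ := hSM.nonneg w
    have h3 : ⟪S w, w⟫ ≤ c * ⟪S (M w), w⟫ := by rw [hc]; nlinarith
    have h4 : ⟪S (M w), w⟫ = ⟪S (L w), w⟫ - μ * ⟪S w, w⟫ := by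
      rw [hMv, map_sub, inner_sub_left, map_smul, inner_smul_left]; simp
    have h5 : 1 / c * ⟪S w, w⟫ ≤ ⟪S (M w), w⟫ := by
      rw [one_div, inv_mul_le_iff₀ hcpos]; exact h3
    nlinarith
  have : 0 < 1 / c := by positivity
  linarith

/-- Each eigenspace for a negative eigenvalue is finite dimensional. -/
theorem SymData.finDim {S L P K : V →L[ℝ] V} (h : SymData S L P K) {μ : ℝ} (hμ : μ < 0) :
    FiniteDimensional ℝ (eigenspace (L : End ℝ V) μ) := by
  obtain ⟨e, he⟩ := exists_equiv_of_pos h.posP (neg_pos.mpr hμ)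
  set T : V →L[ℝ] V := -((e.symm : V →L[ℝ] V).comp K) with hT
  have hTc : IsCompactOperator T := (h.cpt.clm_comp (e.symm : V →L[ℝ] V)).neg
  have h1 : FiniteDimensional ℝ (eigenspace T.toLinearMap 1) :=
    ContinuousLinearMap.finite_dimensional_eigenspace hTc 1 one_ne_zero
  have h2 : eigenspace (L : End ℝ V) μ ≤ eigenspace T.toLinearMap 1 := by
    intro v hv
    rw [mem_eigenspace_iff] at hv ⊢
    have hv' : L v = μ • v := hv
    rw [h.decomp] at hv'
    have hv2 : K v = - e v := by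
      rw [he]
      have : P v + K v = μ • v := hv'
      rw [← sub_eq_zero] at this ⊢
      rw [← this]; simp only [neg_smul]; abel
    show T v = (1 : ℝ) • v
    rw [hT]
    simp [hv2]
  exact Submodule.finiteDimensional_of_le h2

/-- Main abstract theorem: infinitely many negative eigenvalues. -/
theorem SymData.infinite_neg_eigen {S L P K : V →L[ℝ] V} (h : SymData S L P K)
    (hnd : ∀ v, ⟪S v, v⟫ = 0 → v = 0)
    (hneg : ∀ n : ℕ, ∃ f : (Fin n → ℝ) →ₗ[ℝ] V, ∀ c, c ≠ 0 → ⟪S (L (f c)), f c⟫ < 0) :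
    {μ : ℝ | μ < 0 ∧ ∃ v, v ≠ 0 ∧ L v = μ • v}.Infinite := by
  intro hfin
  set Λ : Set ℝ := {μ : ℝ | μ < 0 ∧ ∃ v, v ≠ 0 ∧ L v = μ • v} with hΛ
  have : Finite Λ := hfin
  set Z : Submodule ℝ V := ⨆ μ : Λ, eigenspace (L : End ℝ V) (μ : ℝ) with hZ
  have hZi : ∀ μ : Λ, FiniteDimensional ℝ (eigenspace (L : End ℝ V) (μ : ℝ)) :=
    fun μ => h.finDim μ.2.1
  have hZf : FiniteDimensional ℝ Z := Submodule.finiteDimensional_iSup _
  have hLZ : ∀ v ∈ Z, L v ∈ Z := by
    intro v hv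
    have : Z ≤ Z.comap (L : V →ₗ[ℝ] V) := by
      conv_lhs => rw [hZ]
      apply iSup_le
      intro μ v hv
      have hv' : L v = (μ : ℝ) • v := mem_eigenspace_iff.mp hv
      show L v ∈ Z
      rw [hv']
      exact Z.smul_mem _ ((le_iSup (fun μ : Λ => eigenspace (L : End ℝ V) (μ : ℝ)) μ) hv)
    exact this hv
  -- the form restricted to Z
  set BZ : Z →ₗ[ℝ] (Module.Dual ℝ Z) :=
    { toFun := fun z => ((innerSL ℝ (S z) : V →L[ℝ] ℝ) : V →ₗ[ℝ] ℝ).comp Z.subtype
      map_add' := by intro a b; ext w; simp [inner_add_left]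
      map_smul' := by intro a b; ext w; simp [inner_smul_left] } with hBZ
  have hBZa : ∀ z w : Z, BZ z w = ⟪S (z : V), (w : V)⟫ := fun z w => rfl
  have hinj : Function.Injective BZ := by
    rw [injective_iff_map_eq_zero]
    intro z hz
    have : BZ z z = 0 := by rw [hz]; rfl
    rw [hBZa] at this
    exact Subtype.ext (hnd _ this)
  set eZ : Z ≃ₗ[ℝ] Module.Dual ℝ Z :=
    LinearEquiv.ofInjectiveOfFinrankEq BZ hinj (Subspace.dual_finrank_eq).symm with heZ
  have heZa : ∀ z, eZ z = BZ z := fun z => rfl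
  set eZ' : Z ≃ₗ[ℝ] (Z →L[ℝ] ℝ) := eZ.trans LinearMap.toContinuousLinearMap with heZ'
  have heZa' : ∀ z w : Z, eZ' z w = ⟪S (z : V), (w : V)⟫ := fun z w => rfl
  set q : V →L[ℝ] (Z →L[ℝ] ℝ) :=
    (ContinuousLinearMap.compL ℝ Z V ℝ).flip Z.subtypeL ∘L (innerSL ℝ) ∘L S with hq
  have hqa : ∀ v (w : Z), q v w = ⟪S v, (w : V)⟫ := fun z w => rfl
  have : FiniteDimensional ℝ (Z →L[ℝ] ℝ) := eZ'.finiteDimensional
  set Pr : V →L[ℝ] Z :=
    (LinearMap.toContinuousLinearMap (eZ'.symm : (Z →L[ℝ] ℝ) →ₗ[ℝ] Z)).comp q with hPr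
  have hE : ∀ v (w : Z), ⟪S (Pr v : V), (w : V)⟫ = ⟪S v, (w : V)⟫ := by
    intro v w
    have h1 : eZ' (Pr v) = q v := by
      have : Pr v = eZ'.symm (q v) := rfl
      rw [this]; simp
    rw [← heZa', h1, hqa]
  have hPrZ : ∀ z : Z, Pr (z : V) = z := by
    intro z
    apply eZ'.injective
    ext w
    rw [heZa', heZa', hE]
  have hPr0 : ∀ v, (∀ w : Z, ⟪S v, (w : V)⟫ = 0) → Pr v = 0 := by
    intro v hv
    apply eZ'.injective
    ext w
    rw [heZa', hE, hv]; simp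
  have hker : ∀ v, Pr v = 0 → ∀ w : Z, ⟪S v, (w : V)⟫ = 0 := by
    intro v hv w
    rw [← hE, hv]; simp
  set LP : V →L[ℝ] V := L ∘L Z.subtypeL ∘L Pr with hLP
  have hLPa : ∀ v, LP v = L (Pr v : V) := fun v => rfl
  have hLPZ : ∀ v, LP v ∈ Z := fun v => hLZ _ (Pr v).2
  have hcpt : IsCompactOperator LP := by
    have h1 : IsCompactOperator Pr := by
      have : ProperSpace Z := FiniteDimensional.proper ℝ Z
      have : LocallyCompactSpace Z := inferInstance
      exact isCompactOperator_of_locallyCompactSpace_dom Pr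
    have := h1.clm_comp (L ∘L Z.subtypeL)
    exact this
  have hdata : SymData S (L - LP) P (K - LP) := by
    refine ⟨h.pos, ?_, ?_, h.posP, h.cpt.sub hcpt⟩
    · intro v w
      have e1 : ⟪S (LP v), w⟫ = ⟪S v, LP w⟫ := by
        have h1 : ⟪S (LP v), w⟫ = ⟪S (L (Pr v : V)), (Pr w : V)⟫ := by
          rw [h.pos.symm, ← hE w ⟨LP v, hLPZ v⟩, h.pos.symm]
          rfl
        have h2 : ⟪S v, LP w⟫ = ⟪S (Pr v : V), L (Pr w : V)⟫ := by
          rw [← hE v ⟨LP w, hLPZ w⟩]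
          rfl
        rw [h1, h2, h.symL]
      simp only [sub_apply, map_sub, inner_sub_left, inner_sub_right, e1, h.symL]
    · rw [h.decomp]; abel
  have hno : ∀ μ : ℝ, μ < 0 → ∀ v, (L - LP) v = μ • v → v = 0 := by
    intro μ hμ v hv
    have hv1 : L v - LP v = μ • v := hv
    -- Pr v = 0
    have hv2 : Pr v = 0 := by
      have h0 : Pr (L v - LP v) = 0 := by
        apply hPr0
        intro w
        have h3 : L v - LP v = L (v - (Pr v : V)) := by rw [map_sub, hLPa]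
        rw [h3, h.symL, map_sub, inner_sub_left]
        have h4 := hE v ⟨L (w : V), hLZ _ w.2⟩
        simp only at h4
        rw [h4]; ring
      rw [hv1, map_smul] at h0
      exact (smul_eq_zero.mp h0).resolve_left hμ.ne
    have hv3 : L v = μ • v := by
      have : LP v = 0 := by rw [hLPa, hv2]; simp
      rw [this, sub_zero] at hv1; exact hv1
    by_contra hne
    have hμΛ : μ ∈ Λ := ⟨hμ, v, hne, hv3⟩
    have hvZ : v ∈ Z :=
      (le_iSup (fun μ : Λ => eigenspace (L : End ℝ V) (μ : ℝ)) ⟨μ, hμΛ⟩)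
        (mem_eigenspace_iff.mpr hv3)
    have := hPrZ ⟨v, hvZ⟩
    simp only at this
    rw [hv2] at this
    exact hne (congrArg Subtype.val this).symm
  have hnn := hdata.nonneg_of_no_eigen hno
  obtain ⟨f, hf⟩ := hneg (Module.finrank ℝ Z + 1)
  set g : (Fin (Module.finrank ℝ Z + 1) → ℝ) →ₗ[ℝ] Z := (Pr : V →ₗ[ℝ] Z).comp f with hg
  have hgker : ∃ c, c ≠ 0 ∧ g c = 0 := by
    by_contra hcon
    push Not at hcon
    have hginj : Function.Injective g := by
      rw [injective_iff_map_eq_zero]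
      intro c hc
      by_contra hne
      exact hcon c hne hc
    have := LinearMap.finrank_le_finrank_of_injective hginj
    simp at this
  obtain ⟨c, hc, hgc⟩ := hgker
  have h1 := hf c hc
  have h2 := hnn (f c)
  have h3 : (L - LP) (f c) = L (f c) := by
    have : LP (f c) = 0 := by
      rw [hLPa]
      have : Pr (f c) = 0 := hgc
      rw [this]; simp
    show L (f c) - LP (f c) = L (f c)
    rw [this, sub_zero]
  rw [h3] at h2
  linarith

end Basic

end Pool.Agent.Helper59.NP
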