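import Pool.Agent.Helper59.NP.Curve

set_option autoImplicit false
open Real MeasureTheory Set

namespace Pool.Agent.Helper59.NP

theorem abs_sin_sub_le {x : ℝ} (hx : |x| ≤ 1) : |sin x - x| ≤ x ^ 2 := by
  rcases lt_trichotomy x 0 with h | h | h
  · have h1 : 0 < -x := by linarith
    have h2 : -x ≤ 1 := by rw [abs_of_neg h] at hx; exact hx
    have h3 := sin_lt h1
    have h4 := sin_gt_sub_cube h1
    rw [sin_neg] at h3 h4
    rw [abs_le]
    constructor <;> nlinarith
  · simp [h]
  · have h2 : x ≤ 1 := by rw [abs_of_pos h] at hx; exact hx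
    have h3 := sin_lt h
    have h4 := sin_gt_sub_cube h
    rw [abs_le]
    constructor <;> nlinarith

theorem cosh_sub_one_le {x : ℝ} (hx : |x| ≤ 1) : cosh x - 1 ≤ x ^ 2 := by
  have h1 := cosh_le_exp_half_sq x
  have h2 : |x ^ 2 / 2| ≤ 1 := by
    rw [abs_of_nonneg (by positivity)]
    have : x ^ 2 ≤ 1 := by rw [← sq_abs]; nlinarith [abs_nonneg x]
    linarith
  have h3 := abs_exp_sub_one_le h2
  rw [abs_of_nonneg (a := x ^ 2 / 2) (by positivity)] at h3
  have := (abs_le.mp h3).2
  linarith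

theorem abs_sinh_sub_le {x : ℝ} (hx : |x| ≤ 1) : |sinh x - x| ≤ x ^ 2 := by
  have := Convex.norm_image_sub_le_of_norm_hasDerivWithin_le
      (f := fun z => sinh z - z) (f' := fun z => cosh z - 1)
      (s := uIcc 0 x) (x := 0) (y := x) (C := x ^ 2)
      (fun z _ => ((hasDerivAt_sinh z).sub (hasDerivAt_id z)).hasDerivWithinAt)
      (fun z hz => by
        have hz1 : |z| ≤ |x| := by
          have := abs_sub_left_of_mem_uIcc hz
          simpa using this
        rw [norm_eq_abs, abs_of_nonneg (by linarith [one_le_cosh z])]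
        refine (cosh_sub_one_le (hz1.trans hx)).trans ?_
        rw [← sq_abs z, ← sq_abs x]
        gcongr) (convex_uIcc 0 x) left_mem_uIcc right_mem_uIcc
  simp only [sinh_zero, sub_zero, norm_eq_abs] at this
  refine this.trans ?_
  have h0 := abs_nonneg x
  nlinarith [sq_nonneg x]

theorem cosh_ge_of_one_le {X : ℝ} (hX : 1 ≤ |X|) : 3 / 2 ≤ cosh X := by
  have := cosh_sub_one_ge X
  rw [← sq_abs] at this
  nlinarith

theorem cosh_sub_one_ge' {X : ℝ} (hX : 1 ≤ |X|) : cosh X / 3 ≤ cosh X - 1 := by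
  have := cosh_ge_of_one_le hX
  linarith

theorem abs_sinh_le_cosh (X : ℝ) : |sinh X| ≤ cosh X := by
  rw [abs_sinh, ← cosh_abs]
  exact (sinh_lt_cosh _).le

theorem abs_pp_le {X θ c : ℝ} (hc : 0 < c) (hN : c * cosh X ≤ N X θ) : |pp X θ| ≤ 1 / (2 * c) := by
  unfold pp
  have hch := cosh_pos X
  have hN' : 0 < N X θ := lt_of_lt_of_le (by positivity) hN
  rw [abs_div, abs_of_pos (a := 2 * N X θ) (by positivity)]
  calc |sinh X| / (2 * N X θ) ≤ cosh X / (2 * (c * cosh X)) := by
        gcongr
        exact abs_sinh_le_cosh X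
    _ = 1 / (2 * c) := by field_simp

theorem abs_qq_le {X θ c : ℝ} (hc : 0 < c) (hN : c * cosh X ≤ N X θ) :
    |qq X θ| ≤ 1 / (2 * c) * (cosh X)⁻¹ := by
  unfold qq
  have hch := cosh_pos X
  have hN' : 0 < N X θ := lt_of_lt_of_le (by positivity) hN
  rw [abs_div, abs_of_pos (a := 2 * N X θ) (by positivity)]
  calc |sin θ| / (2 * N X θ) ≤ 1 / (2 * (c * cosh X)) := by
        gcongr
        exact abs_sin_le_one θ
    _ = _ := by field_simp

/-- The difference of two `pp`'s decays. -/
theorem abs_pp_sub_le {X θ θ' c : ℝ} (hc : 0 < c) (hN : c * cosh X ≤ N X θ)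
    (hN' : c * cosh X ≤ N X θ') : |pp X θ - pp X θ'| ≤ 1 / c ^ 2 * (cosh X)⁻¹ := by
  have hch := cosh_pos X
  have h1 : 0 < N X θ := lt_of_lt_of_le (by positivity) hN
  have h2 : 0 < N X θ' := lt_of_lt_of_le (by positivity) hN'
  have e : pp X θ - pp X θ' = sinh X * (cos θ - cos θ') / (2 * (N X θ * N X θ')) := by
    unfold pp
    have : cos θ - cos θ' = N X θ' - N X θ := by unfold N; ring
    rw [this]
    field_simp
  rw [e, abs_div, abs_mul, abs_of_pos (a := 2 * (N X θ * N X θ')) (by positivity)]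
  have h3 : |cos θ - cos θ'| ≤ 2 := by
    rw [abs_le]
    constructor <;> linarith [cos_le_one θ, cos_le_one θ', neg_one_le_cos θ, neg_one_le_cos θ']
  calc |sinh X| * |cos θ - cos θ'| / (2 * (N X θ * N X θ'))
      ≤ cosh X * 2 / (2 * ((c * cosh X) * (c * cosh X))) := by
        gcongr
        exact abs_sinh_le_cosh X
    _ = _ := by field_simp

namespace IsBump

variable {η : ℝ → ℝ}

theorem cos_sum_nonneg (h : IsBump η) (x y : ℝ) : 0 ≤ cos (gam η x + gam η y) := by
  apply cos_nonneg_of_neg_pi_div_two_le_of_le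
  · have := h.gam_ge' x; have := h.gam_ge' y; have := pi_pos; linarith
  · have := h.gam_le x; have := h.gam_le y; linarith

theorem cos_sum_le (h : IsBump η) (x y : ℝ) : cos (gam η x + gam η y) ≤ 1 / 2 := by
  rw [← cos_pi_div_three]
  apply cos_le_cos_of_nonneg_of_le_pi
  · positivity
  · have := h.gam_le' x; have := h.gam_le' y; have := pi_gt_d2; linarith
  · have := h.gam_ge' x; have := h.gam_ge' y; have := pi_lt_d2; linarith

theorem N_sum_ge (h : IsBump η) (X x y : ℝ) : 1 / 2 * cosh X ≤ N X (gam η x + gam η y) := by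
  unfold N
  have := h.cos_sum_le x y
  have := one_le_cosh X
  linarith

theorem abs_diff_le (h : IsBump η) (x y : ℝ) : |gam η x - gam η y| ≤ 1 / 50 := by
  have := h.gam_ge x; have := h.gam_le x; have := h.gam_ge y; have := h.gam_le y
  rw [abs_le]; constructor <;> linarith

theorem exists_lk_bound (h : IsBump η) : ∃ C : ℝ, 0 < C ∧
    ∀ x y, |lk η x y| ≤ C * (cosh (x - y))⁻¹ := by
  obtain ⟨M, hM, hg', hlip, hq⟩ := h.exists_bound
  set C := 2 * (2 + M * 5 + (M ^ 2 + 2 * M)) + 6 * (1 + M * 9) with hC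
  have hCpos : 0 < C := by positivity
  refine ⟨C, hCpos, fun x y => ?_⟩
  set X := x - y with hX
  set σ := gam η x + gam η y with hσ
  set δ := gam η x - gam η y with hδ
  have hch := cosh_pos X
  have hpi : 1 / (2 * π) ≤ 1 := by
    rw [div_le_one (by positivity)]
    have := pi_gt_d2
    linarith
  have hpi0 : 0 ≤ 1 / (2 * π) := by positivity
  have hNσ : 1 / 2 * cosh X ≤ N X σ := h.N_sum_ge X x y
  have hqσ : |qq X σ| ≤ 1 / (2 * (1 / 2)) * (cosh X)⁻¹ := abs_qq_le (by norm_num) hNσ
  have hpσ : |pp X σ| ≤ 1 / (2 * (1 / 2)) := abs_pp_le (by norm_num) hNσ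
  norm_num at hqσ hpσ
  have hgx := hg' x
  have hinv : 0 < (cosh X)⁻¹ := by positivity
  unfold lk Pf Qf
  rw [abs_mul, abs_of_nonneg hpi0]
  rcases lt_or_ge |X| 1 with hX1 | hX1
  · -- near the diagonal
    have hch2 : cosh X ≤ 2 := by
      have := cosh_sub_one_le hX1.le
      have : X ^ 2 ≤ 1 := by rw [← sq_abs]; nlinarith [abs_nonneg X]
      linarith
    have hinv2 : 1 / 2 ≤ (cosh X)⁻¹ := by
      rw [one_div]; gcongr
    have hmain : |qq X δ - gam' η x * pp X δ| ≤ M ^ 2 + 2 * M := by
      by_cases hX0 : X = 0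
      · have hxy : x = y := by linarith
        have : δ = 0 := by rw [hδ, hxy]; ring
        rw [hX0, this]
        unfold qq pp N
        simp
        positivity
      · have hNpos := N_pos_of_ne hX0 δ
        have e : qq X δ - gam' η x * pp X δ = (sin δ - gam' η x * sinh X) / (2 * N X δ) := by
          unfold qq pp; ring
        rw [e, abs_div, abs_of_pos (a := 2 * N X δ) (by positivity), div_le_iff₀ (by positivity)]
        have h1 : |sin δ - δ| ≤ δ ^ 2 := abs_sin_sub_le ((h.abs_diff_le x y).trans (by norm_num))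
        have h2 : |sinh X - X| ≤ X ^ 2 := abs_sinh_sub_le hX1.le
        have h3 := hq x y
        have h4 : δ ^ 2 ≤ M ^ 2 * X ^ 2 := by
          rw [← sq_abs δ, ← sq_abs X, ← mul_pow]
          have := hlip x y
          gcongr
        have h5 : |sin δ - gam' η x * sinh X| ≤ (M ^ 2 + 2 * M) * X ^ 2 := by
          have e2 : sin δ - gam' η x * sinh X
              = (sin δ - δ) + (gam η x - gam η y - gam' η x * (x - y))
                - gam' η x * (sinh X - X) := by rw [hδ, hX]; ring
          rw [e2]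
          calc |(sin δ - δ) + (gam η x - gam η y - gam' η x * (x - y)) - gam' η x * (sinh X - X)|
              ≤ |sin δ - δ| + |gam η x - gam η y - gam' η x * (x - y)|
                + |gam' η x * (sinh X - X)| := by
                refine (abs_sub _ _).trans ?_
                gcongr
                exact abs_add_le _ _
            _ ≤ M ^ 2 * X ^ 2 + M * X ^ 2 + M * X ^ 2 := by
                rw [abs_mul]
                gcongr
                exact h1.trans h4
            _ = _ := by ring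
        have h6 : X ^ 2 ≤ 2 * N X δ := by
          have := cosh_sub_one_ge X
          have := N_ge X δ
          linarith
        have : 0 ≤ M ^ 2 + 2 * M := by positivity
        nlinarith
    have e : qq X σ - qq X δ - gam' η x * (pp X σ - pp X δ)
        = (qq X σ - gam' η x * pp X σ) - (qq X δ - gam' η x * pp X δ) := by ring
    rw [e]
    have h7 : |(qq X σ - gam' η x * pp X σ) - (qq X δ - gam' η x * pp X δ)|
        ≤ 2 + M * 5 + (M ^ 2 + 2 * M) := by
      refine (abs_sub _ _).trans ?_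
      refine add_le_add ?_ hmain
      refine (abs_sub _ _).trans ?_
      rw [abs_mul]
      have h8 : (cosh X)⁻¹ ≤ 1 := inv_le_one_of_one_le₀ (one_le_cosh X)
      have h9 : |gam' η x| * |pp X σ| ≤ M * 1 := by gcongr
      nlinarith
    calc 1 / (2 * π) * |(qq X σ - gam' η x * pp X σ) - (qq X δ - gam' η x * pp X δ)|
        ≤ 1 * (2 + M * 5 + (M ^ 2 + 2 * M)) := by gcongr
      _ = (2 * (2 + M * 5 + (M ^ 2 + 2 * M))) * (1 / 2) := by ring
      _ ≤ C * (cosh X)⁻¹ := by
        gcongr
        rw [hC]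
        have : 0 ≤ 6 * (1 + M * 9) := by positivity
        linarith
  · have hNδ : 1 / 3 * cosh X ≤ N X δ := by
      have := N_ge X δ
      have := cosh_sub_one_ge' hX1
      linarith
    have hNσ' : 1 / 3 * cosh X ≤ N X σ := by
      have := cosh_pos X
      linarith
    have h1 : |qq X δ| ≤ 1 / (2 * (1 / 3)) * (cosh X)⁻¹ := abs_qq_le (by norm_num) hNδ
    have h2 : |pp X σ - pp X δ| ≤ 1 / (1 / 3) ^ 2 * (cosh X)⁻¹ :=
      abs_pp_sub_le (by norm_num) hNσ' hNδ
    norm_num at h1 h2
    have h3 : |qq X σ - qq X δ - gam' η x * (pp X σ - pp X δ)|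
        ≤ (6 * (1 + M * 9)) * (cosh X)⁻¹ := by
      refine (abs_sub _ _).trans ?_
      have h4 : |qq X σ - qq X δ| ≤ (cosh X)⁻¹ + 3 / 2 * (cosh X)⁻¹ :=
        (abs_sub _ _).trans (add_le_add hqσ h1)
      have h5 : |gam' η x * (pp X σ - pp X δ)| ≤ M * (9 * (cosh X)⁻¹) := by
        rw [abs_mul]; gcongr
      nlinarith
    calc 1 / (2 * π) * |qq X σ - qq X δ - gam' η x * (pp X σ - pp X δ)|
        ≤ 1 * ((6 * (1 + M * 9)) * (cosh X)⁻¹) := by gcongr
      _ ≤ C * (cosh X)⁻¹ := by
        rw [one_mul]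
        gcongr
        rw [hC]
        have : 0 ≤ 2 * (2 + M * 5 + (M ^ 2 + 2 * M)) := by positivity
        linarith

end IsBump

end Pool.Agent.Helper59.NP
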