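import Pool.Agent.Helper59.NP.Curve

set_option autoImplicit false
open Real Set

namespace Pool.Agent.Helper59.NP

theorem hasDerivAt_maxpow (n : ℕ) (t : ℝ) :
    HasDerivAt (fun t : ℝ => (max t 0) ^ (n + 2)) ((n + 2) * (max t 0) ^ (n + 1)) t := by
  have hp : HasDerivAt (fun t : ℝ => t ^ (n + 2)) ((n + 2) * t ^ (n + 1)) t := by
    have := hasDerivAt_pow (n + 2) t
    push_cast at this
    exact this
  have h0 : HasDerivAt (fun _ : ℝ => (0 : ℝ)) 0 t := hasDerivAt_const t 0
  rcases lt_trichotomy t 0 with ht | ht | ht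
  · rw [max_eq_right ht.le, zero_pow (by omega), mul_zero]
    refine h0.congr_of_eventuallyEq ?_
    filter_upwards [Iio_mem_nhds ht] with s hs
    rw [max_eq_right (le_of_lt hs), zero_pow (by omega)]
  · subst ht
    have e : ((n : ℝ) + 2) * (max (0 : ℝ) 0) ^ (n + 1) = 0 := by simp
    rw [e]
    have h1 : HasDerivWithinAt (fun t : ℝ => (max t 0) ^ (n + 2)) 0 (Ici 0) 0 := by
      have h2 : HasDerivWithinAt (fun t : ℝ => t ^ (n + 2)) 0 (Ici 0) 0 := by
        have := hp.hasDerivWithinAt (s := Ici 0)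
        rw [zero_pow (by omega), mul_zero] at this
        exact this
      refine h2.congr (fun s hs => ?_) (by simp)
      rw [max_eq_left hs]
    have h3 : HasDerivWithinAt (fun t : ℝ => (max t 0) ^ (n + 2)) 0 (Iic 0) 0 := by
      refine (h0.hasDerivWithinAt (s := Iic 0)).congr (fun s hs => ?_) (by simp)
      rw [max_eq_right hs, zero_pow (by omega)]
    have h4 := h1.union h3
    rw [Ici_union_Iic] at h4
    exact hasDerivWithinAt_univ.mp h4
  · rw [max_eq_left ht.le]
    refine hp.congr_of_eventuallyEq ?_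
    filter_upwards [Ioi_mem_nhds ht] with s hs
    rw [max_eq_left (le_of_lt hs)]

theorem contDiff_maxpow (n : ℕ) : ContDiff ℝ n (fun t : ℝ => (max t 0) ^ (n + 1)) := by
  induction n with
  | zero =>
    simp only [Nat.cast_zero, zero_add, pow_one, contDiff_zero]
    fun_prop
  | succ n ih =>
    have hd : deriv (fun t : ℝ => (max t 0) ^ (n + 2)) = fun t : ℝ => ((n : ℝ) + 2) * (max t 0) ^ (n + 1) := by
      funext t
      exact (hasDerivAt_maxpow n t).deriv
    have : ContDiff ℝ ((n : WithTop ℕ∞) + 1) (fun t : ℝ => (max t 0) ^ (n + 2)) := by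
      rw [contDiff_succ_iff_deriv]
      refine ⟨fun t => (hasDerivAt_maxpow n t).differentiableAt, ?_, ?_⟩
      · intro h
        exact absurd h (by simp)
      · rw [hd]
        exact contDiff_const.mul ih
    push_cast
    exact this

/-- the bump -/
noncomputable def eta (x : ℝ) : ℝ := (max (-(x * (1 + x))) 0) ^ 4

theorem contDiff_eta : ContDiff ℝ 3 eta := by
  have h := contDiff_maxpow 3
  have h2 : ContDiff ℝ 3 (fun x : ℝ => -(x * (1 + x))) := by fun_prop
  exact h.comp h2

theorem isBump_eta : IsBump eta where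
  smooth := contDiff_eta.of_le (by norm_num)
  supp := by
    intro x hx
    unfold eta
    have : -(x * (1 + x)) ≤ 0 := by
      simp only [mem_Icc, not_and_or, not_le] at hx
      rcases hx with hx | hx <;> nlinarith
    rw [max_eq_right this]
    norm_num
  nonneg := by
    intro x
    unfold eta
    positivity
  small := by
    intro x
    unfold eta
    have h1 : max (-(x * (1 + x))) 0 ≤ 1 / 4 := by
      apply max_le
      · nlinarith [sq_nonneg (x + 1 / 2)]
      · norm_num
    have h0 : 0 ≤ max (-(x * (1 + x))) 0 := le_max_right _ _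
    calc (max (-(x * (1 + x))) 0) ^ 4 ≤ (1 / 4) ^ 4 := by gcongr
      _ ≤ 1 / 100 := by norm_num

theorem eta_lower : ∃ c > (0 : ℝ), ∀ x ∈ Icc (-(1 / 2) : ℝ) 0, c * x ^ 4 ≤ eta x := by
  refine ⟨1 / 16, by norm_num, fun x hx => ?_⟩
  unfold eta
  have h1 : -x / 2 ≤ max (-(x * (1 + x))) 0 := by
    refine le_trans ?_ (le_max_left _ _)
    nlinarith [hx.1, hx.2]
  have h0 : 0 ≤ -x / 2 := by linarith [hx.2]
  calc 1 / 16 * x ^ 4 = (-x / 2) ^ 4 := by ring
    _ ≤ _ := by gcongr

end Pool.Agent.Helper59.NP
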