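import Mathlib

set_option autoImplicit false
open Set MeasureTheory Filter Topology
open scoped ENNReal

namespace Pool.Agent.Helper59.NP

/-- A *curvilinear polygon*: a Jordan curve in the plane `ℂ = ℝ²`, bounding a domain `Ω`, that is a
finite cyclic union of regular `C³` arcs `arc 0, …, arc n`, each parametrised by `[0, 1]` (with
one-sided derivatives at the end points).  The curve is run through with `Ω` on its left. -/
structure CurvPolygon where
  /-- there are `n + 1` arcs -/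
  n : ℕ
  /-- the arcs; only their values on `[0, 1]` matter -/
  arc : Fin (n + 1) → ℝ → ℂ
  /-- the domain bounded by the curve -/
  Ω : Set ℂ
  /-- every arc is `C³` up to its end points -/
  contDiff : ∀ i, ContDiffOn ℝ 3 (arc i) (Icc 0 1)
  /-- every arc is regular -/
  vel_ne : ∀ i, ∀ t ∈ Icc (0 : ℝ) 1, derivWithin (arc i) (Icc 0 1) t ≠ 0
  /-- each arc ends where the (cyclically) next one starts -/
  closed : ∀ i, arc i 1 = arc (i + 1) 0
  /-- the closed curve is simple -/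
  simple : ∀ i j, ∀ s ∈ Ico (0 : ℝ) 1, ∀ t ∈ Ico (0 : ℝ) 1, arc i s = arc j t → i = j ∧ s = t
  isOpen : IsOpen Ω
  isConnected : IsConnected Ω
  isBounded : Bornology.IsBounded Ω
  /-- the curve is the boundary of `Ω` -/
  frontier_eq : frontier Ω = ⋃ i, arc i '' Icc 0 1
  /-- `Ω` lies to the left of the curve -/
  left : ∀ i, ∀ t ∈ Ioo (0 : ℝ) 1, ∀ᶠ ε : ℝ in 𝓝[>] 0,
    arc i t + ε * (Complex.I * derivWithin (arc i) (Icc 0 1) t) ∈ Ω

namespace CurvPolygon

variable (P : CurvPolygon)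

/-- the (one-sided, at the end points) velocity vector of the `i`-th arc -/
noncomputable def vel (i : Fin (P.n + 1)) (t : ℝ) : ℂ := derivWithin (P.arc i) (Icc 0 1) t

/-- the interior angle of `Ω` at the point where `arc i` ends and `arc (i + 1)` starts: the curve
turns there by the angle `arg (T_out / T_in)` -/
noncomputable def angle (i : Fin (P.n + 1)) : ℝ :=
  Real.pi - Complex.arg (P.vel (i + 1) 0 / P.vel i 1)

/-- the outward unit normal at the point `arc i t` -/
noncomputable def normal (i : Fin (P.n + 1)) (t : ℝ) : ℂ :=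
  -(Complex.I * (P.vel i t / (‖P.vel i t‖ : ℂ)))

/-- the arc length measure of the curve, as a measure on the plane -/
noncomputable def ds : Measure ℂ :=
  Measure.sum fun i => ((volume.restrict (Icc (0 : ℝ) 1)).withDensity
    fun t => ‖P.vel i t‖ₑ).map (P.arc i)

/-- The space `H^{1/2}(Γ)`: square integrable functions with finite Gagliardo seminorm
`∬ |f(x) - f(y)|² / |x - y|² ds ds`. -/
def MemHHalf (f : ℂ → ℂ) : Prop :=
  MemLp f 2 P.ds ∧ ∫⁻ x, ∫⁻ y, ‖f x - f y‖ₑ ^ 2 / ‖x - y‖ₑ ^ 2 ∂P.ds ∂P.ds < ∞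

/-- The truncated Neumann–Poincaré integral
`(1/2π) ∫_{|y - x| > ε} ⟨y - x, n(y)⟩ / |x - y|² f(y) ds(y)`, where `y = arc i t` and
`ds = ‖vel i t‖ dt`. -/
noncomputable def npTrunc (ε : ℝ) (f : ℂ → ℂ) (x : ℂ) : ℂ :=
  (1 / (2 * Real.pi) : ℝ) * ∑ i, ∫ t in {t | t ∈ Icc (0 : ℝ) 1 ∧ ε < ‖P.arc i t - x‖},
    ((inner ℝ (P.arc i t - x) (P.normal i t) / ‖P.arc i t - x‖ ^ 2 : ℝ) : ℂ)
      * f (P.arc i t) * (‖P.vel i t‖ : ℂ)

/-- `μ` is an eigenvalue of the Neumann–Poincaré operator on `H^{1/2}(Γ)`: there is an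
`f ∈ H^{1/2}(Γ)`, not zero almost everywhere, with `K f = μ f` almost everywhere on `Γ`, where
`K f (x)` is the principal value, the limit of the truncated integrals. -/
def IsEigenvalue (μ : ℂ) : Prop :=
  ∃ f : ℂ → ℂ, P.MemHHalf f ∧ ¬ (f =ᵐ[P.ds] 0) ∧
    ∀ᵐ x ∂P.ds, Tendsto (fun ε => P.npTrunc ε f x) (𝓝[>] 0) (𝓝 (μ * f x))

end CurvPolygon

end Pool.Agent.Helper59.NP
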