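import Pool.Agent.Helper59.NP.KerInst
import Pool.Agent.Helper59.NP.Abstract

set_option autoImplicit false
open Real MeasureTheory Set
open scoped ENNReal RealInnerProductSpace

namespace Pool.Agent.Helper59.NP

theorem KB.inner_prod {k : ℝ → ℝ → ℝ} {H : ℝ → ℝ} (h : KB k H) (φ ψ : V) :
    ⟪h.op φ, ψ⟫ = ∫ p : ℝ × ℝ, k p.1 p.2 * φ p.2 * ψ p.1 ∂(volume.prod volume) := by
  rw [h.inner_op', integral_prod _ (h.integrable_prod φ ψ)]

/-- absolute convergence of quadratic forms -/
theorem lintegral_quad_le {H : ℝ → ℝ} (hH : Measurable H) (v : V) :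
    ∫⁻ p : ℝ × ℝ, ‖H (p.1 - p.2)‖ₑ * ‖v p.2‖ₑ * ‖v p.1‖ₑ ∂(volume.prod volume)
      ≤ (∫⁻ t, ‖H t‖ₑ) * ∫⁻ y, ‖v y‖ₑ ^ 2 := by
  have mv := measurable_coe v
  have h1 : ∫⁻ p : ℝ × ℝ, ‖H (p.1 - p.2)‖ₑ * ‖v p.2‖ₑ * ‖v p.1‖ₑ ∂(volume.prod volume)
      ≤ ∫⁻ p : ℝ × ℝ, (2⁻¹ * (‖H (p.1 - p.2)‖ₑ * ‖v p.2‖ₑ ^ 2)
        + 2⁻¹ * (‖H (p.1 - p.2)‖ₑ * ‖v p.1‖ₑ ^ 2)) ∂(volume.prod volume) := by
    refine lintegral_mono fun p => ?_
    have h2 : ‖v p.2‖ₑ * ‖v p.1‖ₑ ≤ 2⁻¹ * ‖v p.2‖ₑ ^ 2 + 2⁻¹ * ‖v p.1‖ₑ ^ 2 := by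
      rw [Real.enorm_eq_ofReal_abs, Real.enorm_eq_ofReal_abs, ← ENNReal.ofReal_pow (abs_nonneg _),
        ← ENNReal.ofReal_pow (abs_nonneg _), ← ENNReal.ofReal_mul (abs_nonneg _)]
      rw [show (2⁻¹ : ℝ≥0∞) = ENNReal.ofReal (1 / 2) by
        rw [one_div, ENNReal.ofReal_inv_of_pos (by norm_num)]; norm_num]
      rw [← ENNReal.ofReal_mul (by norm_num), ← ENNReal.ofReal_mul (by norm_num),
        ← ENNReal.ofReal_add (by positivity) (by positivity)]
      apply ENNReal.ofReal_le_ofReal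
      nlinarith [sq_nonneg (|v p.2| - |v p.1|)]
    calc ‖H (p.1 - p.2)‖ₑ * ‖v p.2‖ₑ * ‖v p.1‖ₑ
        = ‖H (p.1 - p.2)‖ₑ * (‖v p.2‖ₑ * ‖v p.1‖ₑ) := by ring
      _ ≤ ‖H (p.1 - p.2)‖ₑ * (2⁻¹ * ‖v p.2‖ₑ ^ 2 + 2⁻¹ * ‖v p.1‖ₑ ^ 2) := by gcongr
      _ = _ := by ring
  refine h1.trans ?_
  rw [lintegral_add_left (by fun_prop), lintegral_const_mul _ (by fun_prop),
    lintegral_const_mul _ (by fun_prop)]
  have e1 : ∫⁻ p : ℝ × ℝ, ‖H (p.1 - p.2)‖ₑ * ‖v p.2‖ₑ ^ 2 ∂(volume.prod volume)
      = (∫⁻ t, ‖H t‖ₑ) * ∫⁻ y, ‖v y‖ₑ ^ 2 := by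
    rw [lintegral_prod_symm _ (by fun_prop)]
    simp only
    rw [← lintegral_const_mul _ (by fun_prop)]
    congr 1
    funext y
    rw [lintegral_mul_const _ (by fun_prop : Measurable fun x => ‖H (x - y)‖ₑ)]
    congr 1
    exact lintegral_sub_right_eq_self (fun t => ‖H t‖ₑ) y
  have e2 : ∫⁻ p : ℝ × ℝ, ‖H (p.1 - p.2)‖ₑ * ‖v p.1‖ₑ ^ 2 ∂(volume.prod volume)
      = (∫⁻ t, ‖H t‖ₑ) * ∫⁻ y, ‖v y‖ₑ ^ 2 := by
    rw [lintegral_prod _ (by fun_prop)]
    simp only
    rw [← lintegral_const_mul _ (by fun_prop)]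
    congr 1
    funext x
    rw [lintegral_mul_const _ (by fun_prop : Measurable fun y => ‖H (x - y)‖ₑ)]
    congr 1
    exact lintegral_sub_left_eq_self (fun t => ‖H t‖ₑ) x
  rw [e1, e2, ← add_mul, ENNReal.inv_two_add_inv_two, one_mul]

/-- a kernel of the form `∫ r(z,x) r(z,y) dz` gives a sum of squares. -/
theorem psd {r : ℝ → ℝ → ℝ} {H : ℝ → ℝ} (hr : Measurable (Function.uncurry r)) (hHm : Measurable H)
    (hHi : Integrable H) (hb : ∀ x y, ∫⁻ z, ‖r z x‖ₑ * ‖r z y‖ₑ ≤ ‖H (x - y)‖ₑ) (v : V) :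
    Integrable (fun z => (∫ x, r z x * v x) ^ 2) ∧
    ∫ p : ℝ × ℝ, (∫ z, r z p.1 * r z p.2) * v p.2 * v p.1 ∂(volume.prod volume)
      = ∫ z, (∫ x, r z x * v x) ^ 2 := by
  have mv := measurable_coe v
  have hr' : Measurable (fun q : ℝ × ℝ => r q.1 q.2) := hr
  have e1 : ∫ p : ℝ × ℝ, (∫ z, r z p.1 * r z p.2) * v p.2 * v p.1 ∂(volume.prod volume)
      = ∫ p : ℝ × ℝ, (∫ z, (r z p.1 * v p.1) * (r z p.2 * v p.2)) ∂(volume.prod volume) := by
    congr 1
    funext p
    rw [mul_assoc, ← integral_mul_const]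
    congr 1
    funext z
    ring
  have e2 : ∀ z, ∫ p : ℝ × ℝ, (r z p.1 * v p.1) * (r z p.2 * v p.2) ∂(volume.prod volume)
      = (∫ x, r z x * v x) ^ 2 := by
    intro z
    have := integral_prod_mul (μ := (volume : Measure ℝ)) (ν := (volume : Measure ℝ))
      (fun x => r z x * v x) (fun x => r z x * v x)
    rw [this, sq]
  have hint : Integrable (fun q : (ℝ × ℝ) × ℝ => (r q.2 q.1.1 * v q.1.1) * (r q.2 q.1.2 * v q.1.2))
      ((volume.prod volume).prod volume) := by
    have hm : Measurable (fun q : (ℝ × ℝ) × ℝ => (r q.2 q.1.1 * v q.1.1) * (r q.2 q.1.2 * v q.1.2)) := by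
      refine Measurable.mul (Measurable.mul ?_ (mv.comp (by fun_prop)))
        (Measurable.mul ?_ (mv.comp (by fun_prop)))
      · exact hr'.comp (by fun_prop : Measurable fun q : (ℝ × ℝ) × ℝ => (q.2, q.1.1))
      · exact hr'.comp (by fun_prop : Measurable fun q : (ℝ × ℝ) × ℝ => (q.2, q.1.2))
    refine ⟨hm.aestronglyMeasurable, ?_⟩
    show ∫⁻ q : (ℝ × ℝ) × ℝ, ‖(r q.2 q.1.1 * v q.1.1) * (r q.2 q.1.2 * v q.1.2)‖ₑ
      ∂((volume.prod volume).prod volume) < ∞
    rw [lintegral_prod _ hm.enorm.aemeasurable]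
    refine lt_of_le_of_lt ?_ (ENNReal.mul_lt_top hHi.2 (lintegral_sq_lt_top v))
    refine le_trans (lintegral_mono fun p => ?_) (lintegral_quad_le hHm v)
    calc ∫⁻ z, ‖(r z p.1 * v p.1) * (r z p.2 * v p.2)‖ₑ
        = ∫⁻ z, (‖r z p.1‖ₑ * ‖r z p.2‖ₑ) * (‖v p.2‖ₑ * ‖v p.1‖ₑ) := by
          congr 1
          funext z
          rw [enorm_mul, enorm_mul, enorm_mul]
          ring
      _ = (∫⁻ z, ‖r z p.1‖ₑ * ‖r z p.2‖ₑ) * (‖v p.2‖ₑ * ‖v p.1‖ₑ) := by
          rw [lintegral_mul_const]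
          have m1 : Measurable fun z : ℝ => ‖r z p.1‖ₑ :=
            (hr'.comp (by fun_prop : Measurable fun z : ℝ => (z, p.1))).enorm
          have m2 : Measurable fun z : ℝ => ‖r z p.2‖ₑ :=
            (hr'.comp (by fun_prop : Measurable fun z : ℝ => (z, p.2))).enorm
          exact m1.mul m2
      _ ≤ ‖H (p.1 - p.2)‖ₑ * (‖v p.2‖ₑ * ‖v p.1‖ₑ) := by
          gcongr
          exact hb _ _
      _ = _ := by ring
  refine ⟨?_, ?_⟩
  · have := hint.integral_prod_right
    simp only [e2] at this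
    exact this
  · rw [e1, integral_integral_swap hint]
    simp only [e2]

/-! ### positivity of the unperturbed operator -/

noncomputable def rw' (z x : ℝ) : ℝ := (Ioi (0 : ℝ)).indicator (fun z => exp x * exp (-(z * exp (2 * x)))) z

theorem rw'_meas : Measurable (Function.uncurry rw') := by
  unfold Function.uncurry rw'
  have : (fun p : ℝ × ℝ => (Ioi (0 : ℝ)).indicator (fun z => exp p.2 * exp (-(z * exp (2 * p.2)))) p.1)
      = (Prod.fst ⁻¹' (Ioi (0 : ℝ))).indicator
        (fun p : ℝ × ℝ => exp p.2 * exp (-(p.1 * exp (2 * p.2)))) := by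
    funext p
    simp only [indicator, mem_preimage]
  rw [this]
  apply Measurable.indicator
  · fun_prop
  · exact measurableSet_Ioi.preimage measurable_fst

theorem rw'_mul (z x y : ℝ) : rw' z x * rw' z y
    = (Ioi (0 : ℝ)).indicator (fun z => exp (x + y) * exp (-(exp (2 * x) + exp (2 * y)) * z)) z := by
  unfold rw'
  by_cases hz : z ∈ Ioi (0 : ℝ)
  · rw [indicator_of_mem hz, indicator_of_mem hz, indicator_of_mem hz]
    rw [← exp_add, ← exp_add, ← exp_add, ← exp_add]
    congr 1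
    ring
  · rw [indicator_of_notMem hz, indicator_of_notMem hz, indicator_of_notMem hz, mul_zero]

theorem rw'_nonneg (z x : ℝ) : 0 ≤ rw' z x := by
  unfold rw'
  exact indicator_nonneg (fun z _ => by positivity) z

theorem exp_aux (x y : ℝ) : exp (x + y) / (exp (2 * x) + exp (2 * y)) = 1 / (2 * cosh (x - y)) := by
  rw [div_eq_div_iff (by positivity) (by have := cosh_pos (x - y); positivity)]
  rw [cosh_eq]
  have e1 : exp (x + y) * exp (x - y) = exp (2 * x) := by rw [← exp_add]; congr 1; ring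
  have e2 : exp (x + y) * exp (-(x - y)) = exp (2 * y) := by rw [← exp_add]; congr 1; ring
  linear_combination e1 + e2

theorem rw'_int (x y : ℝ) : Integrable (fun z => rw' z x * rw' z y) ∧
    ∫ z, rw' z x * rw' z y = 1 / (2 * cosh (x - y)) := by
  have hneg : -(exp (2 * x) + exp (2 * y)) < 0 := by
    have := exp_pos (2 * x); have := exp_pos (2 * y); linarith
  constructor
  · simp only [rw'_mul]
    rw [integrable_indicator_iff measurableSet_Ioi]
    exact (integrableOn_exp_mul_Ioi hneg 0).const_mul _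
  · simp only [rw'_mul]
    rw [integral_indicator measurableSet_Ioi, integral_const_mul, integral_exp_mul_Ioi hneg 0]
    rw [← exp_aux, mul_zero, exp_zero, neg_div_neg_eq, mul_one_div]

theorem lw_eq_int (x y : ℝ) : lw x y = (1 / (2 * π)) * ∫ z, rw' z x * rw' z y := by
  rw [(rw'_int x y).2]
  unfold lw
  have := cosh_pos (x - y)
  have := pi_pos
  field_simp
  norm_num

theorem lw_nonneg (v : V) : 0 ≤ ⟪kb_lw.op v, v⟫ := by
  have hb : ∀ x y, ∫⁻ z, ‖rw' z x‖ₑ * ‖rw' z y‖ₑ ≤ ‖HL (1 / 2) (x - y)‖ₑ := by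
    intro x y
    have h := rw'_int x y
    have h2 := ofReal_integral_eq_lintegral_ofReal h.1
      (Filter.Eventually.of_forall fun z => mul_nonneg (rw'_nonneg z x) (rw'_nonneg z y))
    have h3 : ∫⁻ z, ‖rw' z x‖ₑ * ‖rw' z y‖ₑ = ∫⁻ z, ENNReal.ofReal (rw' z x * rw' z y) := by
      congr 1
      funext z
      rw [← enorm_mul, Real.enorm_of_nonneg (mul_nonneg (rw'_nonneg z x) (rw'_nonneg z y))]
    rw [h3, ← h2, h.2, Real.enorm_of_nonneg]
    · unfold HL
      apply le_of_eq
      congr 1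
      have := cosh_pos (x - y)
      field_simp
    · unfold HL
      have := cosh_pos (x - y)
      positivity
  have h := (psd rw'_meas (HL_measurable (1 / 2)) (HL_integrable (1 / 2)) hb v).2
  have e : ⟪kb_lw.op v, v⟫ = (1 / (2 * π)) * ∫ z, (∫ x, rw' z x * v x) ^ 2 := by
    rw [kb_lw.inner_prod, ← h, ← integral_const_mul]
    congr 1
    funext p
    rw [lw_eq_int]
    ring
  rw [e]
  have h1 : 0 ≤ ∫ z, (∫ x, rw' z x * v x) ^ 2 := integral_nonneg fun z => sq_nonneg _
  have := pi_pos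
  positivity

/-! ### positivity of the symmetrizer -/

theorem hasSum_cos {t : ℝ} (ht : 0 < t) (θ : ℝ) :
    HasSum (fun n : ℕ => exp (-(n * t)) * cos (n * θ) / n)
      (-(1 / 2) * Real.log (2 * exp (-t)) - lg t θ) := by
  set z : ℂ := Complex.exp (((-t : ℝ) : ℂ) + (θ : ℂ) * Complex.I) with hz
  have hn : ‖z‖ < 1 := by
    rw [hz, Complex.norm_exp]
    simp [ht]
  have h := Complex.hasSum_re (Complex.hasSum_taylorSeries_neg_log hn)
  have e1 : ∀ n : ℕ, (z ^ n / (n : ℂ)).re = exp (-(n * t)) * cos (n * θ) / n := by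
    intro n
    rw [Complex.div_natCast_re, hz, ← Complex.exp_nat_mul, Complex.exp_re]
    simp
  have e2 : (-Complex.log (1 - z)).re = -(1 / 2) * Real.log (2 * exp (-t)) - lg t θ := by
    rw [Complex.neg_re, Complex.log_re]
    have hN := N_pos_of_ne ht.ne' θ
    have e3 : ‖1 - z‖ ^ 2 = 2 * exp (-t) * N t θ := by
      rw [← Complex.normSq_eq_norm_sq, Complex.normSq_apply, Complex.sub_re, Complex.sub_im, hz,
        Complex.exp_re, Complex.exp_im]
      simp only [Complex.one_re, Complex.one_im, Complex.add_re, Complex.ofReal_re, Complex.mul_re,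
        Complex.I_re, mul_zero, Complex.ofReal_im, Complex.I_im, mul_one, sub_self, add_zero,
        Complex.add_im, Complex.mul_im, zero_add, zero_sub]
      unfold N
      rw [cosh_eq]
      have h1 : exp (-t) * exp t = 1 := by rw [← exp_add]; simp
      have h2 := sin_sq_add_cos_sq θ
      linear_combination (exp (-t)) ^ 2 * h2 - h1
    have e4 : Real.log (‖1 - z‖ ^ 2) = Real.log (2 * exp (-t)) + Real.log (N t θ) := by
      rw [e3, Real.log_mul (by positivity) hN.ne']
    rw [Real.log_pow] at e4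
    unfold lg
    push_cast at e4
    linarith
  rw [e2] at h
  exact h.congr_fun (fun n => (e1 n).symm)

/-- the `n`-th term of the expansion of `Gk` -/
noncomputable def Gn (η : ℝ → ℝ) (n : ℕ) (x y : ℝ) : ℝ :=
  2 / n * exp (-(n * |x - y|)) * (sin (n * gam η x) * sin (n * gam η y))

theorem lg_abs (X θ : ℝ) : lg |X| θ = lg X θ := by unfold lg N; rw [cosh_abs]

theorem hasSum_Gn (η : ℝ → ℝ) {x y : ℝ} (hxy : x ≠ y) :
    HasSum (fun n => Gn η n x y) (Gk η x y) := by
  have ht : 0 < |x - y| := abs_pos.mpr (sub_ne_zero.mpr hxy)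
  have h1 := hasSum_cos ht (gam η x - gam η y)
  have h2 := hasSum_cos ht (gam η x + gam η y)
  have h3 := h1.sub h2
  rw [lg_abs, lg_abs] at h3
  convert! h3 using 1
  · funext n
    unfold Gn
    have e : 2 * (sin (n * gam η x) * sin (n * gam η y))
        = cos (n * (gam η x - gam η y)) - cos (n * (gam η x + gam η y)) := by
      rw [mul_sub, mul_add, cos_sub, cos_add]; ring
    rcases Nat.eq_zero_or_pos n with h0 | h0
    · subst h0; simp
    · have : (n : ℝ) ≠ 0 := by positivity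
      field_simp
      linear_combination e
  · unfold Gk; ring

noncomputable def rn (η : ℝ → ℝ) (n : ℕ) (z x : ℝ) : ℝ :=
  (Iic z).indicator (fun x => 2 * exp (-(n * (z - x))) * sin (n * gam η x)) x

noncomputable def Hn (n : ℕ) (t : ℝ) : ℝ := 2 / n * exp (-(n * |t|))

noncomputable def Hr (n : ℕ) (t : ℝ) : ℝ := (Ici (0 : ℝ)).indicator (fun t => 2 * exp (-n * t)) t

variable {η : ℝ → ℝ}

theorem rn_mul (n : ℕ) (z x y : ℝ) : rn η n z x * rn η n z y
    = (sin (n * gam η x) * sin (n * gam η y)) *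
      ((4 * exp (n * (x + y))) * (Ici (max x y)).indicator (fun z => exp (-(2 * n) * z)) z) := by
  unfold rn
  by_cases hx : x ≤ z
  · by_cases hy : y ≤ z
    · rw [indicator_of_mem (by exact hx), indicator_of_mem (by exact hy),
        indicator_of_mem (by exact max_le hx hy)]
      have : exp (n * (x + y)) * exp (-(2 * n) * z)
          = exp (-(n * (z - x))) * exp (-(n * (z - y))) := by
        rw [← exp_add, ← exp_add]; congr 1; ring
      linear_combination (-4 * (sin (n * gam η x) * sin (n * gam η y))) * this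
    · rw [indicator_of_notMem (a := y) (by exact hy), indicator_of_notMem (a := z)]
      · ring
      · intro hm
        exact hy ((le_max_right x y).trans hm)
  · rw [indicator_of_notMem (a := x) (by exact hx), indicator_of_notMem (a := z)]
    · ring
    · intro hm
      exact hx ((le_max_left x y).trans hm)

theorem ind_int {n : ℕ} (hn : 0 < n) (m : ℝ) :
    Integrable (fun z => (Ici m).indicator (fun z => exp (-(2 * n) * z)) z) ∧
    ∫ z, (Ici m).indicator (fun z => exp (-(2 * n) * z)) z = exp (-(2 * n) * m) / (2 * n) := by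
  have hn' : (0 : ℝ) < n := by exact_mod_cast hn
  have hneg : -(2 * (n : ℝ)) < 0 := by linarith
  constructor
  · rw [integrable_indicator_iff measurableSet_Ici, integrableOn_Ici_iff_integrableOn_Ioi]
    exact integrableOn_exp_mul_Ioi hneg m
  · rw [integral_indicator measurableSet_Ici, integral_Ici_eq_integral_Ioi,
      integral_exp_mul_Ioi hneg m, neg_div_neg_eq]

theorem max_aux {n : ℕ} (hn : 0 < n) (x y : ℝ) :
    (4 * exp (n * (x + y))) * (exp (-(2 * n) * max x y) / (2 * n)) = Hn n (x - y) := by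
  have hn' : (0 : ℝ) < n := by exact_mod_cast hn
  unfold Hn
  have h1 : |x - y| = 2 * max x y - x - y := by
    rcases le_total x y with h | h
    · rw [max_eq_right h, abs_of_nonpos (by linarith)]; ring
    · rw [max_eq_left h, abs_of_nonneg (by linarith)]; ring
  have h2 : exp (-(n * |x - y|)) = exp (n * (x + y)) * exp (-(2 * n) * max x y) := by
    rw [← exp_add, h1]; congr 1; ring
  rw [h2]
  field_simp
  ring

theorem rn_int {n : ℕ} (hn : 0 < n) (x y : ℝ) :
    ∫ z, rn η n z x * rn η n z y = Gn η n x y ∧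
    ∫⁻ z, ‖rn η n z x‖ₑ * ‖rn η n z y‖ₑ ≤ ‖Hn n (x - y)‖ₑ := by
  have hi := ind_int hn (max x y)
  have hn' : (0 : ℝ) < n := by exact_mod_cast hn
  constructor
  · simp only [rn_mul]
    rw [integral_const_mul, integral_const_mul, hi.2, max_aux hn]
    unfold Hn Gn
    ring
  · have h0 : ∀ z, 0 ≤ (4 * exp (n * (x + y))) *
        (Ici (max x y)).indicator (fun z => exp (-(2 * n) * z)) z := by
      intro z
      have : 0 ≤ (Ici (max x y)).indicator (fun z => exp (-(2 * n) * z)) z :=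
        indicator_nonneg (fun z _ => (exp_pos _).le) z
      positivity
    have h1 := ofReal_integral_eq_lintegral_ofReal (hi.1.const_mul (4 * exp (n * (x + y))))
      (Filter.Eventually.of_forall h0)
    rw [integral_const_mul, hi.2, max_aux hn] at h1
    have h2 : 0 ≤ Hn n (x - y) := by unfold Hn; positivity
    rw [Real.enorm_of_nonneg h2, h1]
    refine lintegral_mono fun z => ?_
    rw [← enorm_mul, rn_mul, Real.enorm_eq_ofReal_abs, abs_mul, abs_of_nonneg (h0 z)]
    apply ENNReal.ofReal_le_ofReal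
    have h3 : |sin (n * gam η x) * sin (n * gam η y)| ≤ 1 := by
      rw [abs_mul]
      exact mul_le_one₀ (abs_sin_le_one _) (abs_nonneg _) (abs_sin_le_one _)
    calc |sin (n * gam η x) * sin (n * gam η y)| * ((4 * exp (n * (x + y))) *
        (Ici (max x y)).indicator (fun z => exp (-(2 * n) * z)) z)
        ≤ 1 * ((4 * exp (n * (x + y))) *
        (Ici (max x y)).indicator (fun z => exp (-(2 * n) * z)) z) := by
          gcongr
          exact h0 z
      _ = _ := one_mul _

theorem Hn_integral {n : ℕ} (hn : 0 < n) : Integrable (Hn n) ∧ ∫ t, Hn n t = 4 / n ^ 2 := by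
  have hn' : (0 : ℝ) < n := by exact_mod_cast hn
  have h1 : ∫ t : ℝ, exp (-n * |t|) = 2 / n := by
    rw [integral_comp_abs (f := fun t => exp (-n * t)), integral_exp_mul_Ioi (by linarith) 0,
      neg_div_neg_eq, mul_zero, exp_zero]
    ring
  have h2 : Integrable (fun t : ℝ => exp (-n * |t|)) :=
    Integrable.of_integral_ne_zero (by rw [h1]; positivity)
  have e : Hn n = fun t => 2 / n * exp (-n * |t|) := by
    funext t; unfold Hn; rw [neg_mul]
  rw [e]
  refine ⟨h2.const_mul _, ?_⟩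
  rw [integral_const_mul, h1]
  field_simp
  norm_num

theorem Hn_nonneg (n : ℕ) (t : ℝ) : 0 ≤ Hn n t := by unfold Hn; positivity

theorem Hn_meas (n : ℕ) : Measurable (Hn n) := by
  unfold Hn
  have : Measurable (fun t : ℝ => |t|) := continuous_abs.measurable
  fun_prop

namespace IsBump

theorem rn_meas (h : IsBump η) (n : ℕ) : Measurable (Function.uncurry (rn η n)) := by
  have mg := h.continuous_gam.measurable
  have ms := continuous_sin.measurable
  have : Function.uncurry (rn η n) = {p : ℝ × ℝ | p.2 ≤ p.1}.indicator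
      (fun p => 2 * exp (-(n * (p.1 - p.2))) * sin (n * gam η p.2)) := by
    funext p
    simp only [Function.uncurry, rn, indicator, mem_Iic, mem_ofPred_eq]
  rw [this]
  refine Measurable.indicator ?_ (measurableSet_le measurable_snd measurable_fst)
  fun_prop

theorem Gn_kb (h : IsBump η) {n : ℕ} (hn : 0 < n) : KB (Gn η n) (Hn n) := by
  refine ⟨?_, Hn_meas n, (Hn_integral hn).1, ?_⟩
  · have mg := h.continuous_gam.measurable
    have ms := continuous_sin.measurable
    have : Measurable (fun t : ℝ => |t|) := continuous_abs.measurable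
    unfold Gn Function.uncurry
    fun_prop
  · intro x y
    unfold Gn
    rw [abs_mul]
    have h3 : |sin (n * gam η x) * sin (n * gam η y)| ≤ 1 := by
      rw [abs_mul]
      exact mul_le_one₀ (abs_sin_le_one _) (abs_nonneg _) (abs_sin_le_one _)
    have h4 : 0 ≤ 2 / n * exp (-(n * |x - y|)) := by positivity
    rw [abs_of_nonneg h4]
    exact mul_le_of_le_one_right h4 h3

theorem rn_kb (h : IsBump η) {n : ℕ} (hn : 0 < n) : KB (rn η n) (Hr n) := by
  have hn' : (0 : ℝ) < n := by exact_mod_cast hn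
  refine ⟨h.rn_meas n, ?_, ?_, ?_⟩
  · unfold Hr
    exact Measurable.indicator (by fun_prop) measurableSet_Ici
  · unfold Hr
    rw [integrable_indicator_iff measurableSet_Ici, integrableOn_Ici_iff_integrableOn_Ioi]
    exact (integrableOn_exp_mul_Ioi (by linarith) 0).const_mul 2
  · intro z x
    unfold rn Hr
    by_cases hx : x ≤ z
    · rw [indicator_of_mem (by exact hx), indicator_of_mem (by rw [mem_Ici]; linarith), abs_mul,
        abs_of_nonneg (by positivity)]
      have := abs_sin_le_one (n * gam η x)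
      have e : -(n * (z - x)) = -n * (z - x) := by ring
      rw [e]
      exact mul_le_of_le_one_right (by positivity) this
    · rw [indicator_of_notMem (by exact hx), indicator_of_notMem (by rw [mem_Ici]; linarith)]
      simp

theorem quad_Gn (h : IsBump η) {n : ℕ} (hn : 0 < n) (v : V) :
    Integrable (fun z => (∫ x, rn η n z x * v x) ^ 2) ∧
    ∫ p : ℝ × ℝ, Gn η n p.1 p.2 * v p.2 * v p.1 ∂(volume.prod volume)
      = ∫ z, (∫ x, rn η n z x * v x) ^ 2 := by
  have h1 := psd (h.rn_meas n) (Hn_meas n) (Hn_integral hn).1 (fun x y => (rn_int hn x y).2) v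
  refine ⟨h1.1, ?_⟩
  rw [← h1.2]
  congr 1
  funext p
  rw [(rn_int hn p.1 p.2).1]

theorem norm_Gn (h : IsBump η) {n : ℕ} (hn : 0 < n) (v : V) :
    ∫ p : ℝ × ℝ, ‖Gn η n p.1 p.2 * v p.2 * v p.1‖ ∂(volume.prod volume) ≤ 4 / n ^ 2 * ‖v‖ ^ 2 := by
  have hkb := h.Gn_kb hn
  rw [integral_norm_eq_lintegral_enorm (hkb.integrable_prod v v).aestronglyMeasurable]
  have h1 : ∫⁻ p : ℝ × ℝ, ‖Gn η n p.1 p.2 * v p.2 * v p.1‖ₑ ∂(volume.prod volume)
      ≤ (∫⁻ t, ‖Hn n t‖ₑ) * ∫⁻ y, ‖v y‖ₑ ^ 2 := by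
    refine le_trans (lintegral_mono fun p => ?_) (lintegral_quad_le (Hn_meas n) v)
    rw [enorm_mul, enorm_mul]
    gcongr
    exact hkb.enorm_le _ _
  have hfin : (∫⁻ t, ‖Hn n t‖ₑ) * ∫⁻ y, ‖v y‖ₑ ^ 2 < ∞ :=
    ENNReal.mul_lt_top (Hn_integral hn).1.2 (lintegral_sq_lt_top v)
  refine (ENNReal.toReal_mono hfin.ne h1).trans (le_of_eq ?_)
  rw [ENNReal.toReal_mul, ← norm_sq_eq, ← integral_norm_eq_lintegral_enorm
    (Hn_integral hn).1.aestronglyMeasurable]
  congr 1
  rw [← (Hn_integral hn).2]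
  congr 1
  funext t
  rw [norm_eq_abs, abs_of_nonneg (Hn_nonneg n t)]

theorem hasSum_quad (h : IsBump η) (v : V) :
    HasSum (fun n => ∫ p : ℝ × ℝ, Gn η n p.1 p.2 * v p.2 * v p.1 ∂(volume.prod volume))
      ⟪h.kbG.op v, v⟫ := by
  have h1 := hasSum_integral_of_summable_integral_norm (μ := (volume : Measure ℝ).prod volume)
    (F := fun n (p : ℝ × ℝ) => Gn η n p.1 p.2 * v p.2 * v p.1) ?_ ?_
  · have e : ⟪h.kbG.op v, v⟫ = ∫ p : ℝ × ℝ, (∑' n, Gn η n p.1 p.2 * v p.2 * v p.1)
        ∂(volume.prod volume) := by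
      rw [h.kbG.inner_prod]
      have hd : ∀ᵐ p : ℝ × ℝ ∂(volume.prod volume), p.1 ≠ p.2 := by
        rw [Measure.ae_prod_iff_ae_ae]
        · refine Filter.Eventually.of_forall fun x => ?_
          simp only
          rw [ae_iff]
          simp
        · exact (measurableSet_eq_fun measurable_fst measurable_snd).compl
      apply integral_congr_ae
      filter_upwards [hd] with p hp
      rw [← (((hasSum_Gn η hp).mul_right (v p.2)).mul_right (v p.1)).tsum_eq]
    rw [e]
    exact h1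
  · intro n
    rcases Nat.eq_zero_or_pos n with h0 | h0
    · subst h0
      unfold Gn
      simp
    · exact (h.Gn_kb h0).integrable_prod v v
  · have hs : Summable (fun n : ℕ => 4 / (n : ℝ) ^ 2 * ‖v‖ ^ 2) := by
      refine Summable.mul_right _ ?_
      have := (Real.summable_one_div_nat_pow (p := 2)).mpr (by norm_num)
      refine (this.mul_left 4).congr fun n => ?_
      ring
    refine Summable.of_nonneg_of_le (fun n => integral_nonneg fun p => norm_nonneg _) ?_ hs
    intro n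
    rcases Nat.eq_zero_or_pos n with h0 | h0
    · subst h0
      unfold Gn
      simp
    · exact h.norm_Gn h0 v

theorem quad_nonneg (h : IsBump η) (v : V) (n : ℕ) :
    0 ≤ ∫ p : ℝ × ℝ, Gn η n p.1 p.2 * v p.2 * v p.1 ∂(volume.prod volume) := by
  rcases Nat.eq_zero_or_pos n with h0 | h0
  · subst h0
    unfold Gn
    simp
  · rw [(h.quad_Gn h0 v).2]
    exact integral_nonneg fun z => sq_nonneg _

theorem Gk_symm (η : ℝ → ℝ) (x y : ℝ) : Gk η x y = Gk η y x := by
  unfold Gk lg
  rw [← N_neg (x - y), ← N_neg (x - y) (gam η x - gam η y), ← N_neg' (-(x - y)) (gam η x - gam η y)]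
  rw [neg_sub, neg_sub, add_comm (gam η x)]

theorem symPos (h : IsBump η) : SymPos h.kbG.op where
  symm := h.kbG.inner_symm (Filter.Eventually.of_forall fun p => Gk_symm η p.1 p.2)
  nonneg v := (h.hasSum_quad v).nonneg (h.quad_nonneg v)

theorem nondeg (h : IsBump η) (v : V) (hv : ⟪h.kbG.op v, v⟫ = 0) : v = 0 := by
  have h1 := le_hasSum (h.hasSum_quad v) 1 (fun j _ => h.quad_nonneg v j)
  rw [hv, (h.quad_Gn one_pos v).2] at h1
  have h2 : ∫ z, (∫ x, rn η 1 z x * v x) ^ 2 = 0 :=
    le_antisymm h1 (integral_nonneg fun z => sq_nonneg _)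
  rw [integral_eq_zero_iff_of_nonneg (fun z => sq_nonneg _) (h.quad_Gn one_pos v).1] at h2
  have hkb := h.rn_kb (n := 1) one_pos
  have h3 := hkb.maj_ae_lt_top (measurable_coe v) (lintegral_sq_lt_top v)
  set w : ℝ → ℝ := fun x => exp x * sin (gam η x) * v x with hw
  -- good points
  have hgood : ∀ᵐ z, IntegrableOn w (Iic z) ∧ ∫ x in Iic z, w x = 0 := by
    filter_upwards [h2, h3] with z hz1 hz3
    have hi := hkb.integrable_of_maj (measurable_coe v) hz3
    have e : (fun x => rn η 1 z x * v x) = (Iic z).indicator (fun x => 2 * exp (-z) * w x) := by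
      funext x
      unfold rn
      by_cases hx : x ∈ Iic z
      · rw [indicator_of_mem hx, indicator_of_mem hx, hw]
        simp only [Nat.cast_one, one_mul]
        rw [neg_sub, exp_sub, exp_neg]
        field_simp
      · rw [indicator_of_notMem hx, indicator_of_notMem hx, zero_mul]
    rw [e] at hi
    rw [integrable_indicator_iff measurableSet_Iic] at hi
    have hne : 2 * exp (-z) ≠ 0 := by positivity
    have hi2 : IntegrableOn w (Iic z) := by
      have := hi.const_mul (2 * exp (-z))⁻¹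
      refine this.congr (Filter.Eventually.of_forall fun x => ?_)
      simp only
      field_simp
    refine ⟨hi2, ?_⟩
    simp only [Pi.zero_apply] at hz1
    have hz : ∫ x, rn η 1 z x * v x = 0 := by
      exact pow_eq_zero_iff (two_ne_zero) |>.mp hz1
    rw [e, integral_indicator measurableSet_Iic, integral_const_mul] at hz
    exact (mul_eq_zero.mp hz).resolve_left hne
  obtain ⟨c, hc1, hc2⟩ := hgood.exists
  have hloc : LocallyIntegrable w := by
    have hv1 : LocallyIntegrable (v : ℝ → ℝ) := (Lp.memLp v).locallyIntegrable (by norm_num)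
    have hcont : Continuous (fun x => exp x * sin (gam η x)) :=
      continuous_exp.mul (continuous_sin.comp h.continuous_gam)
    rw [← locallyIntegrableOn_univ] at hv1 ⊢
    exact hv1.continuousOn_mul hcont.continuousOn isOpen_univ.isLocallyClosed
  have hzero : (fun z => ∫ x in c..z, w x) = fun _ => 0 := by
    have hcont : Continuous (fun z => ∫ x in c..z, w x) :=
      intervalIntegral.continuous_primitive (fun a b => intervalIntegrable_iff.mpr
        ((hloc.integrableOn_isCompact isCompact_uIcc).mono_set uIoc_subset_uIcc)) c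
    refine Continuous.ae_eq_iff_eq volume hcont continuous_const |>.mp ?_
    filter_upwards [hgood] with z hz
    rw [← intervalIntegral.integral_Iic_sub_Iic hc1 hz.1, hz.2, hc2, sub_zero]
  have hw0 : ∀ᵐ x, w x = 0 := by
    filter_upwards [_root_.LocallyIntegrable.ae_hasDerivAt_integral hloc] with x hx
    have h5 := hx c
    rw [hzero] at h5
    exact h5.unique (hasDerivAt_const x 0)
  apply Lp.ext
  filter_upwards [hw0, Lp.coeFn_zero ℝ 2 (volume : Measure ℝ)] with x hx hx0
  rw [hx0]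
  have hs : 0 < sin (gam η x) := sin_pos_of_pos_of_lt_pi (by linarith [h.gam_ge' x])
    (by linarith [h.gam_le x, pi_pos])
  have : exp x * sin (gam η x) ≠ 0 := by positivity
  exact (mul_eq_zero.mp hx).resolve_left this

end IsBump

end Pool.Agent.Helper59.NP
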