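import Pool.Agent.Helper59.NP.Limit
import Pool.Agent.Helper59.NP.Pos

set_option autoImplicit false
open Real MeasureTheory Set Filter Topology
open scoped RealInnerProductSpace

namespace Pool.Agent.Helper59.NP

variable {η : ℝ → ℝ}

theorem ae_prod_ne : ∀ᵐ p : ℝ × ℝ ∂(volume.prod volume), p.1 ≠ p.2 := by
  rw [Measure.ae_prod_iff_ae_ae]
  · refine Filter.Eventually.of_forall fun x => ?_
    simp only
    rw [ae_iff]
    simp
  · exact (measurableSet_eq_fun measurable_fst measurable_snd).compl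

namespace IsBump

theorem op_lk (h : IsBump η) (v : V) : h.kb_lk.op v = kb_lw.op v + h.kb_ld.op v := by
  apply Lp.ext
  have h1 := kb_lw.maj_ae_lt_top (measurable_coe v) (lintegral_sq_lt_top v)
  have h2 := h.kb_ld.maj_ae_lt_top (measurable_coe v) (lintegral_sq_lt_top v)
  filter_upwards [h.kb_lk.op_ae v, kb_lw.op_ae v, h.kb_ld.op_ae v,
    Lp.coeFn_add (kb_lw.op v) (h.kb_ld.op v), h1, h2] with x hx1 hx2 hx3 hx4 hx5 hx6
  rw [hx4, Pi.add_apply, hx1, hx2, hx3]
  unfold KB.app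
  rw [← integral_add (kb_lw.integrable_of_maj (measurable_coe v) hx5)
    (h.kb_ld.integrable_of_maj (measurable_coe v) hx6)]
  congr 1
  funext y
  unfold ld
  ring

theorem symData (h : IsBump η) : SymData h.kbG.op h.kb_lk.op kb_lw.op h.kb_ld.op where
  pos := h.symPos
  symL := by
    intro v w
    have hM : ∀ t, HL h.Cl t ≤ h.Cl := fun t => HL_le h.Cl_pos.le t
    have hs : ∀ᵐ p : ℝ × ℝ ∂(volume.prod volume), kcomp (Gk η) (lk η) p.1 p.2
        = kcomp (Gk η) (lk η) p.2 p.1 := by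
      filter_upwards [ae_prod_ne] with p hp
      exact h.kcomp_symm hp
    have e := (h.kbG.comp h.kb_lk hM).inner_symm hs v w
    rw [← h.kbG.op_comp h.kb_lk hM, ← h.kbG.op_comp h.kb_lk hM] at e
    rw [e, h.symPos.symm]
  decomp := by
    ext1 v
    exact h.op_lk v
  posP := lw_nonneg
  cpt := h.kb_ld.isCompactOperator h.ld_sq

theorem infinite_eigen (h : IsBump η) (hneg : ∀ n : ℕ, ∃ f : (Fin n → ℝ) →ₗ[ℝ] V,
    ∀ c, c ≠ 0 → ⟪h.kbG.op (h.kb_lk.op (f c)), f c⟫ < 0) :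
    {μ : ℝ | μ < 0 ∧ ∃ v, v ≠ 0 ∧ h.kb_lk.op v = μ • v}.Infinite :=
  h.symData.infinite_neg_eigen h.nondeg hneg

end IsBump

end Pool.Agent.Helper59.NP
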