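import Mathlib

set_option autoImplicit false
open Real

namespace Pool.Agent.Helper59.NP

/-- `N X θ = cosh X - cos θ = 2 |sinh ((X + iθ)/2)|²`. -/
noncomputable def N (X θ : ℝ) : ℝ := cosh X - cos θ

/-- `½ log N`, a harmonic function. -/
noncomputable def lg (X θ : ℝ) : ℝ := (1 / 2) * Real.log (N X θ)

/-- `∂ lg / ∂X` -/
noncomputable def pp (X θ : ℝ) : ℝ := sinh X / (2 * N X θ)

/-- `∂ lg / ∂θ` -/
noncomputable def qq (X θ : ℝ) : ℝ := sin θ / (2 * N X θ)

/-- `∂ pp / ∂X` -/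
noncomputable def UU (X θ : ℝ) : ℝ := (1 - cosh X * cos θ) / (2 * N X θ ^ 2)

/-- `-∂ pp / ∂θ` -/
noncomputable def WW (X θ : ℝ) : ℝ := (sinh X * sin θ) / (2 * N X θ ^ 2)

theorem N_nonneg (X θ : ℝ) : 0 ≤ N X θ := by
  unfold N
  have := one_le_cosh X
  have := cos_le_one θ
  linarith

theorem N_ge (X θ : ℝ) : cosh X - 1 ≤ N X θ := by
  unfold N
  have := cos_le_one θ
  linarith

theorem N_pos_of_ne {X : ℝ} (hX : X ≠ 0) (θ : ℝ) : 0 < N X θ := by
  have h := N_ge X θ
  have : 1 < cosh X := one_lt_cosh.mpr hX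
  linarith

theorem N_pos_of_cos {θ : ℝ} (hθ : cos θ < 1) (X : ℝ) : 0 < N X θ := by
  unfold N
  have := one_le_cosh X
  linarith

theorem N_neg (X θ : ℝ) : N (-X) θ = N X θ := by unfold N; rw [cosh_neg]

theorem N_neg' (X θ : ℝ) : N X (-θ) = N X θ := by unfold N; rw [cos_neg]

theorem N_abs_le (X θ : ℝ) : N X θ ≤ cosh X + 1 := by
  unfold N
  have := neg_one_le_cos θ
  linarith

theorem aux_div (A B S C : ℝ) (h1 : B ^ 2 = A ^ 2 + 1) (h2 : S ^ 2 + C ^ 2 = 1) (hN : B - C ≠ 0)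
    (hne : ((B * C - 1 : ℝ) : ℂ) + ((A * S : ℝ) : ℂ) * Complex.I ≠ 0) :
    (((A * C : ℝ) : ℂ) + ((B * S : ℝ) : ℂ) * Complex.I) /
      (((B * C - 1 : ℝ) : ℂ) + ((A * S : ℝ) : ℂ) * Complex.I)
    = ((A / (B - C) : ℝ) : ℂ) - ((S / (B - C) : ℝ) : ℂ) * Complex.I := by
  rw [div_eq_iff hne]
  apply Complex.ext
  · simp only [Complex.add_re, Complex.ofReal_re, Complex.mul_re, Complex.I_re, mul_zero,
      Complex.ofReal_im, Complex.I_im, mul_one, Complex.sub_re, Complex.add_im, Complex.mul_im,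
      Complex.sub_im, sub_self, zero_sub, add_zero, zero_add, sub_zero]
    field_simp
    linear_combination (-A) * h2
  · simp only [Complex.add_re, Complex.ofReal_re, Complex.mul_re, Complex.I_re, mul_zero,
      Complex.ofReal_im, Complex.I_im, mul_one, Complex.sub_re, Complex.add_im, Complex.mul_im,
      Complex.sub_im, sub_self, zero_sub, add_zero, zero_add, sub_zero]
    field_simp
    linear_combination S * h1

theorem aux_im (a b x y : ℝ) :
    (((a : ℂ) - (b : ℂ) * Complex.I) * (((x : ℂ) + (y : ℂ) * Complex.I) / 2)).im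
      = (y * a - x * b) / 2 := by
  have : (((x : ℂ) + (y : ℂ) * Complex.I) / 2) = ((x / 2 : ℝ) : ℂ) + ((y / 2 : ℝ) : ℂ) * Complex.I := by
    push_cast; ring
  rw [this]
  simp only [Complex.add_re, Complex.ofReal_re, Complex.mul_re, Complex.I_re, mul_zero,
      Complex.ofReal_im, Complex.I_im, mul_one, Complex.sub_re, Complex.add_im, Complex.mul_im,
      Complex.sub_im, sub_self, zero_sub, add_zero, zero_add, sub_zero]
  ring

section deriv

variable {X θ : ℝ → ℝ} {X' θ' t : ℝ}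

theorem hasDerivAt_N (hX : HasDerivAt X X' t) (hθ : HasDerivAt θ θ' t) :
    HasDerivAt (fun t => N (X t) (θ t)) (X' * sinh (X t) + θ' * sin (θ t)) t := by
  unfold N
  have h1 := hX.cosh
  have h2 := hθ.cos
  convert! h1.sub h2 using 1
  ring

theorem hasDerivAt_lg (hX : HasDerivAt X X' t) (hθ : HasDerivAt θ θ' t) (hN : N (X t) (θ t) ≠ 0) :
    HasDerivAt (fun t => lg (X t) (θ t)) (X' * pp (X t) (θ t) + θ' * qq (X t) (θ t)) t := by
  unfold lg
  have h := ((hasDerivAt_N hX hθ).log hN).const_mul (1 / 2 : ℝ)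
  convert! h using 1
  unfold pp qq
  field_simp

theorem hasDerivAt_pp (hX : HasDerivAt X X' t) (hθ : HasDerivAt θ θ' t) (hN : N (X t) (θ t) ≠ 0) :
    HasDerivAt (fun t => pp (X t) (θ t)) (X' * UU (X t) (θ t) - θ' * WW (X t) (θ t)) t := by
  unfold pp
  have h1 := hX.sinh
  have h2 := (hasDerivAt_N hX hθ).const_mul (2 : ℝ)
  have h := h1.div h2 (by positivity)
  convert! h using 1
  unfold UU WW
  have hc := cosh_sq (X t)
  have : N (X t) (θ t) = cosh (X t) - cos (θ t) := rfl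
  field_simp
  rw [this]
  linear_combination (-X') * hc

theorem hasDerivAt_qq (hX : HasDerivAt X X' t) (hθ : HasDerivAt θ θ' t) (hN : N (X t) (θ t) ≠ 0) :
    HasDerivAt (fun t => qq (X t) (θ t)) (-(X' * WW (X t) (θ t)) - θ' * UU (X t) (θ t)) t := by
  unfold qq
  have h1 := hθ.sin
  have h2 := (hasDerivAt_N hX hθ).const_mul (2 : ℝ)
  have h := h1.div h2 (by positivity)
  convert! h using 1
  unfold UU WW
  have hc := sin_sq_add_cos_sq (θ t)
  have : N (X t) (θ t) = cosh (X t) - cos (θ t) := rfl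
  field_simp
  rw [this]
  linear_combination θ' * hc

/-- the conjugate harmonic function of `lg` (two branches) -/
theorem hasDerivAt_arg_aux {c : ℂ} (hc : c ≠ 0) (hX : HasDerivAt X X' t) (hθ : HasDerivAt θ θ' t)
    (hN : N (X t) (θ t) ≠ 0)
    (hs : c * Complex.sinh (((X t : ℂ) + (θ t : ℂ) * Complex.I) / 2) ∈ Complex.slitPlane) :
    HasDerivAt (fun t => Complex.arg (c * Complex.sinh (((X t : ℂ) + (θ t : ℂ) * Complex.I) / 2)))
      (θ' * pp (X t) (θ t) - X' * qq (X t) (θ t)) t := by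
  set w : ℝ → ℂ := fun t => ((X t : ℂ) + (θ t : ℂ) * Complex.I) / 2 with hw
  have hw' : HasDerivAt w (((X' : ℂ) + (θ' : ℂ) * Complex.I) / 2) t :=
    (hX.ofReal_comp.add (hθ.ofReal_comp.mul_const Complex.I)).div_const 2
  have h1 : HasDerivAt (fun t => c * Complex.sinh (w t))
      (c * (Complex.cosh (w t) * (((X' : ℂ) + (θ' : ℂ) * Complex.I) / 2))) t :=
    ((Complex.hasDerivAt_sinh (w t)).comp t hw').const_mul c
  have h2 := h1.clog_real hs
  have h3 : HasDerivAt (fun t => (Complex.log (c * Complex.sinh (w t))).im)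
      (c * (Complex.cosh (w t) * (((X' : ℂ) + (θ' : ℂ) * Complex.I) / 2)) /
        (c * Complex.sinh (w t))).im t := by
    have := (Complex.imCLM.hasFDerivAt (x := Complex.log (c * Complex.sinh (w t)))).comp_hasDerivAt
      t h2
    exact this
  have h4 : (c * (Complex.cosh (w t) * (((X' : ℂ) + (θ' : ℂ) * Complex.I) / 2)) /
        (c * Complex.sinh (w t))).im = θ' * pp (X t) (θ t) - X' * qq (X t) (θ t) := by
    have hsne : Complex.sinh (w t) ≠ 0 := by
      intro h0
      rw [show ((X t : ℂ) + (θ t : ℂ) * Complex.I) / 2 = w t from rfl, h0, mul_zero] at hs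
      exact Complex.zero_notMem_slitPlane hs
    have e1 : c * (Complex.cosh (w t) * (((X' : ℂ) + (θ' : ℂ) * Complex.I) / 2)) /
        (c * Complex.sinh (w t))
        = (Complex.sinh (2 * w t) / (2 * Complex.sinh (w t) ^ 2))
          * (((X' : ℂ) + (θ' : ℂ) * Complex.I) / 2) := by
      rw [Complex.sinh_two_mul]
      field_simp
    have e2 : 2 * Complex.sinh (w t) ^ 2 = Complex.cosh (2 * w t) - 1 := by
      rw [Complex.cosh_two_mul, Complex.cosh_sq]; ring
    have e3 : (2 : ℂ) * w t = (X t : ℂ) + (θ t : ℂ) * Complex.I := by rw [hw]; ring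
    rw [e1, e2, e3]
    have e4 : Complex.sinh ((X t : ℂ) + (θ t : ℂ) * Complex.I)
        = ((sinh (X t) * cos (θ t) : ℝ) : ℂ) + ((cosh (X t) * sin (θ t) : ℝ) : ℂ) * Complex.I := by
      rw [Complex.sinh_add, Complex.sinh_mul_I, Complex.cosh_mul_I]
      push_cast
      ring
    have e5 : Complex.cosh ((X t : ℂ) + (θ t : ℂ) * Complex.I) - 1
        = ((cosh (X t) * cos (θ t) - 1 : ℝ) : ℂ) + ((sinh (X t) * sin (θ t) : ℝ) : ℂ) * Complex.I := by
      rw [Complex.cosh_add, Complex.sinh_mul_I, Complex.cosh_mul_I]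
      push_cast
      ring
    have hne : ((cosh (X t) * cos (θ t) - 1 : ℝ) : ℂ)
        + ((sinh (X t) * sin (θ t) : ℝ) : ℂ) * Complex.I ≠ 0 := by
      rw [← e5, ← e3, ← e2]
      exact mul_ne_zero two_ne_zero (pow_ne_zero _ hsne)
    have e8 := aux_div (sinh (X t)) (cosh (X t)) (sin (θ t)) (cos (θ t)) (cosh_sq _)
      (sin_sq_add_cos_sq _) hN hne
    rw [e4, e5, e8, aux_im]
    unfold pp qq N
    field_simp
  rw [h4] at h3
  simp only [Complex.log_im] at h3
  exact h3

end deriv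

end Pool.Agent.Helper59.NP
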