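import Pool.Agent.Helper59.NP.Symm

set_option autoImplicit false
open Real MeasureTheory Set Filter Topology

namespace Pool.Agent.Helper59.NP

variable {η : ℝ → ℝ}

/-- `sinh((X + iθ)/2)` -/
noncomputable def sh (X θ : ℝ) : ℂ := Complex.sinh (((X : ℂ) + (θ : ℂ) * Complex.I) / 2)

theorem sh_eq (X θ : ℝ) : sh X θ = ((sinh (X / 2) * cos (θ / 2) : ℝ) : ℂ)
    + ((cosh (X / 2) * sin (θ / 2) : ℝ) : ℂ) * Complex.I := by
  unfold sh
  rw [add_div, mul_div_right_comm]
  have e1 : (X : ℂ) / 2 = ((X / 2 : ℝ) : ℂ) := by push_cast; ring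
  have e2 : (θ : ℂ) / 2 = ((θ / 2 : ℝ) : ℂ) := by push_cast; ring
  rw [e1, e2, Complex.sinh_add, Complex.sinh_mul_I, Complex.cosh_mul_I]
  push_cast
  ring

theorem sh_re (X θ : ℝ) : (sh X θ).re = sinh (X / 2) * cos (θ / 2) := by
  rw [sh_eq, Complex.add_re, Complex.mul_re, Complex.ofReal_re, Complex.ofReal_re,
    Complex.ofReal_im, Complex.I_re, Complex.I_im]
  ring

theorem sh_im (X θ : ℝ) : (sh X θ).im = cosh (X / 2) * sin (θ / 2) := by
  rw [sh_eq, Complex.add_im, Complex.mul_im, Complex.ofReal_re, Complex.ofReal_im,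
    Complex.ofReal_im, Complex.I_re, Complex.I_im]
  ring

theorem slit1 {X θ : ℝ} (h0 : 0 < θ) (h1 : θ < 2 * π) : 1 * sh X θ ∈ Complex.slitPlane := by
  rw [one_mul, Complex.mem_slitPlane_iff]
  right
  rw [sh_im]
  have := sin_pos_of_pos_of_lt_pi (x := θ / 2) (by linarith) (by linarith)
  have := cosh_pos (X / 2)
  positivity

theorem slit2 {X θ : ℝ} (h0 : -π < θ) (h1 : θ < π) (h : X ≠ 0 ∨ θ < 0) :
    Complex.I * sh X θ ∈ Complex.slitPlane := by
  rw [Complex.mem_slitPlane_iff]
  have hc : 0 < cos (θ / 2) := cos_pos_of_mem_Ioo ⟨by linarith, by linarith⟩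
  by_cases hX : X = 0
  · left
    have hθ := h.resolve_left (fun h => h hX)
    have hs : sin (θ / 2) < 0 := sin_neg_of_neg_of_neg_pi_lt (by linarith) (by linarith)
    have := cosh_pos (X / 2)
    simp only [Complex.mul_re, Complex.I_re, zero_mul, Complex.I_im, one_mul, zero_sub, sh_im]
    nlinarith
  · right
    simp only [Complex.mul_im, Complex.I_re, zero_mul, Complex.I_im, one_mul, zero_add, sh_re]
    have : sinh (X / 2) ≠ 0 := by
      rw [Ne, sinh_eq_zero]
      intro h3
      exact hX (by linarith)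
    positivity

/-- primitive of `Bf` -/
noncomputable def If₁ (η : ℝ → ℝ) (y s z : ℝ) : ℝ :=
  Complex.arg (1 * sh (z - y) (s * gam η z + gam η y))

noncomputable def If₂ (η : ℝ → ℝ) (y s z : ℝ) : ℝ :=
  Complex.arg (Complex.I * sh (z - y) (s * gam η z - gam η y))

noncomputable def If (η : ℝ → ℝ) (y s z : ℝ) : ℝ := If₁ η y s z - If₂ η y s z

namespace IsBump

theorem hasDerivAt_If₁ (h : IsBump η) {y s z : ℝ} (h0 : 0 ≤ s) (h1 : s ≤ 1)
    (hg : N (z - y) (s * gam η z + gam η y) ≠ 0) :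
    HasDerivAt (fun z => If₁ η y s z) (s * gam' η z * pp (z - y) (s * gam η z + gam η y)
      - qq (z - y) (s * gam η z + gam η y)) z := by
  have hX : HasDerivAt (fun z => z - y) 1 z := (hasDerivAt_id z).sub_const y
  have hp : HasDerivAt (fun z => s * gam η z + gam η y) (s * gam' η z) z :=
    ((h.hasDerivAt_gam z).const_mul s).add_const _
  have hy := h.gam_ge' y
  have hy' := h.gam_le' y
  have hz := h.gam_ge' z
  have hz' := h.gam_le' z
  have hpi := pi_gt_d2
  have := hasDerivAt_arg_aux one_ne_zero hX hp hg (slit1 (by nlinarith) (by nlinarith))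
  unfold If₁ sh
  convert! this using 1
  ring

theorem hasDerivAt_If₂ (h : IsBump η) {y s z : ℝ} (h0 : 0 ≤ s) (h1 : s ≤ 1)
    (hor : z ≠ y ∨ s < 1) :
    HasDerivAt (fun z => If₂ η y s z) (s * gam' η z * pp (z - y) (s * gam η z - gam η y)
      - qq (z - y) (s * gam η z - gam η y)) z := by
  have hX : HasDerivAt (fun z => z - y) 1 z := (hasDerivAt_id z).sub_const y
  have hp : HasDerivAt (fun z => s * gam η z - gam η y) (s * gam' η z) z :=
    ((h.hasDerivAt_gam z).const_mul s).sub_const _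
  have hy := h.gam_ge' y
  have hy' := h.gam_le' y
  have hz := h.gam_ge' z
  have hz' := h.gam_le' z
  have hpi := pi_gt_d2
  have hg : N (z - y) (s * gam η z - gam η y) ≠ 0 := by
    rcases hor with hor | hor
    · exact (gd_of_ne (η := η) (s := s) hor).2
    · exact (h.gd h0 hor y z).2
  have hsl : Complex.I * sh (z - y) (s * gam η z - gam η y) ∈ Complex.slitPlane := by
    refine slit2 (by nlinarith) (by nlinarith) ?_
    rcases eq_or_ne z y with heq | hne
    · right
      have := hor.resolve_left (fun h => h heq)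
      rw [heq]
      nlinarith
    · left
      exact sub_ne_zero.mpr hne
  have := hasDerivAt_arg_aux Complex.I_ne_zero hX hp hg hsl
  unfold If₂ sh
  convert! this using 1
  ring

theorem hasDerivAt_If (h : IsBump η) {y s z : ℝ} (h0 : 0 ≤ s) (h1 : s ≤ 1)
    (hor : z ≠ y ∨ s < 1) : HasDerivAt (fun z => If η y s z) (Bf η y s z) z := by
  have hg : Gd η y s z := by
    rcases hor with hor | hor
    · exact gd_of_ne hor
    · exact h.gd h0 hor y z
  have := (h.hasDerivAt_If₁ h0 h1 hg.1).sub (h.hasDerivAt_If₂ h0 h1 hor)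
  unfold Bf Pp Qp
  convert! this using 1
  ring

theorem continuousAt_If_s (h : IsBump η) {y z : ℝ} (hne : z ≠ y) :
    ContinuousAt (fun s => If η y s z) 1 := by
  have hy := h.gam_ge' y
  have hy' := h.gam_le' y
  have hz := h.gam_ge' z
  have hz' := h.gam_le' z
  have hpi := pi_gt_d2
  have hX : HasDerivAt (fun _ : ℝ => z - y) 0 (1 : ℝ) := hasDerivAt_const _ _
  have hg := gd_of_ne (η := η) (s := 1) hne
  have h1 := hasDerivAt_arg_aux one_ne_zero hX (hasDerivAt_aux (gam η z) (gam η y) 1) hg.1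
    (slit1 (by nlinarith) (by nlinarith))
  have h2 := hasDerivAt_arg_aux Complex.I_ne_zero hX (hasDerivAt_aux' (gam η z) (gam η y) 1) hg.2
    (slit2 (by nlinarith) (by nlinarith) (Or.inl (sub_ne_zero.mpr hne)))
  exact (h1.continuousAt).sub (h2.continuousAt)

theorem intervalIntegrable_Bf (h : IsBump η) (y : ℝ) {s : ℝ} (h0 : 0 ≤ s) (h1 : s < 1) (a b : ℝ) :
    IntervalIntegrable (fun z => Bf η y s z) volume a b := by
  apply Continuous.intervalIntegrable
  rw [← continuousOn_univ]
  have h2 := h.cont_Bf (S := {s} ×ˢ univ) y (fun p hp => by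
    have : p.1 = s := hp.1
    rw [this]; exact h.gd h0 h1 y p.2)
  have h3 : ContinuousOn (fun z : ℝ => (s, z)) univ := by fun_prop
  have h4 : MapsTo (fun z : ℝ => (s, z)) univ ({s} ×ˢ univ) := fun z _ => ⟨rfl, trivial⟩
  have h5 := h2.comp h3 h4
  exact h5

theorem integral_Bf (h : IsBump η) (y : ℝ) {s : ℝ} (h0 : 0 ≤ s) (h1 : s < 1) (a b : ℝ) :
    ∫ z in a..b, Bf η y s z = If η y s b - If η y s a :=
  intervalIntegral.integral_eq_sub_of_hasDerivAt
    (fun _ _ => h.hasDerivAt_If h0 h1.le (Or.inr h1)) (h.intervalIntegrable_Bf y h0 h1 a b)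

theorem Bf_one (_h : IsBump η) (y z : ℝ) : Bf η y 1 z = -(2 * π) * lk η z y := by
  unfold Bf Qp Pp lk Qf Pf
  rw [one_mul, one_mul]
  have := pi_pos
  field_simp
  ring

theorem Af_one (_h : IsBump η) (x z : ℝ) : Af η x 1 z = Gk η x z := by
  unfold Af Gk lg
  rw [one_mul, ← N_neg (x - z), ← N_neg (x - z) (gam η x - gam η z),
    ← N_neg' (-(x - z)) (gam η x - gam η z), neg_sub, neg_sub, add_comm (gam η x)]

theorem intervalIntegrable_Bf_one (h : IsBump η) (y a b : ℝ) :
    IntervalIntegrable (fun z => Bf η y 1 z) volume a b := by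
  simp only [h.Bf_one]
  apply IntervalIntegrable.const_mul
  have hm : Measurable (fun z => lk η z y) := by
    have m1 : Measurable (fun p : ℝ × ℝ => lk η p.1 p.2) := h.lk_meas
    have m2 : Measurable fun z : ℝ => (z, y) := by fun_prop
    have m3 := m1.comp m2
    exact m3
  refine (intervalIntegrable_const (c := h.Cl)).mono_fun' hm.aestronglyMeasurable ?_
  refine Filter.Eventually.of_forall fun z => ?_
  simp only [norm_eq_abs]
  exact (h.lk_bound z y).trans (HL_le h.Cl_pos.le _)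

/-- slope limit of `sh` along the curve -/
theorem tendsto_slope_sh (h : IsBump η) (y : ℝ) :
    Tendsto (fun z => (((z - y : ℝ) : ℂ))⁻¹ * sh (z - y) (gam η z - gam η y)) (𝓝[≠] y)
      (𝓝 ((1 + (gam' η y : ℂ) * Complex.I) / 2)) := by
  have h1 : HasDerivAt (fun z : ℝ => (((z : ℂ) - y) + ((gam η z : ℂ) - gam η y) * Complex.I) / 2)
      ((1 + (gam' η y : ℂ) * Complex.I) / 2) y := by
    have ha : HasDerivAt (fun z : ℝ => (z : ℂ) - y) 1 y := by
      have := (hasDerivAt_id y).ofReal_comp.sub_const (y : ℂ)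
      simpa using this
    have hb : HasDerivAt (fun z : ℝ => ((gam η z : ℂ) - gam η y) * Complex.I)
        ((gam' η y : ℂ) * Complex.I) y :=
      ((h.hasDerivAt_gam y).ofReal_comp.sub_const _).mul_const _
    exact (ha.add hb).div_const 2
  have h2 : HasDerivAt (fun z : ℝ => sh (z - y) (gam η z - gam η y))
      ((1 + (gam' η y : ℂ) * Complex.I) / 2) y := by
    have h3 := (Complex.hasDerivAt_sinh
      ((((y : ℂ) - y) + ((gam η y : ℂ) - gam η y) * Complex.I) / 2)).comp y h1
    rw [sub_self, sub_self, zero_mul, add_zero, zero_div, Complex.cosh_zero, one_mul] at h3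
    convert! h3 using 1
    funext z
    unfold sh
    push_cast
    rfl
  have h3 := hasDerivAt_iff_tendsto_slope.mp h2
  refine h3.congr fun z => ?_
  have e : sh (y - y) (gam η y - gam η y) = 0 := by unfold sh; simp
  simp only [slope, vsub_eq_sub, Complex.real_smul]
  rw [e, sub_zero]
  push_cast
  rfl

theorem tendsto_If₂_right (h : IsBump η) (y : ℝ) :
    Tendsto (fun z => If₂ η y 1 z) (𝓝[>] y)
      (𝓝 (Complex.arg (Complex.I * ((1 + (gam' η y : ℂ) * Complex.I) / 2)))) := by
  have h1 : Tendsto (fun z => Complex.I * ((((z - y : ℝ) : ℂ))⁻¹ * sh (z - y) (gam η z - gam η y)))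
      (𝓝[>] y) (𝓝 (Complex.I * ((1 + (gam' η y : ℂ) * Complex.I) / 2))) :=
    ((h.tendsto_slope_sh y).mono_left (nhdsWithin_mono _ fun z hz => ne_of_gt hz)).const_mul _
  have hs : Complex.I * ((1 + (gam' η y : ℂ) * Complex.I) / 2) ∈ Complex.slitPlane := by
    rw [Complex.mem_slitPlane_iff]
    right
    simp
  refine ((Complex.continuousAt_arg hs).tendsto.comp h1).congr' ?_
  filter_upwards [self_mem_nhdsWithin] with z hz
  have hz' : 0 < (z - y)⁻¹ := inv_pos.mpr (sub_pos.mpr hz)
  unfold If₂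
  have e := Complex.arg_real_mul (Complex.I * sh (z - y) (1 * gam η z - gam η y)) hz'
  rw [← e, Function.comp, one_mul]
  congr 1
  push_cast
  ring

theorem tendsto_If₂_left (h : IsBump η) (y : ℝ) :
    Tendsto (fun z => If₂ η y 1 z) (𝓝[<] y)
      (𝓝 (Complex.arg (-(Complex.I * ((1 + (gam' η y : ℂ) * Complex.I) / 2))))) := by
  have h1 : Tendsto (fun z => -(Complex.I * ((((z - y : ℝ) : ℂ))⁻¹ * sh (z - y) (gam η z - gam η y))))
      (𝓝[<] y) (𝓝 (-(Complex.I * ((1 + (gam' η y : ℂ) * Complex.I) / 2)))) :=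
    (((h.tendsto_slope_sh y).mono_left (nhdsWithin_mono _ fun z hz => ne_of_lt hz)).const_mul _).neg
  have hs : -(Complex.I * ((1 + (gam' η y : ℂ) * Complex.I) / 2)) ∈ Complex.slitPlane := by
    rw [Complex.mem_slitPlane_iff]
    right
    simp
  refine ((Complex.continuousAt_arg hs).tendsto.comp h1).congr' ?_
  filter_upwards [self_mem_nhdsWithin] with z hz
  have hz' : 0 < (y - z)⁻¹ := inv_pos.mpr (sub_pos.mpr hz)
  unfold If₂
  have e := Complex.arg_real_mul (Complex.I * sh (z - y) (1 * gam η z - gam η y)) hz'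
  rw [← e, Function.comp, one_mul]
  congr 1
  have hne : (z : ℂ) - y ≠ 0 := by
    rw [sub_ne_zero]
    exact_mod_cast ne_of_lt hz
  have hne' : (y : ℂ) - z ≠ 0 := by
    rw [sub_ne_zero]
    exact_mod_cast ne_of_gt hz
  push_cast
  field_simp
  ring

theorem arg_jump (c : ℝ) : Complex.arg (Complex.I * ((1 + (c : ℂ) * Complex.I) / 2))
    - Complex.arg (-(Complex.I * ((1 + (c : ℂ) * Complex.I) / 2))) = π := by
  rw [Complex.arg_neg_eq_arg_sub_pi_of_im_pos]
  · ring
  · simp

theorem integral_Bf_one (h : IsBump η) {y a b : ℝ} (ha : a < y) (hb : y < b) :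
    ∫ z in a..b, Bf η y 1 z = If η y 1 b - If η y 1 a + π := by
  have hi := h.intervalIntegrable_Bf_one y
  set ℓp := Complex.arg (Complex.I * ((1 + (gam' η y : ℂ) * Complex.I) / 2)) with hℓp
  set ℓm := Complex.arg (-(Complex.I * ((1 + (gam' η y : ℂ) * Complex.I) / 2))) with hℓm
  have hj : ℓp - ℓm = π := arg_jump _
  have hg : N (y - y) (1 * gam η y + gam η y) ≠ 0 := by
    have := h.N_sum_ge (y - y) y y
    rw [one_mul]
    have h2 := cosh_pos (y - y)
    exact (lt_of_lt_of_le (by positivity) this).ne'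
  have hc1 : ContinuousAt (fun z => If₁ η y 1 z) y :=
    (h.hasDerivAt_If₁ zero_le_one le_rfl hg).continuousAt
  have hcb : ContinuousAt (fun z => If η y 1 z) b :=
    (h.hasDerivAt_If zero_le_one le_rfl (Or.inl hb.ne')).continuousAt
  have hca : ContinuousAt (fun z => If η y 1 z) a :=
    (h.hasDerivAt_If zero_le_one le_rfl (Or.inl ha.ne)).continuousAt
  have e1 : ∫ z in a..y, Bf η y 1 z = (If₁ η y 1 y - ℓm) - If η y 1 a := by
    refine intervalIntegral.integral_eq_sub_of_hasDerivAt_of_tendsto (f := fun z => If η y 1 z) ha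
      ?_ (hi a y) (hca.tendsto.mono_left nhdsWithin_le_nhds) ?_
    · intro z hz
      exact h.hasDerivAt_If zero_le_one le_rfl (Or.inl hz.2.ne)
    · exact (hc1.tendsto.mono_left nhdsWithin_le_nhds).sub (h.tendsto_If₂_left y)
  have e2 : ∫ z in y..b, Bf η y 1 z = If η y 1 b - (If₁ η y 1 y - ℓp) := by
    refine intervalIntegral.integral_eq_sub_of_hasDerivAt_of_tendsto (f := fun z => If η y 1 z) hb
      ?_ (hi y b) ?_ (hcb.tendsto.mono_left nhdsWithin_le_nhds)
    · intro z hz
      exact h.hasDerivAt_If zero_le_one le_rfl (Or.inl hz.1.ne')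
    · exact (hc1.tendsto.mono_left nhdsWithin_le_nhds).sub (h.tendsto_If₂_right y)
  rw [← intervalIntegral.integral_add_adjacent_intervals (hi a y) (hi y b), e1, e2]
  linarith

end IsBump

end Pool.Agent.Helper59.NP
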