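import Pool.Agent.Helper59.NP.LemT

set_option autoImplicit false
open Real MeasureTheory Set Filter Topology
open scoped RealInnerProductSpace

namespace Pool.Agent.Helper59.NP

variable {η : ℝ → ℝ}

theorem coth_eq {X θ : ℝ} (hN : N X θ ≠ 0) :
    Complex.exp ((X : ℂ) + (θ : ℂ) * Complex.I) ≠ 1 ∧
    Complex.exp ((X : ℂ) + (θ : ℂ) * Complex.I) /
      (Complex.exp ((X : ℂ) + (θ : ℂ) * Complex.I) - 1)
      = 1 / 2 + (pp X θ : ℂ) - (qq X θ : ℂ) * Complex.I := by
  set a := Complex.exp (X : ℂ) with ha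
  set b := Complex.exp ((θ : ℂ) * Complex.I) with hb
  have ha0 : a ≠ 0 := Complex.exp_ne_zero _
  have hb0 : b ≠ 0 := Complex.exp_ne_zero _
  have ecosh : ((cosh X : ℝ) : ℂ) = (a + a⁻¹) / 2 := by
    rw [Complex.ofReal_cosh, Complex.cosh, ha, Complex.exp_neg]
  have esinh : ((sinh X : ℝ) : ℂ) = (a - a⁻¹) / 2 := by
    rw [Complex.ofReal_sinh, Complex.sinh, ha, Complex.exp_neg]
  have ecos : ((cos θ : ℝ) : ℂ) = (b + b⁻¹) / 2 := by
    rw [Complex.ofReal_cos, Complex.cos, hb, neg_mul, Complex.exp_neg]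
  have esin : ((sin θ : ℝ) : ℂ) * Complex.I = (b - b⁻¹) / 2 := by
    rw [Complex.ofReal_sin, Complex.sin, hb, neg_mul, Complex.exp_neg]
    have : Complex.I * Complex.I = -1 := Complex.I_mul_I
    linear_combination ((Complex.exp ((θ : ℂ) * Complex.I))⁻¹
      - Complex.exp ((θ : ℂ) * Complex.I)) / 2 * this
  have eN : ((N X θ : ℝ) : ℂ) = ((a + a⁻¹) - (b + b⁻¹)) / 2 := by
    unfold N
    rw [Complex.ofReal_sub, ecosh, ecos]
    ring
  have hN' : ((a + a⁻¹) - (b + b⁻¹)) ≠ 0 := by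
    intro h0
    rw [h0, zero_div] at eN
    exact hN (by exact_mod_cast eN)
  rw [Complex.exp_add, ← ha, ← hb]
  have hab : a * b ≠ 1 := by
    intro h1
    apply hN'
    have : b = a⁻¹ := by field_simp; rw [mul_comm]; exact h1
    rw [this, inv_inv]
    ring
  refine ⟨hab, ?_⟩
  have hab' : a * b - 1 ≠ 0 := sub_ne_zero.mpr hab
  have e1 : (pp X θ : ℂ) - (qq X θ : ℂ) * Complex.I
      = ((a - a⁻¹) - (b - b⁻¹)) / (2 * ((a + a⁻¹) - (b + b⁻¹))) := by
    unfold pp qq
    push_cast [Complex.ofReal_div]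
    rw [← Complex.ofReal_sinh, ← Complex.ofReal_sin, eN, esinh]
    have e2 : ((sin θ : ℝ) : ℂ) / (2 * (((a + a⁻¹) - (b + b⁻¹)) / 2)) * Complex.I
        = (((sin θ : ℝ) : ℂ) * Complex.I) / (2 * (((a + a⁻¹) - (b + b⁻¹)) / 2)) := by ring
    rw [e2, esin]
    field_simp
  rw [add_sub_assoc, e1]
  have e3 : ((a + a⁻¹) - (b + b⁻¹)) = (a * b - 1) * (a - b) / (a * b) := by
    field_simp
    ring
  have hab2 : a - b ≠ 0 := by
    intro h0
    apply hN'
    rw [e3, h0]
    simp
  rw [e3]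
  field_simp
  ring

theorem IsBump.one_add_exp (h : IsBump η) (x : ℝ) :
    0 < (1 + Complex.exp (uu η x)).re ∧ 0 < (1 + Complex.exp ((starRingEnd ℂ) (uu η x))).re := by
  have hx := h.gam_ge' x
  have hx' := h.gam_le' x
  have hpi := pi_gt_d2
  have hc : 0 < cos (gam η x) := cos_pos_of_mem_Ioo ⟨by linarith, by linarith⟩
  constructor
  · unfold uu
    rw [Complex.add_re, Complex.exp_re]
    simp
    positivity
  · unfold uu
    rw [Complex.add_re, Complex.exp_re]
    simp
    positivity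

theorem conj_Z (x : ℝ) : (starRingEnd ℂ) (Z η x) = Complex.exp ((starRingEnd ℂ) (uu η x)) /
    (1 + Complex.exp ((starRingEnd ℂ) (uu η x))) := by
  unfold Z
  rw [map_div₀, map_add, map_one, ← Complex.exp_conj]

theorem frac_aux {E F u' : ℂ} (hE : 1 + E ≠ 0) (hF : 1 + F ≠ 0) (hEF : E ≠ F) :
    (u' * E / (1 + E) ^ 2) / (E / (1 + E) - F / (1 + F))
      = u' * (E / (E - F) - E / (1 + E)) := by
  have h1 : E - F ≠ 0 := sub_ne_zero.mpr hEF
  have h2 : E / (1 + E) - F / (1 + F) = (E - F) / ((1 + E) * (1 + F)) := by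
    field_simp
    ring
  rw [h2]
  field_simp
  ring

theorem IsBump.quot_eq (h : IsBump η) {x y : ℝ} (hne : y ≠ x) :
    Z' η y / (Z η y - Z η x) = (1 + (gam' η y : ℂ) * Complex.I) *
      ((pp (y - x) (gam η y - gam η x) : ℂ) - (qq (y - x) (gam η y - gam η x) : ℂ) * Complex.I
        + (1 / 2 - Z η y)) := by
  have hE : 1 + Complex.exp (uu η y) ≠ 0 := by
    intro h0; have := (h.one_add_exp y).1; rw [h0] at this; simp at this
  have hF : 1 + Complex.exp (uu η x) ≠ 0 := by
    intro h0; have := (h.one_add_exp x).1; rw [h0] at this; simp at this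
  have hN : N (y - x) (gam η y - gam η x) ≠ 0 := (N_pos_of_ne (sub_ne_zero.mpr hne) _).ne'
  have hc := coth_eq hN
  have hw : Complex.exp (uu η y) = Complex.exp (((y - x : ℝ) : ℂ)
      + ((gam η y - gam η x : ℝ) : ℂ) * Complex.I) * Complex.exp (uu η x) := by
    rw [← Complex.exp_add]
    congr 1
    unfold uu
    push_cast
    ring
  set e := Complex.exp (((y - x : ℝ) : ℂ) + ((gam η y - gam η x : ℝ) : ℂ) * Complex.I) with he
  have hF0 : Complex.exp (uu η x) ≠ 0 := Complex.exp_ne_zero _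
  have hEF : Complex.exp (uu η y) ≠ Complex.exp (uu η x) := by
    rw [hw]
    intro h0
    exact hc.1 (mul_right_cancel₀ hF0 (by rw [h0, one_mul]))
  unfold Z' Z
  rw [frac_aux hE hF hEF]
  have h1 : Complex.exp (uu η y) / (Complex.exp (uu η y) - Complex.exp (uu η x)) = e / (e - 1) := by
    rw [hw]
    have h2 : e - 1 ≠ 0 := sub_ne_zero.mpr hc.1
    have h3 : e * Complex.exp (uu η x) - Complex.exp (uu η x) ≠ 0 := by
      have : e * Complex.exp (uu η x) - Complex.exp (uu η x) = (e - 1) * Complex.exp (uu η x) := by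
        ring
      rw [this]
      exact mul_ne_zero h2 hF0
    field_simp
  rw [h1, hc.2]
  ring

theorem IsBump.quot_eq' (h : IsBump η) (x y : ℝ) :
    Z' η y / (Z η y - (starRingEnd ℂ) (Z η x)) = (1 + (gam' η y : ℂ) * Complex.I) *
      ((pp (y - x) (gam η y + gam η x) : ℂ) - (qq (y - x) (gam η y + gam η x) : ℂ) * Complex.I
        + (1 / 2 - Z η y)) := by
  have hE : 1 + Complex.exp (uu η y) ≠ 0 := by
    intro h0; have := (h.one_add_exp y).1; rw [h0] at this; simp at this
  have hF : 1 + Complex.exp ((starRingEnd ℂ) (uu η x)) ≠ 0 := by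
    intro h0; have := (h.one_add_exp x).2; rw [h0] at this; simp at this
  have hN : N (y - x) (gam η y + gam η x) ≠ 0 := by
    have := h.N_sum_ge (y - x) y x
    have h2 := cosh_pos (y - x)
    exact (lt_of_lt_of_le (by positivity) this).ne'
  have hc := coth_eq hN
  have hw : Complex.exp (uu η y) = Complex.exp (((y - x : ℝ) : ℂ)
      + ((gam η y + gam η x : ℝ) : ℂ) * Complex.I) * Complex.exp ((starRingEnd ℂ) (uu η x)) := by
    rw [← Complex.exp_add]
    congr 1
    unfold uu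
    rw [map_add, map_mul, Complex.conj_ofReal, Complex.conj_ofReal, Complex.conj_I]
    push_cast
    ring
  set e := Complex.exp (((y - x : ℝ) : ℂ) + ((gam η y + gam η x : ℝ) : ℂ) * Complex.I) with he
  have hF0 : Complex.exp ((starRingEnd ℂ) (uu η x)) ≠ 0 := Complex.exp_ne_zero _
  have hEF : Complex.exp (uu η y) ≠ Complex.exp ((starRingEnd ℂ) (uu η x)) := by
    rw [hw]
    intro h0
    exact hc.1 (mul_right_cancel₀ hF0 (by rw [h0, one_mul]))
  rw [conj_Z]
  unfold Z' Z
  rw [frac_aux hE hF hEF]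
  have h1 : Complex.exp (uu η y) / (Complex.exp (uu η y) - Complex.exp ((starRingEnd ℂ) (uu η x)))
      = e / (e - 1) := by
    rw [hw]
    have h2 : e - 1 ≠ 0 := sub_ne_zero.mpr hc.1
    have h3 : e * Complex.exp ((starRingEnd ℂ) (uu η x)) - Complex.exp ((starRingEnd ℂ) (uu η x))
        ≠ 0 := by
      have : e * Complex.exp ((starRingEnd ℂ) (uu η x)) - Complex.exp ((starRingEnd ℂ) (uu η x))
          = (e - 1) * Complex.exp ((starRingEnd ℂ) (uu η x)) := by
        ring
      rw [this]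
      exact mul_ne_zero h2 hF0
    field_simp
  rw [h1, hc.2]
  ring

/-- the part of the kernel that does not depend on `x` -/
noncomputable def cz (η : ℝ → ℝ) (y : ℝ) : ℝ :=
  -(1 / π) * ((1 + (gam' η y : ℂ) * Complex.I) * (1 / 2 - Z η y)).im

theorem im_aux (g p q : ℝ) (z : ℂ) : ((1 + (g : ℂ) * Complex.I) *
    ((p : ℂ) - (q : ℂ) * Complex.I + z)).im
    = g * p - q + ((1 + (g : ℂ) * Complex.I) * z).im := by
  rw [mul_add, Complex.add_im]
  congr 1
  simp
  ring

theorem IsBump.kz_eq (h : IsBump η) {x y : ℝ} (hne : y ≠ x) :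
    kz η x y = kk η x y + cz η y := by
  unfold kz cz kk
  rw [h.quot_eq hne, h.quot_eq' x y, im_aux, im_aux]
  have := pi_pos
  field_simp
  ring

theorem IsBump.Z_bounds (h : IsBump η) (y : ℝ) :
    |(Z η y).im| ≤ (cosh y)⁻¹ ∧ |(Z η y).re| ≤ 1 := by
  have hx := h.gam_ge' y
  have hx' := h.gam_le' y
  have hpi := pi_gt_d2
  have hc : 0 < cos (gam η y) := cos_pos_of_mem_Ioo ⟨by linarith, by linarith⟩
  have hs : 0 < sin (gam η y) := sin_pos_of_pos_of_lt_pi (by linarith) (by linarith)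
  set E := Complex.exp (uu η y) with hE
  have hEre : E.re = exp y * cos (gam η y) := by
    rw [hE, Complex.exp_re]; unfold uu; simp
  have hEim : E.im = exp y * sin (gam η y) := by
    rw [hE, Complex.exp_im]; unfold uu; simp
  have hy := exp_pos y
  have hnsq : Complex.normSq (1 + E) = 1 + 2 * (exp y * cos (gam η y)) + exp y ^ 2 := by
    rw [Complex.normSq_apply, Complex.add_re, Complex.add_im, hEre, hEim]
    simp only [Complex.one_re, Complex.one_im]
    have := sin_sq_add_cos_sq (gam η y)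
    linear_combination exp y ^ 2 * this
  have hnge : 1 + exp y ^ 2 ≤ Complex.normSq (1 + E) := by
    rw [hnsq]
    have := mul_pos hy hc
    linarith
  have hnp : 0 < Complex.normSq (1 + E) := by
    have : 0 < 1 + exp y ^ 2 := by positivity
    linarith
  have hcosh : exp y / (1 + exp y ^ 2) = (cosh y)⁻¹ / 2 := by
    rw [cosh_eq, exp_neg]
    field_simp
    ring
  have hch := inv_pos.mpr (cosh_pos y)
  constructor
  · have e1 : (Z η y).im = E.im / Complex.normSq (1 + E) := by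
      unfold Z
      rw [← hE, Complex.div_im, Complex.add_re, Complex.add_im]
      simp only [Complex.one_re, Complex.one_im]
      field_simp
      ring
    rw [e1, hEim, abs_div, abs_of_pos hnp, abs_mul, abs_of_pos hy]
    calc exp y * |sin (gam η y)| / Complex.normSq (1 + E)
        ≤ exp y * 1 / (1 + exp y ^ 2) := by
          gcongr
          exact abs_sin_le_one _
      _ = (cosh y)⁻¹ / 2 := by rw [mul_one, hcosh]
      _ ≤ _ := by linarith
  · have e1 : (Z η y).re = (E.re * (1 + E.re) + E.im ^ 2) / Complex.normSq (1 + E) := by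
      unfold Z
      rw [← hE, Complex.div_re, Complex.add_re, Complex.add_im]
      simp only [Complex.one_re, Complex.one_im]
      field_simp
      ring
    rw [e1, hEre, hEim]
    have hpos := mul_pos hy hc
    have hnum : exp y * cos (gam η y) * (1 + exp y * cos (gam η y)) + (exp y * sin (gam η y)) ^ 2
        = exp y * cos (gam η y) + exp y ^ 2 := by
      have := sin_sq_add_cos_sq (gam η y)
      linear_combination exp y ^ 2 * this
    rw [hnum, abs_of_nonneg (by positivity), div_le_one hnp, hnsq]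
    linarith

theorem IsBump.exists_cz_bound (h : IsBump η) : ∃ C : ℝ, 0 < C ∧
    ∀ y, |cz η y| ≤ C * (cosh (y - 0))⁻¹ + C * (Icc (-1 : ℝ) 0).indicator 1 y := by
  obtain ⟨M, hM0, hM, -, -⟩ := h.exists_bound
  refine ⟨1 + 2 * M, by positivity, fun y => ?_⟩
  rw [sub_zero]
  have hpi : 1 / π ≤ 1 := by
    rw [div_le_one pi_pos]
    have := pi_gt_d2
    linarith
  have hpi0 : 0 ≤ 1 / π := by positivity
  have hind0 : 0 ≤ (Icc (-1 : ℝ) 0).indicator (1 : ℝ → ℝ) y :=
    indicator_nonneg (fun _ _ => zero_le_one) y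
  obtain ⟨h1, h2⟩ := h.Z_bounds y
  have hch := inv_pos.mpr (cosh_pos y)
  have e : ((1 + (gam' η y : ℂ) * Complex.I) * (1 / 2 - Z η y)).im
      = -(Z η y).im + gam' η y * (1 / 2 - (Z η y).re) := by
    simp [Complex.mul_im]
  have h3 : |gam' η y * (1 / 2 - (Z η y).re)| ≤ 2 * M * (Icc (-1 : ℝ) 0).indicator 1 y := by
    by_cases hy : y ∈ Icc (-1 : ℝ) 0
    · rw [indicator_of_mem hy, abs_mul, Pi.one_apply]
      have h4 : |1 / 2 - (Z η y).re| ≤ 2 := by
        refine (abs_sub _ _).trans ?_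
        rw [abs_of_nonneg (by norm_num : (0 : ℝ) ≤ 1 / 2)]
        linarith
      calc |gam' η y| * |1 / 2 - (Z η y).re| ≤ M * 2 := by
            gcongr
            exact hM y
        _ = _ := by ring
    · rw [indicator_of_notMem hy, h.gam'_eq hy]
      simp
  unfold cz
  rw [e, abs_mul, abs_neg, abs_of_nonneg hpi0]
  have h5 : |-(Z η y).im + gam' η y * (1 / 2 - (Z η y).re)|
      ≤ (cosh y)⁻¹ + 2 * M * (Icc (-1 : ℝ) 0).indicator 1 y := by
    refine (abs_add_le _ _).trans ?_
    rw [abs_neg]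
    exact add_le_add h1 h3
  calc 1 / π * |-(Z η y).im + gam' η y * (1 / 2 - (Z η y).re)|
      ≤ 1 * ((cosh y)⁻¹ + 2 * M * (Icc (-1 : ℝ) 0).indicator 1 y) := by gcongr
    _ ≤ _ := by nlinarith

theorem integrable_of_bound {k g : ℝ → ℝ} (hk : Measurable k) (hg : Measurable g) {A C x : ℝ}
    (hC : 0 < C) (hb : ∀ y, |k y| ≤ C * (cosh (y - x))⁻¹ + C * (Icc (-1 : ℝ) 0).indicator 1 y)
    (hA : ∀ y, |g y| ≤ A + |y|) : Integrable (fun y => k y * g y) := by
  have hA0 : 0 ≤ A := by
    have := hA 0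
    rw [abs_zero, add_zero] at this
    exact (abs_nonneg _).trans this
  have hi1 : Integrable (fun y => C * (128 * (1 + A + |x|) * (1 + (y - x) ^ 2)⁻¹)) := by
    refine Integrable.const_mul (Integrable.const_mul ?_ _) _
    exact integrable_inv_one_add_sq.comp_sub_right x
  have hi2 : Integrable (fun y => C * (Icc (-1 : ℝ) 0).indicator 1 y * (A + 1)) := by
    refine Integrable.mul_const (Integrable.const_mul ?_ _) _
    rw [integrable_indicator_iff measurableSet_Icc]
    exact integrableOn_const (by simp) (by simp)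
  refine (hi1.add hi2).mono' (hk.mul hg).aestronglyMeasurable
    (Eventually.of_forall fun y => ?_)
  rw [norm_mul, norm_eq_abs, norm_eq_abs, Pi.add_apply]
  have h1 := hb y
  have h2 := hA y
  have h3 := growth_cosh A x y hA0
  have hind0 : 0 ≤ (Icc (-1 : ℝ) 0).indicator (1 : ℝ → ℝ) y :=
    indicator_nonneg (fun _ _ => zero_le_one) y
  have hc0 : 0 ≤ (cosh (y - x))⁻¹ := (inv_pos.mpr (cosh_pos _)).le
  have h4 : (Icc (-1 : ℝ) 0).indicator (1 : ℝ → ℝ) y * (A + |y|)
      ≤ (Icc (-1 : ℝ) 0).indicator (1 : ℝ → ℝ) y * (A + 1) := by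
    by_cases hy : y ∈ Icc (-1 : ℝ) 0
    · have : |y| ≤ 1 := abs_le.mpr ⟨hy.1, hy.2.trans zero_le_one⟩
      gcongr
    · rw [indicator_of_notMem hy]
      simp
  calc |k y| * |g y|
      ≤ (C * (cosh (y - x))⁻¹ + C * (Icc (-1 : ℝ) 0).indicator 1 y) * (A + |y|) := by gcongr
    _ = C * ((A + |y|) * (cosh (y - x))⁻¹)
        + C * ((Icc (-1 : ℝ) 0).indicator (1 : ℝ → ℝ) y * (A + |y|)) := by ring
    _ ≤ C * (128 * (1 + A + |x|) * (1 + (y - x) ^ 2)⁻¹)
        + C * ((Icc (-1 : ℝ) 0).indicator (1 : ℝ → ℝ) y * (A + 1)) := by gcongr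
    _ = _ := by ring

theorem IsBump.cont_Z (h : IsBump η) : Continuous (Z η) := by
  unfold Z uu
  have hg := h.continuous_gam
  have hc : Continuous (fun x : ℝ => Complex.exp ((x : ℂ) + (gam η x : ℂ) * Complex.I)) := by
    fun_prop
  refine hc.div (continuous_const.add hc) fun x => ?_
  intro h0
  have := (h.one_add_exp x).1
  unfold uu at this
  rw [h0] at this
  simp at this

theorem IsBump.cz_meas (h : IsBump η) : Measurable (cz η) := by
  have h1 := h.cont_Z
  have h2 := h.continuous_gam'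
  have : Continuous (cz η) := by
    unfold cz
    fun_prop
  exact this.measurable

theorem IsBump.integrable_cz_mul (h : IsBump η) {g : ℝ → ℝ} (hg : Measurable g) {A : ℝ}
    (hA : ∀ y, |g y| ≤ A + |y|) : Integrable (fun y => cz η y * g y) := by
  obtain ⟨C, hC, hb⟩ := h.exists_cz_bound
  exact integrable_of_bound h.cz_meas hg hC hb hA

theorem IsBump.integral_kz (h : IsBump η) (x : ℝ) {g : ℝ → ℝ} (hg : Measurable g) {A : ℝ}
    (hA : ∀ y, |g y| ≤ A + |y|) :
    ∫ y, kz η x y * g y = (∫ y, kk η x y * g y) + ∫ y, cz η y * g y := by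
  rw [← integral_add (h.integrable_kk_mul x hg hA) (h.integrable_cz_mul hg hA)]
  apply integral_congr_ae
  filter_upwards [ae_ne x] with y hy
  rw [h.kz_eq hy]
  ring

theorem prim_meas (φ : V) (a : ℝ) : Measurable (fun y => a + prim φ y) :=
  (continuous_const.add (continuous_prim φ)).measurable

theorem IsBump.exists_shift (h : IsBump η) : ∃ κ : ℝ, ∀ (φ : V) (μ : ℝ), h.kb_lk.op φ = μ • φ →
    μ ≠ κ → ∃ a : ℝ, ∀ x, ∫ y, kz η x y * (a + ∫ t in (0 : ℝ)..y, φ t)
      = μ * (a + ∫ t in (0 : ℝ)..x, φ t) := by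
  have hone : ∀ y : ℝ, |(1 : ℝ)| ≤ 1 + |y| := fun y => by
    rw [abs_one]; linarith [abs_nonneg y]
  refine ⟨(∫ y, kk η 0 y * 1) + ∫ y, cz η y * 1, fun φ μ hφ hμ => ?_⟩
  set κ := (∫ y, kk η 0 y * 1) + ∫ y, cz η y * 1 with hκ
  set I₀ := (∫ y, kk η 0 y * (0 + prim φ y)) + ∫ y, cz η y * (0 + prim φ y) with hI₀
  have hμκ : μ - κ ≠ 0 := sub_ne_zero.mpr hμ
  refine ⟨I₀ / (μ - κ), fun x => ?_⟩
  set a := I₀ / (μ - κ) with ha
  have e1 : ∫ y, kz η x y * (a + prim φ y)
      = ((∫ y, kk η 0 y * (a + prim φ y)) + ∫ y, cz η y * (a + prim φ y)) + μ * prim φ x := by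
    rw [h.integral_kz x (prim_meas φ a) (prim_bound' φ a), h.integral_kk_eigen hφ a x]
    ring
  have e2 : ∫ y, kk η 0 y * (a + prim φ y) = a * (∫ y, kk η 0 y * 1)
      + ∫ y, kk η 0 y * (0 + prim φ y) := by
    rw [← integral_const_mul, ← integral_add
      ((h.integrable_kk_mul 0 measurable_const hone).const_mul a)
      (h.integrable_kk_mul 0 (prim_meas φ 0) (prim_bound' φ 0))]
    congr 1
    funext y
    ring
  have e3 : ∫ y, cz η y * (a + prim φ y) = a * (∫ y, cz η y * 1)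
      + ∫ y, cz η y * (0 + prim φ y) := by
    rw [← integral_const_mul, ← integral_add
      ((h.integrable_cz_mul measurable_const hone).const_mul a)
      (h.integrable_cz_mul (prim_meas φ 0) (prim_bound' φ 0))]
    congr 1
    funext y
    ring
  have e4 : a * (μ - κ) = I₀ := by rw [ha]; field_simp
  have e5 : ∫ y, kz η x y * (a + prim φ y) = μ * (a + prim φ x) := by
    rw [e1, e2, e3]
    linear_combination (-1 : ℝ) * e4
  exact e5

end Pool.Agent.Helper59.NP
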