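import Mathlib

set_option autoImplicit false
open scoped RealInnerProductSpace ENNReal
open MeasureTheory

namespace Pool.Agent.Helper59.NP

/-- The real Hilbert space `L²(ℝ)`. -/
abbrev V : Type := Lp ℝ 2 (volume : Measure ℝ)

theorem sq_lintegral_le (H F : ℝ → ℝ≥0∞) (hH : Measurable H) (hF : Measurable F) (x : ℝ) :
    (∫⁻ y, H (x - y) * F y) ^ 2 ≤ (∫⁻ t, H t) * ∫⁻ y, H (x - y) * F y ^ 2 := by
  have hHx : Measurable fun y => H (x - y) := hH.comp (measurable_const.sub measurable_id)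
  have h1 : ∀ y, H (x - y) * F y
      = ((fun y => H (x - y) ^ (1 / 2 : ℝ)) * fun y => H (x - y) ^ (1 / 2 : ℝ) * F y) y := by
    intro y
    simp only [Pi.mul_apply]
    rw [← mul_assoc, ← ENNReal.rpow_add_of_nonneg _ _ (by norm_num) (by norm_num)]
    norm_num
  have h2 := ENNReal.lintegral_mul_le_Lp_mul_Lq (volume : Measure ℝ)
    (Real.HolderConjugate.two_two) (f := fun y => H (x - y) ^ (1 / 2 : ℝ))
    (g := fun y => H (x - y) ^ (1 / 2 : ℝ) * F y) (by fun_prop) (by fun_prop)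
  simp_rw [← h1] at h2
  have h3 : ∀ y, (H (x - y) ^ (1 / 2 : ℝ)) ^ (2 : ℝ) = H (x - y) := by
    intro y
    rw [← ENNReal.rpow_mul]; norm_num
  have h4 : ∀ y, (H (x - y) ^ (1 / 2 : ℝ) * F y) ^ (2 : ℝ) = H (x - y) * F y ^ 2 := by
    intro y
    rw [ENNReal.mul_rpow_of_nonneg _ _ (by norm_num), h3]
    norm_num
  simp_rw [h3, h4] at h2
  have h5 : ∫⁻ y, H (x - y) = ∫⁻ t, H t := lintegral_sub_left_eq_self H x
  rw [h5] at h2
  calc (∫⁻ y, H (x - y) * F y) ^ 2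
      ≤ ((∫⁻ t, H t) ^ (1 / 2 : ℝ) * (∫⁻ y, H (x - y) * F y ^ 2) ^ (1 / 2 : ℝ)) ^ 2 := by gcongr
    _ = _ := by
      rw [mul_pow, ← ENNReal.rpow_natCast, ← ENNReal.rpow_natCast, ← ENNReal.rpow_mul,
        ← ENNReal.rpow_mul]
      norm_num

/-- Young's inequality `‖H * F‖₂ ≤ ‖H‖₁ ‖F‖₂` for lower integrals. -/
theorem lintegral_young (H F : ℝ → ℝ≥0∞) (hH : Measurable H) (hF : Measurable F) :
    ∫⁻ x, (∫⁻ y, H (x - y) * F y) ^ 2 ≤ (∫⁻ t, H t) ^ 2 * ∫⁻ y, F y ^ 2 := by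
  calc ∫⁻ x, (∫⁻ y, H (x - y) * F y) ^ 2
      ≤ ∫⁻ x, (∫⁻ t, H t) * ∫⁻ y, H (x - y) * F y ^ 2 :=
        lintegral_mono (fun x => sq_lintegral_le H F hH hF x)
    _ = (∫⁻ t, H t) * ∫⁻ x, ∫⁻ y, H (x - y) * F y ^ 2 := by
        rw [lintegral_const_mul]
        fun_prop
    _ = (∫⁻ t, H t) * ∫⁻ y, ∫⁻ x, H (x - y) * F y ^ 2 := by
        rw [lintegral_lintegral_swap]
        fun_prop
    _ = (∫⁻ t, H t) * ∫⁻ y, (∫⁻ t, H t) * F y ^ 2 := by
        congr 2
        funext y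
        rw [lintegral_mul_const _ (by fun_prop : Measurable fun x => H (x - y))]
        congr 1
        exact lintegral_sub_right_eq_self H y
    _ = _ := by
        rw [lintegral_const_mul _ (by fun_prop)]
        ring

/-- A kernel on `ℝ` dominated by an integrable convolution kernel. -/
structure KB (k : ℝ → ℝ → ℝ) (H : ℝ → ℝ) : Prop where
  meas : Measurable (Function.uncurry k)
  measH : Measurable H
  int : Integrable H
  bound : ∀ x y, |k x y| ≤ H (x - y)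

namespace KB

variable {k : ℝ → ℝ → ℝ} {H : ℝ → ℝ}

theorem nonneg (h : KB k H) (t : ℝ) : 0 ≤ H t := by
  have := h.bound t 0
  simp at this
  exact (abs_nonneg _).trans this

/-- finite norm of the majorant -/
noncomputable def nrm (_h : KB k H) : ℝ := ∫ t, H t

theorem lint_lt_top (h : KB k H) : ∫⁻ t, ‖H t‖ₑ < ∞ := h.int.2

theorem enorm_le (h : KB k H) (x y : ℝ) : ‖k x y‖ₑ ≤ ‖H (x - y)‖ₑ := by
  rw [Real.enorm_eq_ofReal_abs, Real.enorm_eq_ofReal_abs]
  apply ENNReal.ofReal_le_ofReal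
  exact (h.bound x y).trans (le_abs_self _)

/-- the majorant function applied to `|φ|` -/
noncomputable def maj (_h : KB k H) (φ : ℝ → ℝ) (x : ℝ) : ℝ≥0∞ :=
  ∫⁻ y, ‖H (x - y)‖ₑ * ‖φ y‖ₑ

theorem maj_measurable (h : KB k H) {φ : ℝ → ℝ} (hφ : Measurable φ) :
    Measurable (h.maj φ) := by
  unfold maj
  have := h.measH
  fun_prop

theorem maj_sq (h : KB k H) {φ : ℝ → ℝ} (hφ : Measurable φ) :
    ∫⁻ x, h.maj φ x ^ 2 ≤ (∫⁻ t, ‖H t‖ₑ) ^ 2 * ∫⁻ y, ‖φ y‖ₑ ^ 2 :=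
  lintegral_young (fun t => ‖H t‖ₑ) (fun y => ‖φ y‖ₑ) (h.measH.enorm) hφ.enorm

theorem maj_ae_lt_top (h : KB k H) {φ : ℝ → ℝ} (hφ : Measurable φ)
    (hφ2 : ∫⁻ y, ‖φ y‖ₑ ^ 2 < ∞) : ∀ᵐ x, h.maj φ x < ∞ := by
  have h1 : ∫⁻ x, h.maj φ x ^ 2 < ∞ :=
    (h.maj_sq hφ).trans_lt (ENNReal.mul_lt_top (ENNReal.pow_lt_top h.lint_lt_top) hφ2)
  have h2 := ae_lt_top ((h.maj_measurable hφ).pow_const 2) h1.ne
  filter_upwards [h2] with x hx
  by_contra hcon
  rw [not_lt, top_le_iff] at hcon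
  rw [hcon] at hx
  simp at hx

/-- the integral operator on functions -/
noncomputable def app (k : ℝ → ℝ → ℝ) (φ : ℝ → ℝ) (x : ℝ) : ℝ := ∫ y, k x y * φ y

theorem app_stronglyMeasurable (h : KB k H) {φ : ℝ → ℝ} (hφ : Measurable φ) :
    StronglyMeasurable (app k φ) := by
  have h1 : StronglyMeasurable (fun p : ℝ × ℝ => k p.1 p.2 * φ p.2) := by
    have := h.meas
    have h2 : Measurable (fun p : ℝ × ℝ => k p.1 p.2) := this
    exact (h2.mul (hφ.comp measurable_snd)).stronglyMeasurable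
  exact h1.integral_prod_right'

theorem enorm_app_le (h : KB k H) {φ : ℝ → ℝ} (x : ℝ) : ‖app k φ x‖ₑ ≤ h.maj φ x := by
  refine (enorm_integral_le_lintegral_enorm _).trans (lintegral_mono fun y => ?_)
  rw [enorm_mul]
  gcongr
  exact h.enorm_le x y

theorem integrable_of_maj (h : KB k H) {φ : ℝ → ℝ} (hφ : Measurable φ) {x : ℝ}
    (hx : h.maj φ x < ∞) : Integrable (fun y => k x y * φ y) := by
  refine ⟨?_, ?_⟩
  · have h2 : Measurable (fun p : ℝ × ℝ => k p.1 p.2) := h.meas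
    have h3 : Measurable (fun y => k x y) := h2.comp (measurable_const.prodMk measurable_id)
    exact (h3.mul hφ).aestronglyMeasurable
  · refine lt_of_le_of_lt (lintegral_mono fun y => ?_) hx
    rw [enorm_mul]
    gcongr
    exact h.enorm_le x y

end KB

theorem lintegral_sq_lt_top (φ : V) : ∫⁻ y, ‖φ y‖ₑ ^ 2 < ∞ := by
  have h := Lp.eLpNorm_lt_top φ
  rw [eLpNorm_eq_lintegral_rpow_enorm_toReal (by norm_num) (by norm_num)] at h
  simp only [ENNReal.toReal_ofNat, one_div] at h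
  have h2 := ENNReal.rpow_lt_top_iff_of_pos (y := (2 : ℝ)⁻¹) (by norm_num) |>.mp h
  simpa using h2

theorem norm_sq_eq (φ : V) : ‖φ‖ ^ 2 = (∫⁻ y, ‖φ y‖ₑ ^ 2).toReal := by
  rw [Lp.norm_def, eLpNorm_eq_lintegral_rpow_enorm_toReal (by norm_num) (by norm_num)]
  simp only [ENNReal.toReal_ofNat, one_div]
  rw [← ENNReal.toReal_rpow, ← Real.rpow_natCast, ← Real.rpow_mul ENNReal.toReal_nonneg]
  norm_num

theorem inner_eq (φ ψ : V) : ⟪φ, ψ⟫ = ∫ x, φ x * ψ x := by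
  rw [L2.inner_def]
  congr 1
  funext x
  simp [mul_comm]

theorem measurable_coe (φ : V) : Measurable (φ : ℝ → ℝ) := (Lp.stronglyMeasurable φ).measurable

namespace KB

variable {k : ℝ → ℝ → ℝ} {H : ℝ → ℝ}

theorem memLp_app (h : KB k H) (φ : V) : MemLp (app k φ) 2 := by
  refine ⟨(h.app_stronglyMeasurable (measurable_coe φ)).aestronglyMeasurable, ?_⟩
  rw [eLpNorm_eq_lintegral_rpow_enorm_toReal (by norm_num) (by norm_num)]
  simp only [ENNReal.toReal_ofNat, one_div]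
  refine ENNReal.rpow_lt_top_of_nonneg (by norm_num) (ne_of_lt ?_)
  calc ∫⁻ x, ‖app k φ x‖ₑ ^ (2 : ℝ) ≤ ∫⁻ x, h.maj φ x ^ 2 := by
        refine lintegral_mono fun x => ?_
        rw [ENNReal.rpow_ofNat]
        gcongr
        exact h.enorm_app_le x
    _ ≤ _ := h.maj_sq (measurable_coe φ)
    _ < ∞ := ENNReal.mul_lt_top (ENNReal.pow_lt_top h.lint_lt_top) (lintegral_sq_lt_top φ)

/-- the integral operator on `L²(ℝ)` -/
noncomputable def opLin (h : KB k H) : V →ₗ[ℝ] V where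
  toFun φ := (h.memLp_app φ).toLp
  map_add' := by
    intro φ ψ
    rw [← MemLp.toLp_add]
    apply MemLp.toLp_congr
    have h1 := h.maj_ae_lt_top (measurable_coe φ) (lintegral_sq_lt_top φ)
    have h2 := h.maj_ae_lt_top (measurable_coe ψ) (lintegral_sq_lt_top ψ)
    filter_upwards [h1, h2] with x hx1 hx2
    have h3 := h.integrable_of_maj (measurable_coe φ) hx1
    have h4 := h.integrable_of_maj (measurable_coe ψ) hx2
    simp only [app, Pi.add_apply]
    rw [← integral_add h3 h4]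
    apply integral_congr_ae
    filter_upwards [Lp.coeFn_add φ ψ] with y hy
    rw [hy]
    simp [mul_add]
  map_smul' := by
    intro c φ
    rw [RingHom.id_apply, ← MemLp.toLp_const_smul]
    apply MemLp.toLp_congr
    refine Filter.Eventually.of_forall fun x => ?_
    simp only [app, Pi.smul_apply, smul_eq_mul]
    rw [← integral_const_mul]
    apply integral_congr_ae
    filter_upwards [Lp.coeFn_smul c φ] with y hy
    rw [hy]
    simp
    ring

theorem opLin_ae (h : KB k H) (φ : V) : (h.opLin φ : ℝ → ℝ) =ᵐ[volume] app k φ :=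
  MemLp.coeFn_toLp (h.memLp_app φ)

theorem norm_opLin_le (h : KB k H) (φ : V) : ‖h.opLin φ‖ ≤ (∫⁻ t, ‖H t‖ₑ).toReal * ‖φ‖ := by
  have h1 : ‖h.opLin φ‖ ^ 2 ≤ ((∫⁻ t, ‖H t‖ₑ).toReal * ‖φ‖) ^ 2 := by
    rw [mul_pow, norm_sq_eq, norm_sq_eq, ← ENNReal.toReal_pow, ← ENNReal.toReal_mul]
    apply ENNReal.toReal_mono
    · exact (ENNReal.mul_lt_top (ENNReal.pow_lt_top h.lint_lt_top) (lintegral_sq_lt_top φ)).ne
    · calc ∫⁻ y, ‖(h.opLin φ : ℝ → ℝ) y‖ₑ ^ 2 = ∫⁻ y, ‖app k φ y‖ₑ ^ 2 := by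
            apply lintegral_congr_ae
            filter_upwards [h.opLin_ae φ] with y hy
            rw [hy]
        _ ≤ ∫⁻ x, h.maj φ x ^ 2 := by
            refine lintegral_mono fun x => ?_
            gcongr
            exact h.enorm_app_le x
        _ ≤ _ := h.maj_sq (measurable_coe φ)
  exact (abs_le_of_sq_le_sq' h1 (by positivity)).2

/-- the bounded integral operator on `L²(ℝ)` -/
noncomputable def op (h : KB k H) : V →L[ℝ] V :=
  h.opLin.mkContinuous _ h.norm_opLin_le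

theorem op_ae (h : KB k H) (φ : V) : (h.op φ : ℝ → ℝ) =ᵐ[volume] app k φ := h.opLin_ae φ

/-- Cauchy–Schwarz for lower integrals. -/
theorem _root_.Pool.Agent.Helper59.NP.lintegral_mul_lt_top {f g : ℝ → ℝ≥0∞} (hf : Measurable f)
    (hg : Measurable g) (hf2 : ∫⁻ x, f x ^ 2 < ∞) (hg2 : ∫⁻ x, g x ^ 2 < ∞) :
    ∫⁻ x, f x * g x < ∞ := by
  have h2 := ENNReal.lintegral_mul_le_Lp_mul_Lq (volume : Measure ℝ)
    (Real.HolderConjugate.two_two) hf.aemeasurable hg.aemeasurable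
  refine h2.trans_lt ?_
  simp only [ENNReal.rpow_ofNat]
  exact ENNReal.mul_lt_top (ENNReal.rpow_lt_top_of_nonneg (by norm_num) hf2.ne)
    (ENNReal.rpow_lt_top_of_nonneg (by norm_num) hg2.ne)

theorem maj_sq_lt_top (h : KB k H) (φ : V) : ∫⁻ x, h.maj φ x ^ 2 < ∞ :=
  (h.maj_sq (measurable_coe φ)).trans_lt
    (ENNReal.mul_lt_top (ENNReal.pow_lt_top h.lint_lt_top) (lintegral_sq_lt_top φ))

theorem integrable_prod (h : KB k H) (φ ψ : V) :
    Integrable (fun p : ℝ × ℝ => k p.1 p.2 * φ p.2 * ψ p.1) (volume.prod volume) := by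
  have hk : Measurable (fun p : ℝ × ℝ => k p.1 p.2) := h.meas
  have hm : Measurable (fun p : ℝ × ℝ => k p.1 p.2 * φ p.2 * ψ p.1) :=
    (hk.mul ((measurable_coe φ).comp measurable_snd)).mul ((measurable_coe ψ).comp measurable_fst)
  refine ⟨hm.aestronglyMeasurable, ?_⟩
  unfold HasFiniteIntegral
  rw [lintegral_prod _ hm.enorm.aemeasurable]
  have h1 := lintegral_mul_lt_top (h.maj_measurable (measurable_coe φ))
    (measurable_coe ψ).enorm (h.maj_sq_lt_top φ) (lintegral_sq_lt_top ψ)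
  refine lt_of_le_of_lt (lintegral_mono fun x => ?_) h1
  simp only
  unfold maj
  rw [← lintegral_mul_const _ (by have := h.measH; have := measurable_coe φ; fun_prop)]
  refine lintegral_mono fun y => ?_
  rw [enorm_mul, enorm_mul]
  gcongr
  exact h.enorm_le x y

theorem inner_op (h : KB k H) (φ ψ : V) :
    ⟪h.op φ, ψ⟫ = ∫ x, (∫ y, k x y * φ y) * ψ x := by
  rw [inner_eq]
  apply integral_congr_ae
  filter_upwards [h.op_ae φ] with x hx
  rw [hx]
  rfl

theorem inner_op' (h : KB k H) (φ ψ : V) :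
    ⟪h.op φ, ψ⟫ = ∫ x, ∫ y, k x y * φ y * ψ x := by
  rw [h.inner_op]
  congr 1
  funext x
  rw [integral_mul_const]

theorem inner_op_swap (h : KB k H) (φ ψ : V) :
    ⟪h.op φ, ψ⟫ = ∫ y, ∫ x, k x y * φ y * ψ x := by
  rw [h.inner_op', integral_integral_swap (h.integrable_prod φ ψ)]

/-- symmetric kernels give symmetric operators -/
theorem inner_symm (h : KB k H) (hs : ∀ᵐ p : ℝ × ℝ ∂(volume.prod volume), k p.1 p.2 = k p.2 p.1)
    (φ ψ : V) : ⟪h.op φ, ψ⟫ = ⟪h.op ψ, φ⟫ := by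
  have e1 : ⟪h.op φ, ψ⟫ = ∫ p : ℝ × ℝ, k p.1 p.2 * φ p.2 * ψ p.1 ∂(volume.prod volume) := by
    rw [h.inner_op', integral_prod _ (h.integrable_prod φ ψ)]
  have e2 : ⟪h.op ψ, φ⟫ = ∫ p : ℝ × ℝ, k p.2 p.1 * φ p.2 * ψ p.1 ∂(volume.prod volume) := by
    rw [h.inner_op_swap, ← integral_prod (f := fun p : ℝ × ℝ => k p.2 p.1 * ψ p.1 * φ p.2)]
    · congr 1
      funext p
      ring
    · exact (h.integrable_prod ψ φ).swap
  rw [e1, e2]
  apply integral_congr_ae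
  filter_upwards [hs] with p hp
  rw [hp]

end KB

/-- the kernel of a composition -/
noncomputable def kcomp (k₁ k₂ : ℝ → ℝ → ℝ) (x y : ℝ) : ℝ := ∫ z, k₁ x z * k₂ z y

/-- the majorant of a composition -/
noncomputable def hcomp (H₁ H₂ : ℝ → ℝ) (t : ℝ) : ℝ := ∫ s, H₁ (t - s) * H₂ s

theorem hcomp_integrable_slice {H₁ H₂ : ℝ → ℝ} (m₂ : Measurable H₂) (i₁ : Integrable H₁) {M : ℝ}
    (hM : ∀ t, |H₂ t| ≤ M) (t : ℝ) : Integrable (fun s => H₁ (t - s) * H₂ s) := by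
  have h1 : Integrable (fun s => H₁ (t - s)) := i₁.comp_sub_left t
  have := h1.mul_bdd (c := M) m₂.aestronglyMeasurable (Filter.Eventually.of_forall hM)
  exact this

theorem KB.comp {k₁ k₂ : ℝ → ℝ → ℝ} {H₁ H₂ : ℝ → ℝ} (h₁ : KB k₁ H₁) (h₂ : KB k₂ H₂) {M : ℝ}
    (hM : ∀ t, H₂ t ≤ M) : KB (kcomp k₁ k₂) (hcomp H₁ H₂) := by
  have hM' : ∀ t, |H₂ t| ≤ M := fun t => by rw [abs_of_nonneg (h₂.nonneg t)]; exact hM t
  have mk1 : Measurable (fun p : ℝ × ℝ => k₁ p.1 p.2) := h₁.meas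
  have mk2 : Measurable (fun p : ℝ × ℝ => k₂ p.1 p.2) := h₂.meas
  have mH1 := h₁.measH
  have mH2 := h₂.measH
  refine ⟨?_, ?_, ?_, ?_⟩
  · have : StronglyMeasurable (fun q : (ℝ × ℝ) × ℝ => k₁ q.1.1 q.2 * k₂ q.2 q.1.2) := by
      apply Measurable.stronglyMeasurable
      exact (mk1.comp (by fun_prop : Measurable fun q : (ℝ × ℝ) × ℝ => (q.1.1, q.2))).mul
        (mk2.comp (by fun_prop : Measurable fun q : (ℝ × ℝ) × ℝ => (q.2, q.1.2)))
    exact this.integral_prod_right'.measurable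
  · have : StronglyMeasurable (fun q : ℝ × ℝ => H₁ (q.1 - q.2) * H₂ q.2) := by
      apply Measurable.stronglyMeasurable
      fun_prop
    exact this.integral_prod_right'.measurable
  · -- integrability
    have h3 : Integrable (fun q : ℝ × ℝ => H₁ (q.1 - q.2) * H₂ q.2) (volume.prod volume) := by
      refine ⟨by apply Measurable.aestronglyMeasurable; fun_prop, ?_⟩
      unfold HasFiniteIntegral
      rw [lintegral_prod_symm _ (by apply Measurable.aemeasurable; fun_prop)]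
      simp only [enorm_mul]
      calc ∫⁻ y, ∫⁻ x, ‖H₁ (x - y)‖ₑ * ‖H₂ y‖ₑ
          = ∫⁻ y, (∫⁻ t, ‖H₁ t‖ₑ) * ‖H₂ y‖ₑ := by
            congr 1
            funext y
            rw [lintegral_mul_const _ (by fun_prop : Measurable fun x => ‖H₁ (x - y)‖ₑ)]
            congr 1
            exact lintegral_sub_right_eq_self (fun t => ‖H₁ t‖ₑ) y
        _ = (∫⁻ t, ‖H₁ t‖ₑ) * ∫⁻ y, ‖H₂ y‖ₑ := lintegral_const_mul _ (by fun_prop)
        _ < ∞ := ENNReal.mul_lt_top h₁.lint_lt_top h₂.lint_lt_top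
    exact h3.integral_prod_left
  · intro x y
    unfold kcomp hcomp
    have e : ∫ s, H₁ (x - y - s) * H₂ s = ∫ z, H₁ (x - z) * H₂ (z - y) := by
      rw [← integral_sub_right_eq_self (fun s => H₁ (x - y - s) * H₂ s) y]
      congr 1
      funext z
      congr 2
      ring
    rw [e]
    have hi : Integrable (fun z => H₁ (x - z) * H₂ (z - y)) := by
      have := (hcomp_integrable_slice mH2 h₁.int hM' (x - y)).comp_sub_right y
      refine this.congr (Filter.Eventually.of_forall fun z => ?_)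
      simp only
      congr 2
      ring
    refine (norm_integral_le_integral_norm (μ := (volume : Measure ℝ)) (fun z => k₁ x z * k₂ z y)).trans ?_
    refine integral_mono_of_nonneg (Filter.Eventually.of_forall fun z => norm_nonneg _) hi
      (Filter.Eventually.of_forall fun z => ?_)
    simp only [norm_mul, Real.norm_eq_abs]
    exact mul_le_mul (h₁.bound x z) (h₂.bound z y) (abs_nonneg _) (h₁.nonneg _)

theorem KB.op_comp {k₁ k₂ : ℝ → ℝ → ℝ} {H₁ H₂ : ℝ → ℝ} (h₁ : KB k₁ H₁) (h₂ : KB k₂ H₂) {M : ℝ}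
    (hM : ∀ t, H₂ t ≤ M) (φ : V) : h₁.op (h₂.op φ) = (h₁.comp h₂ hM).op φ := by
  have mk1 : Measurable (fun p : ℝ × ℝ => k₁ p.1 p.2) := h₁.meas
  have mk2 : Measurable (fun p : ℝ × ℝ => k₂ p.1 p.2) := h₂.meas
  have mH1 := h₁.measH
  have mH2 := h₂.measH
  have mφ := measurable_coe φ
  apply Lp.ext
  have hmm : Measurable (h₂.maj φ) := h₂.maj_measurable mφ
  -- finiteness of the double majorant
  have hfin : ∀ᵐ x, ∫⁻ z, ‖H₁ (x - z)‖ₑ * h₂.maj φ z < ∞ := by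
    have h1 : ∫⁻ x, (∫⁻ z, ‖H₁ (x - z)‖ₑ * h₂.maj φ z) ^ 2 < ∞ :=
      (lintegral_young (fun t => ‖H₁ t‖ₑ) (h₂.maj φ) mH1.enorm hmm).trans_lt
        (ENNReal.mul_lt_top (ENNReal.pow_lt_top h₁.lint_lt_top) (h₂.maj_sq_lt_top φ))
    have h2 := ae_lt_top (by fun_prop) h1.ne
    filter_upwards [h2] with x hx
    by_contra hcon
    rw [not_lt, top_le_iff] at hcon
    rw [hcon] at hx
    simp at hx
  filter_upwards [h₁.op_ae (h₂.op φ), (h₁.comp h₂ hM).op_ae φ, hfin] with x hx1 hx2 hx3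
  rw [hx1, hx2]
  unfold KB.app kcomp
  have e1 : ∫ z, k₁ x z * (h₂.op φ : ℝ → ℝ) z = ∫ z, ∫ y, k₁ x z * k₂ z y * φ y := by
    apply integral_congr_ae
    filter_upwards [h₂.op_ae φ] with z hz
    rw [hz]
    unfold KB.app
    rw [← integral_const_mul]
    congr 1
    funext y
    ring
  rw [e1, integral_integral_swap]
  · congr 1
    funext y
    rw [integral_mul_const]
  · have hm : Measurable (fun p : ℝ × ℝ => k₁ x p.1 * k₂ p.1 p.2 * φ p.2) :=
      ((mk1.comp (by fun_prop : Measurable fun q : ℝ × ℝ => (x, q.1))).mul mk2).mul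
        (mφ.comp measurable_snd)
    refine ⟨hm.aestronglyMeasurable, ?_⟩
    show ∫⁻ p : ℝ × ℝ, ‖k₁ x p.1 * k₂ p.1 p.2 * φ p.2‖ₑ ∂(volume.prod volume) < ∞
    rw [lintegral_prod _ hm.enorm.aemeasurable]
    refine lt_of_le_of_lt (lintegral_mono fun z => ?_) hx3
    simp only
    unfold KB.maj
    rw [← lintegral_const_mul _ (by fun_prop)]
    refine lintegral_mono fun y => ?_
    rw [enorm_mul, enorm_mul, mul_assoc]
    gcongr
    · exact h₁.enorm_le x z
    · exact h₂.enorm_le z y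

end Pool.Agent.Helper59.NP
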