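import Pool.Agent.Helper59.NP.Trans
import Pool.Agent.Helper59.NP.Eig

set_option autoImplicit false
open Real MeasureTheory Set Filter Topology
open scoped RealInnerProductSpace

namespace Pool.Agent.Helper59.NP

variable {η : ℝ → ℝ}

theorem locInt (φ : V) : LocallyIntegrable (φ : ℝ → ℝ) :=
  (Lp.memLp φ).locallyIntegrable (by norm_num)

theorem ii (φ : V) (a b : ℝ) : IntervalIntegrable (φ : ℝ → ℝ) volume a b :=
  intervalIntegrable_iff.mpr
    (((locInt φ).integrableOn_isCompact isCompact_uIcc).mono_set uIoc_subset_uIcc)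

theorem norm_sq_int (φ : V) : Integrable (fun y => φ y ^ 2) ∧ ∫ y, φ y ^ 2 = ‖φ‖ ^ 2 := by
  refine ⟨(Lp.memLp φ).integrable_sq, ?_⟩
  rw [← real_inner_self_eq_norm_sq, inner_eq]
  congr 1
  funext y
  ring

/-- the primitive of `φ` -/
noncomputable def prim (φ : V) (y : ℝ) : ℝ := ∫ t in (0 : ℝ)..y, φ t

theorem prim_sub (φ : V) (a b : ℝ) : prim φ b - prim φ a = ∫ t in a..b, φ t := by
  unfold prim
  exact intervalIntegral.integral_interval_sub_left (ii φ 0 b) (ii φ 0 a)

theorem prim_bound (φ : V) (y : ℝ) : |prim φ y| ≤ |y| + ‖φ‖ ^ 2 := by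
  unfold prim
  have h1 := intervalIntegral.norm_integral_le_integral_norm_uIoc (a := (0 : ℝ)) (b := y)
    (f := (φ : ℝ → ℝ)) (μ := volume)
  rw [norm_eq_abs] at h1
  refine h1.trans ?_
  have hi := norm_sq_int φ
  have hc : IntegrableOn (fun _ : ℝ => (1 : ℝ)) (uIoc 0 y) := by
    rw [← intervalIntegrable_iff]
    exact intervalIntegrable_const
  have h2 : ∫ t in uIoc 0 y, ‖φ t‖ ≤ ∫ t in uIoc 0 y, (1 + φ t ^ 2) := by
    apply setIntegral_mono_on (intervalIntegrable_iff.mp (ii φ 0 y)).norm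
      (hc.add hi.1.integrableOn) measurableSet_uIoc
    intro t _
    rw [norm_eq_abs, Pi.add_apply, ← sq_abs (φ t)]
    nlinarith [sq_nonneg (|φ t| - 1), sq_nonneg (|φ t|)]
  refine h2.trans ?_
  rw [integral_add hc hi.1.integrableOn]
  have h3 : ∫ t in uIoc 0 y, (1 : ℝ) = |y| := by
    rw [setIntegral_const, smul_eq_mul, mul_one, uIoc, Real.volume_real_Ioc]
    rcases le_total 0 y with hy | hy
    · rw [max_eq_right hy, min_eq_left hy, abs_of_nonneg hy, sub_zero, max_eq_left hy]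
    · rw [max_eq_left hy, min_eq_right hy, abs_of_nonpos hy, zero_sub,
        max_eq_left (by linarith)]
  have h4 : ∫ t in uIoc 0 y, φ t ^ 2 ≤ ‖φ‖ ^ 2 := by
    rw [← hi.2]
    exact setIntegral_le_integral hi.1 (Eventually.of_forall fun t => sq_nonneg _)
  linarith

theorem continuous_prim (φ : V) : Continuous (prim φ) :=
  intervalIntegral.continuous_primitive (fun a b => ii φ a b) 0

theorem cosh_ge_sq (t : ℝ) : (1 + t ^ 2 / 8) ^ 2 ≤ cosh t := by
  have h1 := cosh_sub_one_ge (t / 2)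
  have h2 : cosh t = 2 * cosh (t / 2) ^ 2 - 1 := by
    have h := cosh_two_mul (t / 2)
    have h3 := cosh_sq (t / 2)
    rw [show 2 * (t / 2) = t by ring] at h
    linarith
  have h3 : 1 + t ^ 2 / 8 ≤ cosh (t / 2) := by nlinarith
  have h4 : (1 + t ^ 2 / 8) ^ 2 ≤ cosh (t / 2) ^ 2 := by gcongr
  have h5 : 1 ≤ (1 + t ^ 2 / 8) ^ 2 := by nlinarith [sq_nonneg t, sq_nonneg (t ^ 2)]
  nlinarith

theorem inv_cosh_le' (t : ℝ) : (cosh t)⁻¹ ≤ 64 * ((1 + t ^ 2) ^ 2)⁻¹ := by
  have h := cosh_ge_sq t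
  have h1 : (1 + t ^ 2) ^ 2 / 64 ≤ cosh t := by
    refine le_trans ?_ h
    nlinarith [sq_nonneg t, sq_nonneg (t ^ 2)]
  calc (cosh t)⁻¹ ≤ ((1 + t ^ 2) ^ 2 / 64)⁻¹ := by gcongr
    _ = 64 * ((1 + t ^ 2) ^ 2)⁻¹ := by rw [inv_div]; ring

theorem growth_cosh (A x y : ℝ) (hA : 0 ≤ A) :
    (A + |y|) * (cosh (y - x))⁻¹ ≤ 128 * (1 + A + |x|) * (1 + (y - x) ^ 2)⁻¹ := by
  have h1 := inv_cosh_le' (y - x)
  set t := y - x with ht
  have h2 : A + |y| ≤ (1 + A + |x|) * (2 * (1 + t ^ 2)) := by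
    have h3 : |y| ≤ |x| + |t| := by
      have : y = x + t := by rw [ht]; ring
      rw [this]
      exact abs_add_le x t
    have h4 : |t| ≤ 1 + t ^ 2 := by
      rw [← sq_abs t]
      nlinarith [sq_nonneg (|t| - 1), abs_nonneg t]
    have h5 : 0 ≤ |x| := abs_nonneg x
    have h6 : 0 ≤ t ^ 2 := sq_nonneg t
    nlinarith [mul_nonneg hA h6, mul_nonneg h5 h6]
  have h0 : 0 ≤ A + |y| := by positivity
  calc (A + |y|) * (cosh t)⁻¹
      ≤ ((1 + A + |x|) * (2 * (1 + t ^ 2))) * (64 * ((1 + t ^ 2) ^ 2)⁻¹) := by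
        have h7 : 0 ≤ (cosh t)⁻¹ := (inv_pos.mpr (cosh_pos t)).le
        gcongr
    _ = 128 * (1 + A + |x|) * (1 + t ^ 2)⁻¹ := by
        field_simp
        ring

namespace IsBump

/-- integrability of the kernel against functions of linear growth -/
theorem integrable_kk_mul (h : IsBump η) (x : ℝ) {g : ℝ → ℝ} (hg : Measurable g) {A : ℝ}
    (hA : ∀ y, |g y| ≤ A + |y|) : Integrable (fun y => kk η x y * g y) := by
  obtain ⟨C, hC, hb⟩ := h.exists_kk_bound
  have hA0 : 0 ≤ A := by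
    have := hA 0
    rw [abs_zero, add_zero] at this
    exact (abs_nonneg _).trans this
  have hi1 : Integrable (fun y => C * (128 * (1 + A + |x|) * (1 + (y - x) ^ 2)⁻¹)) := by
    refine Integrable.const_mul (Integrable.const_mul ?_ _) _
    exact integrable_inv_one_add_sq.comp_sub_right x
  have hi2 : Integrable (fun y => C * (Icc (-1 : ℝ) 0).indicator 1 y * (A + 1)) := by
    refine Integrable.mul_const (Integrable.const_mul ?_ _) _
    rw [integrable_indicator_iff measurableSet_Icc]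
    exact integrableOn_const (by simp) (by simp)
  refine (hi1.add hi2).mono' ((h.kk_meas_slice x).mul hg).aestronglyMeasurable
    (Eventually.of_forall fun y => ?_)
  rw [norm_mul, norm_eq_abs, norm_eq_abs, Pi.add_apply]
  have h1 := hb x y
  have h2 := hA y
  have h3 := growth_cosh A x y hA0
  have hind0 : 0 ≤ (Icc (-1 : ℝ) 0).indicator (1 : ℝ → ℝ) y :=
    indicator_nonneg (fun _ _ => zero_le_one) y
  have hc0 : 0 ≤ (cosh (y - x))⁻¹ := (inv_pos.mpr (cosh_pos _)).le
  have h4 : (Icc (-1 : ℝ) 0).indicator (1 : ℝ → ℝ) y * (A + |y|)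
      ≤ (Icc (-1 : ℝ) 0).indicator (1 : ℝ → ℝ) y * (A + 1) := by
    by_cases hy : y ∈ Icc (-1 : ℝ) 0
    · have : |y| ≤ 1 := abs_le.mpr ⟨hy.1, hy.2.trans zero_le_one⟩
      gcongr
    · rw [indicator_of_notMem hy]
      simp
  calc |kk η x y| * |g y|
      ≤ (C * (cosh (y - x))⁻¹ + C * (Icc (-1 : ℝ) 0).indicator 1 y) * (A + |y|) := by gcongr
    _ = C * ((A + |y|) * (cosh (y - x))⁻¹)
        + C * ((Icc (-1 : ℝ) 0).indicator (1 : ℝ → ℝ) y * (A + |y|)) := by ring
    _ ≤ C * (128 * (1 + A + |x|) * (1 + (y - x) ^ 2)⁻¹)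
        + C * ((Icc (-1 : ℝ) 0).indicator (1 : ℝ → ℝ) y * (A + 1)) := by gcongr
    _ = _ := by ring

theorem Tf_bound (h : IsBump η) {x₁ x₂ : ℝ} (h12 : x₁ ≤ x₂) {y D : ℝ} (hD : 0 ≤ D)
    (hy : ∀ x ∈ Icc x₁ x₂, D ≤ |x - y|) :
    |Tf η x₁ x₂ y| ≤ h.Cl * (x₂ - x₁) * (cosh D)⁻¹ := by
  unfold Tf
  have := intervalIntegral.norm_integral_le_of_norm_le_const (a := x₁) (b := x₂)
    (f := fun x => lk η x y) (C := h.Cl * (cosh D)⁻¹) (by
      intro x hx
      rw [uIoc_of_le h12] at hx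
      rw [norm_eq_abs]
      refine (h.lk_bound x y).trans ?_
      have h1 := hy x ⟨hx.1.le, hx.2⟩
      have h2 : cosh D ≤ cosh (x - y) := by
        rw [← cosh_abs (x - y)]
        exact (cosh_le_cosh.mpr (by rw [abs_of_nonneg hD, abs_abs]; exact h1))
      have h3 := cosh_pos D
      have h4 := h.Cl_pos
      gcongr)
  rw [norm_eq_abs, abs_of_nonneg (sub_nonneg.mpr h12)] at this
  linarith

/-- Fubini -/
theorem integral_Tf_mul (h : IsBump η) (φ : V) {x₁ x₂ : ℝ} (h12 : x₁ ≤ x₂) :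
    Integrable (fun y => Tf η x₁ x₂ y * φ y) ∧
    ∫ y, Tf η x₁ x₂ y * φ y = ∫ x in x₁..x₂, (h.kb_lk.op φ : ℝ → ℝ) x := by
  have hfin : volume (Ioc x₁ x₂) ≠ ⊤ := by simp
  set ψ : V := indicatorConstLp 2 measurableSet_Ioc hfin (1 : ℝ) with hψ
  have hψae : (ψ : ℝ → ℝ) =ᵐ[volume] (Ioc x₁ x₂).indicator (fun _ => (1 : ℝ)) :=
    indicatorConstLp_coeFn
  have key : ∀ y, ∫ x, lk η x y * φ y * ψ x = Tf η x₁ x₂ y * φ y := by
    intro y
    have e1 : ∫ x, lk η x y * φ y * ψ x
        = ∫ x, (Ioc x₁ x₂).indicator (fun x => lk η x y * φ y) x := by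
      apply integral_congr_ae
      filter_upwards [hψae] with x hx
      rw [hx]
      by_cases hm : x ∈ Ioc x₁ x₂
      · rw [indicator_of_mem hm, indicator_of_mem hm, mul_one]
      · rw [indicator_of_notMem hm, indicator_of_notMem hm, mul_zero]
    rw [e1, integral_indicator measurableSet_Ioc, integral_mul_const]
    unfold Tf
    rw [intervalIntegral.integral_of_le h12]
  constructor
  · have h1 := (h.kb_lk.integrable_prod φ ψ).integral_prod_right
    simp only [key] at h1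
    exact h1
  · have h2 := h.kb_lk.inner_op_swap φ ψ
    simp only [key] at h2
    rw [← h2, inner_eq, intervalIntegral.integral_of_le h12]
    rw [← integral_indicator measurableSet_Ioc]
    apply integral_congr_ae
    filter_upwards [hψae] with x hx
    rw [hx]
    by_cases hm : x ∈ Ioc x₁ x₂
    · rw [indicator_of_mem hm, indicator_of_mem hm, mul_one]
    · rw [indicator_of_notMem hm, indicator_of_notMem hm, mul_zero]

theorem integrable_kk (h : IsBump η) (x : ℝ) : Integrable (fun y => kk η x y) := by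
  have := h.integrable_kk_mul x (g := fun _ => 1) measurable_const (A := 1)
    (fun y => by rw [abs_one]; linarith [abs_nonneg y])
  simpa using this

theorem Tf_primitive (h : IsBump η) {x₁ x₂ : ℝ} (h12 : x₁ < x₂) (c : ℝ) :
    (fun y => Tf η x₁ x₂ y) = fun y => Tf η x₁ x₂ c + ∫ t in c..y, (kk η x₁ t - kk η x₂ t) := by
  funext y
  have hi : IntervalIntegrable (fun t => kk η x₁ t - kk η x₂ t) volume c y :=
    (h.integrable_kk x₁).intervalIntegrable.sub (h.integrable_kk x₂).intervalIntegrable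
  have := integral_eq_of_hasDerivAt_off_countable (fun y => Tf η x₁ x₂ y)
    (fun t => kk η x₁ t - kk η x₂ t) (a := c) (b := y) (s := {x₁, x₂}) (by simp)
    (h.continuous_Tf x₁ x₂).continuousOn (fun t ht => by
      have h2 := ht.2
      simp only [mem_insert_iff, mem_singleton_iff, not_or] at h2
      exact h.hasDerivAt_Tf h12 h2.1 h2.2) hi
  rw [this]
  ring

theorem Tf_ac (h : IsBump η) {x₁ x₂ : ℝ} (h12 : x₁ < x₂) (a b : ℝ) :
    AbsolutelyContinuousOnInterval (fun y => Tf η x₁ x₂ y) a b := by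
  rw [h.Tf_primitive h12 a]
  have hi : IntervalIntegrable (fun t => kk η x₁ t - kk η x₂ t) volume a b :=
    (h.integrable_kk x₁).intervalIntegrable.sub (h.integrable_kk x₂).intervalIntegrable
  have h1 : AbsolutelyContinuousOnInterval (fun _ : ℝ => Tf η x₁ x₂ a) a b :=
    (LipschitzWith.const (Tf η x₁ x₂ a)).lipschitzOnWith.absolutelyContinuousOnInterval
  exact h1.add (hi.absolutelyContinuousOnInterval_intervalIntegral left_mem_uIcc)

end IsBump

theorem prim_ac (φ : V) (c : ℝ) {R : ℝ} (hR : 0 ≤ R) :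
    AbsolutelyContinuousOnInterval (fun y => c + prim φ y) (-R) R := by
  have h1 : AbsolutelyContinuousOnInterval (fun _ : ℝ => c) (-R) R :=
    (LipschitzWith.const c).lipschitzOnWith.absolutelyContinuousOnInterval
  refine h1.add ((ii φ (-R) R).absolutelyContinuousOnInterval_intervalIntegral (c := 0) ?_)
  rw [uIcc_of_le (by linarith)]
  exact ⟨by linarith, hR⟩

theorem prim_deriv (φ : V) (c : ℝ) : ∀ᵐ y, HasDerivAt (fun y => c + prim φ y) (φ y) y := by
  filter_upwards [_root_.LocallyIntegrable.ae_hasDerivAt_integral (locInt φ)] with y hy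
  exact (hy 0).const_add c

theorem prim_bound' (φ : V) (a y : ℝ) : |a + prim φ y| ≤ (|a| + ‖φ‖ ^ 2) + |y| := by
  have := prim_bound φ y
  refine (abs_add_le _ _).trans ?_
  linarith

theorem tendsto_growth (A m : ℝ) (hA : 0 ≤ A) :
    Tendsto (fun R : ℝ => (A + |R|) * (cosh (R - m))⁻¹) atTop (𝓝 0) := by
  have h1 : Tendsto (fun R : ℝ => 128 * (1 + A + |m|) * (1 + (R - m) ^ 2)⁻¹) atTop (𝓝 0) := by
    have h2 : Tendsto (fun t : ℝ => (1 + t ^ 2)⁻¹) atTop (𝓝 0) :=
      tendsto_inv_atTop_zero.comp (tendsto_atTop_add_const_left _ _ (tendsto_pow_atTop two_ne_zero))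
    have h3 : Tendsto (fun R : ℝ => R - m) atTop atTop :=
      tendsto_atTop_add_const_right _ (-m) tendsto_id
    simpa using (h2.comp h3).const_mul (128 * (1 + A + |m|))
  refine squeeze_zero (fun R => ?_) (fun R => growth_cosh A m R hA) h1
  have := inv_pos.mpr (cosh_pos (R - m))
  have := abs_nonneg R
  positivity

namespace IsBump

theorem integral_kk_sub (h : IsBump η) (φ : V) (a : ℝ) {x₁ x₂ : ℝ} (h12 : x₁ < x₂) :
    ∫ y, Tf η x₁ x₂ y * φ y = ∫ y, (kk η x₂ y - kk η x₁ y) * (a + prim φ y) := by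
  set A := |a| + ‖φ‖ ^ 2 with hA
  have hA0 : 0 ≤ A := by positivity
  have hgm : Measurable (fun y => a + prim φ y) := (continuous_const.add (continuous_prim φ)).measurable
  have i1 := h.integrable_kk_mul x₁ hgm (prim_bound' φ a)
  have i2 := h.integrable_kk_mul x₂ hgm (prim_bound' φ a)
  have i3 : Integrable (fun y => (kk η x₂ y - kk η x₁ y) * (a + prim φ y)) := by
    refine (i2.sub i1).congr (Eventually.of_forall fun y => ?_)
    simp only [Pi.sub_apply]
    ring
  have t1 := intervalIntegral_tendsto_integral (h.integral_Tf_mul φ h12.le).1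
    tendsto_neg_atTop_atBot tendsto_id
  have t2 := intervalIntegral_tendsto_integral i3 tendsto_neg_atTop_atBot tendsto_id
  -- integration by parts
  have ibp : ∀ R : ℝ, 0 ≤ R → ∫ y in (-R)..R, Tf η x₁ x₂ y * φ y
      = Tf η x₁ x₂ R * (a + prim φ R) - Tf η x₁ x₂ (-R) * (a + prim φ (-R))
        + ∫ y in (-R)..R, (kk η x₂ y - kk η x₁ y) * (a + prim φ y) := by
    intro R hR
    have h1 := (h.Tf_ac h12 (-R) R).integral_mul_deriv_eq_deriv_mul (prim_ac φ a hR)
    have e1 : ∫ y in (-R)..R, Tf η x₁ x₂ y * deriv (fun y => a + prim φ y) y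
        = ∫ y in (-R)..R, Tf η x₁ x₂ y * φ y := by
      apply intervalIntegral.integral_congr_ae
      filter_upwards [prim_deriv φ a] with y hy _
      rw [hy.deriv]
    have e2 : ∫ y in (-R)..R, deriv (fun y => Tf η x₁ x₂ y) y * (a + prim φ y)
        = -∫ y in (-R)..R, (kk η x₂ y - kk η x₁ y) * (a + prim φ y) := by
      rw [← intervalIntegral.integral_neg]
      apply intervalIntegral.integral_congr_ae
      filter_upwards [ae_ne x₁, ae_ne x₂] with y hy1 hy2 _
      rw [(h.hasDerivAt_Tf h12 hy1 hy2).deriv]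
      ring
    rw [e1, e2] at h1
    rw [h1]
    ring
  -- boundary terms
  set m := max |x₁| |x₂| with hm
  have hx1 : |x₁| ≤ m := le_max_left _ _
  have hx2 : |x₂| ≤ m := le_max_right _ _
  have hTb : ∀ R : ℝ, m ≤ R → ∀ y : ℝ, |y| = R →
      |Tf η x₁ x₂ y * (a + prim φ y)| ≤ h.Cl * (x₂ - x₁) * ((A + |R|) * (cosh (R - m))⁻¹) := by
    intro R hR y hy
    have hR0 : 0 ≤ R := (abs_nonneg _).trans (hx1.trans hR)
    have h1 : |Tf η x₁ x₂ y| ≤ h.Cl * (x₂ - x₁) * (cosh (R - m))⁻¹ := by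
      refine h.Tf_bound h12.le (by linarith) fun x hx => ?_
      have hxm : |x| ≤ m := by
        rw [abs_le]
        constructor
        · have := neg_abs_le x₁; linarith [hx.1]
        · have := le_abs_self x₂; linarith [hx.2]
      have := abs_sub_abs_le_abs_sub y x
      rw [abs_sub_comm x y]
      linarith
    have h2 := prim_bound' φ a y
    rw [abs_mul]
    have h3 := h.Cl_pos
    have h4 : 0 ≤ x₂ - x₁ := by linarith
    have h5 : 0 ≤ (cosh (R - m))⁻¹ := (inv_pos.mpr (cosh_pos _)).le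
    calc |Tf η x₁ x₂ y| * |a + prim φ y|
        ≤ (h.Cl * (x₂ - x₁) * (cosh (R - m))⁻¹) * (A + |y|) := by gcongr
      _ = _ := by rw [hy, abs_of_nonneg hR0]; ring
  have hlim : Tendsto (fun R : ℝ => h.Cl * (x₂ - x₁) * ((A + |R|) * (cosh (R - m))⁻¹)) atTop
      (𝓝 0) := by
    simpa using (tendsto_growth A m hA0).const_mul (h.Cl * (x₂ - x₁))
  have b1 : Tendsto (fun R : ℝ => Tf η x₁ x₂ R * (a + prim φ R)) atTop (𝓝 0) := by
    refine squeeze_zero_norm' ?_ hlim
    filter_upwards [eventually_ge_atTop m] with R hR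
    have hR0 : 0 ≤ R := (abs_nonneg _).trans (hx1.trans hR)
    exact hTb R hR R (abs_of_nonneg hR0)
  have b2 : Tendsto (fun R : ℝ => Tf η x₁ x₂ (-R) * (a + prim φ (-R))) atTop (𝓝 0) := by
    refine squeeze_zero_norm' ?_ hlim
    filter_upwards [eventually_ge_atTop m] with R hR
    have hR0 : 0 ≤ R := (abs_nonneg _).trans (hx1.trans hR)
    exact hTb R hR (-R) (by rw [abs_neg]; exact abs_of_nonneg hR0)
  have t3 := (b1.sub b2).add t2
  rw [sub_zero, zero_add] at t3
  refine tendsto_nhds_unique t1 (t3.congr' ?_)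
  filter_upwards [eventually_ge_atTop 0] with R hR
  exact (ibp R hR).symm

/-- the fundamental relation between `kk` and `lk` -/
theorem integral_kk_diff (h : IsBump η) (φ : V) (a : ℝ) {x₁ x₂ : ℝ} (h12 : x₁ < x₂) :
    (∫ y, kk η x₂ y * (a + prim φ y)) - ∫ y, kk η x₁ y * (a + prim φ y)
      = ∫ x in x₁..x₂, (h.kb_lk.op φ : ℝ → ℝ) x := by
  have hgm : Measurable (fun y => a + prim φ y) := (continuous_const.add (continuous_prim φ)).measurable
  have i1 := h.integrable_kk_mul x₁ hgm (prim_bound' φ a)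
  have i2 := h.integrable_kk_mul x₂ hgm (prim_bound' φ a)
  rw [← (h.integral_Tf_mul φ h12.le).2, h.integral_kk_sub φ a h12, ← integral_sub i2 i1]
  congr 1
  funext y
  ring

theorem integral_kk_eigen (h : IsBump η) {φ : V} {μ : ℝ} (hφ : h.kb_lk.op φ = μ • φ) (a x : ℝ) :
    ∫ y, kk η x y * (a + prim φ y) = (∫ y, kk η 0 y * (a + prim φ y)) + μ * prim φ x := by
  have key : ∀ x₁ x₂ : ℝ, x₁ < x₂ → (∫ y, kk η x₂ y * (a + prim φ y))
      - ∫ y, kk η x₁ y * (a + prim φ y) = μ * (prim φ x₂ - prim φ x₁) := by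
    intro x₁ x₂ h12
    rw [h.integral_kk_diff φ a h12, hφ, prim_sub]
    rw [← intervalIntegral.integral_const_mul]
    apply intervalIntegral.integral_congr_ae
    filter_upwards [Lp.coeFn_smul μ φ] with y hy _
    rw [hy]
    rfl
  have h0 : prim φ 0 = 0 := by unfold prim; simp
  rcases lt_trichotomy x 0 with hx | hx | hx
  · have := key x 0 hx
    rw [h0] at this
    linarith
  · rw [hx, h0]; ring
  · have := key 0 x hx
    rw [h0] at this
    linarith

end IsBump

end Pool.Agent.Helper59.NP
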