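import Pool.Agent.Helper59.NP.Jump

set_option autoImplicit false
open Real MeasureTheory Set Filter Topology

namespace Pool.Agent.Helper59.NP

variable {η : ℝ → ℝ}

namespace IsBump

theorem Af_lipschitz (h : IsBump η) {M : ℝ} (hM : ∀ x, |gam' η x| ≤ M) {x y s z ε : ℝ}
    (h0 : 0 ≤ s) (h1 : s ≤ 1) (hε : 0 < ε) (hxy : 2 * ε ≤ |x - y|) (hz : |z - y| ≤ ε) :
    |Af η x s z - Af η x s y| ≤ 2 * (1 + M) * (1 + 1 / ε) * |z - y| := by
  have hM0 : 0 ≤ M := (abs_nonneg _).trans (hM 0)
  have key : ∀ w ∈ uIcc y z, w ≠ x ∧ ε ≤ |w - x| := by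
    intro w hw
    have h2 : |w - y| ≤ ε := (abs_sub_left_of_mem_uIcc hw).trans hz
    have h3 : |x - y| ≤ |x - w| + |w - y| := abs_sub_le x w y
    have h4 : ε ≤ |w - x| := by rw [abs_sub_comm]; linarith
    refine ⟨?_, h4⟩
    intro h5
    rw [h5, sub_self, abs_zero] at h4
    linarith
  have := Convex.norm_image_sub_le_of_norm_hasDerivWithin_le
      (f := fun z => Af η x s z) (f' := fun z => Pp η x s z + s * gam' η z * Qp η x s z)
      (s := uIcc y z) (x := y) (y := z) (C := 2 * (1 + M) * (1 + 1 / ε))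
      (fun w hw => (h.hasDerivAt_Af_z (gd_of_ne (key w hw).1)).hasDerivWithinAt)
      (fun w hw => by
        rw [norm_eq_abs]
        refine (abs_dAf_le hM h0 h1 (key w hw).1).trans ?_
        have := (key w hw).2
        gcongr) (convex_uIcc y z) left_mem_uIcc right_mem_uIcc
  rw [norm_eq_abs, norm_eq_abs] at this
  exact this

theorem meas_slice (h : IsBump η) (x s : ℝ) : Measurable (fun z => Af η x s z) := by
  have h1 := h.continuous_gam.measurable
  have h2 := continuous_cosh.measurable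
  have h3 := continuous_cos.measurable
  unfold Af lg N
  fun_prop

theorem meas_slice_B (h : IsBump η) (x s : ℝ) : Measurable (fun z => Bf η x s z) := by
  have h1 := h.continuous_gam.measurable
  have h1' := h.continuous_gam'.measurable
  have h2 := continuous_cosh.measurable
  have h3 := continuous_cos.measurable
  have h4 := continuous_sinh.measurable
  have h5 := continuous_sin.measurable
  unfold Bf Qp Pp pp qq N
  fun_prop

/-- the dominated part -/
theorem bound_dAB (h : IsBump η) {M : ℝ} (hM : ∀ x, |gam' η x| ≤ M) {x y ε L : ℝ}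
    (hε : 0 < ε) (hxy : 2 * ε ≤ |x - y|) {s z : ℝ} (h0 : 0 ≤ s) (h1 : s ≤ 1)
    (hzx : z ≠ x) (hzL : |z - y| ≤ L) :
    |(Af η x s z - Af η x s y) * Bf η y s z| ≤
      2 * (1 + M) * (1 + 1 / ε) * (2 * (1 + M) * (L + 1))
        + (HG (z - x) + HG (y - x)) * (2 * (1 + M) * (1 + 1 / ε)) := by
  have hM0 : 0 ≤ M := (abs_nonneg _).trans (hM 0)
  have hL0 : 0 ≤ L := (abs_nonneg _).trans hzL
  have hyx : y ≠ x := by
    intro h5
    rw [h5, sub_self, abs_zero] at hxy
    linarith
  have hG1 := HG_nonneg (z - x)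
  have hG2 := HG_nonneg (y - x)
  rw [abs_mul]
  rcases eq_or_ne z y with heq | hne
  · rw [heq, sub_self, abs_zero, zero_mul]
    positivity
  have hB := abs_Bf_le hM h0 h1 hne
  have hzy : 0 < |z - y| := abs_pos.mpr (sub_ne_zero.mpr hne)
  by_cases hc : |z - y| ≤ ε
  · have hA := h.Af_lipschitz hM h0 h1 hε hxy hc
    have h3 : |Af η x s z - Af η x s y| * |Bf η y s z| ≤
        (2 * (1 + M) * (1 + 1 / ε) * |z - y|) * (2 * (1 + M) * (1 + 1 / |z - y|)) := by gcongr
    have h4 : (2 * (1 + M) * (1 + 1 / ε) * |z - y|) * (2 * (1 + M) * (1 + 1 / |z - y|))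
        = 2 * (1 + M) * (1 + 1 / ε) * (2 * (1 + M) * (|z - y| + 1)) := by
      field_simp
    rw [h4] at h3
    have h5 : 2 * (1 + M) * (1 + 1 / ε) * (2 * (1 + M) * (|z - y| + 1))
        ≤ 2 * (1 + M) * (1 + 1 / ε) * (2 * (1 + M) * (L + 1)) := by gcongr
    have h6 : 0 ≤ (HG (z - x) + HG (y - x)) * (2 * (1 + M) * (1 + 1 / ε)) := by positivity
    linarith
  · push Not at hc
    have hA1 := h.abs_Af_le h0 h1 hzx
    have hA2 := h.abs_Af_le (x := x) (z := y) h0 h1 hyx
    have hA : |Af η x s z - Af η x s y| ≤ HG (z - x) + HG (y - x) :=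
      (abs_sub _ _).trans (add_le_add hA1 hA2)
    have hB2 : |Bf η y s z| ≤ 2 * (1 + M) * (1 + 1 / ε) := by
      refine hB.trans ?_
      gcongr
    have h3 : |Af η x s z - Af η x s y| * |Bf η y s z| ≤
        (HG (z - x) + HG (y - x)) * (2 * (1 + M) * (1 + 1 / ε)) := by gcongr
    have h6 : 0 ≤ 2 * (1 + M) * (1 + 1 / ε) * (2 * (1 + M) * (L + 1)) := by positivity
    linarith

theorem bound_integrable (x a b C D E : ℝ) :
    IntervalIntegrable (fun z => C + (HG (z - x) + D) * E) volume a b := by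
  refine intervalIntegrable_const.add (IntervalIntegrable.mul_const ?_ E)
  refine IntervalIntegrable.add ?_ intervalIntegrable_const
  exact (HG_integrable.comp_sub_right x).intervalIntegrable

theorem ae_ne (x : ℝ) : ∀ᵐ z : ℝ, z ≠ x := by
  simp [ae_iff, measure_singleton]

theorem intervalIntegrable_dAB (h : IsBump η) {x y : ℝ} (hxy : x ≠ y) {s : ℝ} (h0 : 0 ≤ s)
    (h1 : s ≤ 1) (a b : ℝ) :
    IntervalIntegrable (fun z => (Af η x s z - Af η x s y) * Bf η y s z) volume a b := by
  obtain ⟨M, hM0, hM, -, -⟩ := h.exists_bound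
  have hε : 0 < |x - y| / 2 := by
    have := abs_pos.mpr (sub_ne_zero.mpr hxy)
    positivity
  refine (bound_integrable x a b _ _ _).mono_fun'
    (((h.meas_slice x s).sub_const _).mul (h.meas_slice_B y s)).aestronglyMeasurable
    (g := fun z => 2 * (1 + M) * (1 + 1 / (|x - y| / 2)) * (2 * (1 + M) * ((|a - y| + |b - y|) + 1))
        + (HG (z - x) + HG (y - x)) * (2 * (1 + M) * (1 + 1 / (|x - y| / 2)))) ?_
  filter_upwards [ae_restrict_of_ae (ae_ne x), ae_restrict_mem measurableSet_uIoc] with z hz hz2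
  rw [norm_eq_abs]
  refine h.bound_dAB hM hε (by linarith) h0 h1 hz ?_
  have h3 := uIoc_subset_uIcc hz2
  rcases le_total a b with hab | hab
  · rw [uIcc_of_le hab] at h3
    rw [abs_le]
    constructor
    · have := neg_abs_le (a - y); have := abs_nonneg (b - y); linarith [h3.1]
    · have := le_abs_self (b - y); have := abs_nonneg (a - y); linarith [h3.2]
  · rw [uIcc_of_ge hab] at h3
    rw [abs_le]
    constructor
    · have := neg_abs_le (b - y); have := abs_nonneg (a - y); linarith [h3.1]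
    · have := le_abs_self (a - y); have := abs_nonneg (b - y); linarith [h3.2]

theorem tendsto_dAB (h : IsBump η) {x y : ℝ} (hxy : x ≠ y) (a b : ℝ) :
    Tendsto (fun s => ∫ z in a..b, (Af η x s z - Af η x s y) * Bf η y s z) (𝓝[<] 1)
      (𝓝 (∫ z in a..b, (Af η x 1 z - Af η x 1 y) * Bf η y 1 z)) := by
  obtain ⟨M, hM0, hM, -, -⟩ := h.exists_bound
  have hε : 0 < |x - y| / 2 := by
    have := abs_pos.mpr (sub_ne_zero.mpr hxy)
    positivity
  refine intervalIntegral.tendsto_integral_filter_of_dominated_convergence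
    (fun z => 2 * (1 + M) * (1 + 1 / (|x - y| / 2)) * (2 * (1 + M) * ((|a - y| + |b - y|) + 1))
        + (HG (z - x) + HG (y - x)) * (2 * (1 + M) * (1 + 1 / (|x - y| / 2)))) ?_ ?_
    (bound_integrable x a b _ _ _) ?_
  · exact Eventually.of_forall fun s =>
      (((h.meas_slice x s).sub_const _).mul (h.meas_slice_B y s)).aestronglyMeasurable
  · have hs : ∀ᶠ s : ℝ in 𝓝[<] 1, s ∈ Ioo (0 : ℝ) 1 := Ioo_mem_nhdsLT zero_lt_one
    filter_upwards [hs] with s hs
    filter_upwards [ae_ne x] with z hz hz2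
    rw [norm_eq_abs]
    refine h.bound_dAB hM hε (by linarith) hs.1.le hs.2.le hz ?_
    have h3 := uIoc_subset_uIcc hz2
    rcases le_total a b with hab | hab
    · rw [uIcc_of_le hab] at h3
      rw [abs_le]
      constructor
      · have := neg_abs_le (a - y); have := abs_nonneg (b - y); linarith [h3.1]
      · have := le_abs_self (b - y); have := abs_nonneg (a - y); linarith [h3.2]
    · rw [uIcc_of_ge hab] at h3
      rw [abs_le]
      constructor
      · have := neg_abs_le (b - y); have := abs_nonneg (a - y); linarith [h3.1]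
      · have := le_abs_self (a - y); have := abs_nonneg (b - y); linarith [h3.2]
  · filter_upwards [ae_ne x, ae_ne y] with z hzx hzy _
    have c1 : ContinuousAt (fun s => Af η x s z) 1 :=
      (hasDerivAt_Af_s (gd_of_ne hzx)).continuousAt
    have c2 : ContinuousAt (fun s => Af η x s y) 1 :=
      (hasDerivAt_Af_s (gd_of_ne hxy.symm)).continuousAt
    have c3 : ContinuousAt (fun s => Bf η y s z) 1 :=
      (hasDerivAt_Bf_s (gd_of_ne hzy)).continuousAt
    exact (((c1.sub c2).mul c3).tendsto).mono_left nhdsWithin_le_nhds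

/-- the jump relation -/
theorem tendsto_AB (h : IsBump η) {x y : ℝ} (hxy : x ≠ y) {a b : ℝ} (ha : a < y) (hb : y < b) :
    Tendsto (fun s => ∫ z in a..b, Af η x s z * Bf η y s z) (𝓝[<] 1)
      (𝓝 ((∫ z in a..b, Af η x 1 z * Bf η y 1 z) - π * Af η x 1 y)) := by
  have h1 := h.tendsto_dAB hxy a b
  have c2 : Tendsto (fun s => Af η x s y) (𝓝[<] 1) (𝓝 (Af η x 1 y)) :=
    (hasDerivAt_Af_s (gd_of_ne hxy.symm)).continuousAt.tendsto.mono_left nhdsWithin_le_nhds
  have c3 : Tendsto (fun s => If η y s b - If η y s a) (𝓝[<] 1)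
      (𝓝 (If η y 1 b - If η y 1 a)) :=
    ((h.continuousAt_If_s hb.ne').sub (h.continuousAt_If_s ha.ne)).tendsto.mono_left
      nhdsWithin_le_nhds
  have h2 := h1.add (c2.mul c3)
  have e1 : (∫ z in a..b, (Af η x 1 z - Af η x 1 y) * Bf η y 1 z)
      + Af η x 1 y * (If η y 1 b - If η y 1 a)
      = (∫ z in a..b, Af η x 1 z * Bf η y 1 z) - π * Af η x 1 y := by
    have e2 : ∫ z in a..b, Af η x 1 z * Bf η y 1 z
        = (∫ z in a..b, (Af η x 1 z - Af η x 1 y) * Bf η y 1 z)
          + ∫ z in a..b, Af η x 1 y * Bf η y 1 z := by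
      rw [← intervalIntegral.integral_add (h.intervalIntegrable_dAB hxy zero_le_one le_rfl a b)
        ((h.intervalIntegrable_Bf_one y a b).const_mul _)]
      congr 1
      funext z
      ring
    rw [e2, intervalIntegral.integral_const_mul, h.integral_Bf_one ha hb]
    ring
  rw [← e1]
  refine h2.congr' ?_
  have hs : ∀ᶠ s : ℝ in 𝓝[<] 1, s ∈ Ioo (0 : ℝ) 1 := Ioo_mem_nhdsLT zero_lt_one
  filter_upwards [hs] with s hs
  have e2 : ∫ z in a..b, Af η x s z * Bf η y s z
      = (∫ z in a..b, (Af η x s z - Af η x s y) * Bf η y s z)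
        + ∫ z in a..b, Af η x s y * Bf η y s z := by
    rw [← intervalIntegral.integral_add (h.intervalIntegrable_dAB hxy hs.1.le hs.2.le a b)
      ((h.intervalIntegrable_Bf y hs.1.le hs.2 a b).const_mul _)]
    congr 1
    funext z
    ring
  rw [e2, intervalIntegral.integral_const_mul, h.integral_Bf y hs.1.le hs.2]

theorem intervalIntegrable_AB (h : IsBump η) {x y : ℝ} (hxy : x ≠ y) {s : ℝ} (h0 : 0 ≤ s)
    (h1 : s ≤ 1) (a b : ℝ) :
    IntervalIntegrable (fun z => Af η x s z * Bf η y s z) volume a b := by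
  have hB : IntervalIntegrable (fun z => Bf η y s z) volume a b := by
    rcases h1.lt_or_eq with h2 | h2
    · exact h.intervalIntegrable_Bf y h0 h2 a b
    · rw [h2]; exact h.intervalIntegrable_Bf_one y a b
  have := (h.intervalIntegrable_dAB hxy h0 h1 a b).add (hB.const_mul (Af η x s y))
  refine this.congr (fun z _ => ?_)
  ring

theorem Af_one_symm (h : IsBump η) (x y : ℝ) : Af η x 1 y = Af η y 1 x := by
  rw [h.Af_one, h.Af_one]
  unfold Gk lg
  rw [← N_neg (x - y), ← N_neg (x - y) (gam η x - gam η y),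
    ← N_neg' (-(x - y)) (gam η x - gam η y), neg_sub, neg_sub, add_comm (gam η x)]

theorem tendsto_Ef (h : IsBump η) {x y : ℝ} (hxy : x ≠ y) {a b : ℝ} (ha : a < y) (hb : y < b)
    (ha' : a < x) (hb' : x < b) :
    Tendsto (fun s => ∫ z in a..b, Ef η x y s z) (𝓝[<] 1) (𝓝 (∫ z in a..b, Ef η x y 1 z)) := by
  have h1 := h.tendsto_AB hxy ha hb
  have h2 := h.tendsto_AB hxy.symm ha' hb'
  have h3 := h1.sub h2
  have e : ∀ s : ℝ, 0 ≤ s → s ≤ 1 → ∫ z in a..b, Ef η x y s z
      = (∫ z in a..b, Af η x s z * Bf η y s z) - ∫ z in a..b, Af η y s z * Bf η x s z := by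
    intro s h0 h1
    rw [← intervalIntegral.integral_sub (h.intervalIntegrable_AB hxy h0 h1 a b)
      (h.intervalIntegrable_AB hxy.symm h0 h1 a b)]
    rfl
  rw [e 1 zero_le_one le_rfl]
  have e5 : (∫ z in a..b, Af η x 1 z * Bf η y 1 z) - π * Af η x 1 y
      - ((∫ z in a..b, Af η y 1 z * Bf η x 1 z) - π * Af η y 1 x)
      = (∫ z in a..b, Af η x 1 z * Bf η y 1 z) - ∫ z in a..b, Af η y 1 z * Bf η x 1 z := by
    rw [h.Af_one_symm x y]
    ring
  rw [e5] at h3
  refine h3.congr' ?_
  have hs : ∀ᶠ s : ℝ in 𝓝[<] 1, s ∈ Ioo (0 : ℝ) 1 := Ioo_mem_nhdsLT zero_lt_one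
  filter_upwards [hs] with s hs
  exact (e s hs.1.le hs.2.le).symm

/-- `Rf` is small far away -/
theorem abs_Rf_le (h : IsBump η) {x y s z : ℝ} (h0 : 0 ≤ s) (h1 : s ≤ 1)
    (hx : 1 ≤ |z - x|) (hy : 1 ≤ |z - y|) :
    |Rf η x y s z| ≤ 4 * (HG (z - x) + HG (z - y)) := by
  have hx0 : z ≠ x := by
    intro h2; rw [h2, sub_self, abs_zero] at hx; linarith
  have hy0 : z ≠ y := by
    intro h2; rw [h2, sub_self, abs_zero] at hy; linarith
  have hA1 := h.abs_Af_le h0 h1 hx0
  have hA2 := h.abs_Af_le h0 h1 hy0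
  have hP1 := abs_Pp_le (η := η) (s := s) hx0
  have hP2 := abs_Pp_le (η := η) (s := s) hy0
  have hg := h.gam_le' z
  have hg' := h.gam_ge' z
  have hG1 := HG_nonneg (z - x)
  have hG2 := HG_nonneg (z - y)
  have h5 : 1 / |z - x| ≤ 1 := by rw [div_le_one (by linarith)]; exact hx
  have h6 : 1 / |z - y| ≤ 1 := by rw [div_le_one (by linarith)]; exact hy
  have hC : ∀ w, w ≠ z → 1 / |z - w| ≤ 1 → |Cf η w s z| ≤ 4 := by
    intro w hw hw2
    unfold Cf
    have hP := abs_Pp_le (η := η) (s := s) hw.symm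
    rw [abs_mul, abs_of_nonneg (by linarith : 0 ≤ gam η z)]
    calc gam η z * |Pp η w s z| ≤ 1 * (2 * (1 + 1)) := by
          gcongr
          · linarith
          · linarith
      _ = 4 := by norm_num
  unfold Rf
  refine (abs_sub _ _).trans ?_
  rw [abs_mul, abs_mul]
  have h7 := hC y hy0.symm h6
  have h8 := hC x hx0.symm h5
  have h9 : |Af η x s z| * |Cf η y s z| ≤ HG (z - x) * 4 := by gcongr
  have h10 : |Af η y s z| * |Cf η x s z| ≤ HG (z - y) * 4 := by gcongr
  linarith

theorem tendsto_HG_atTop : Tendsto HG atTop (𝓝 0) := by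
  have h1 : Tendsto (fun t : ℝ => 3 * (2 * (1 + t ^ 2)⁻¹)) atTop (𝓝 0) := by
    have h2 : Tendsto (fun t : ℝ => (1 + t ^ 2)⁻¹) atTop (𝓝 0) :=
      tendsto_inv_atTop_zero.comp (tendsto_atTop_add_const_left _ _ (tendsto_pow_atTop two_ne_zero))
    simpa using (h2.const_mul 2).const_mul 3
  refine squeeze_zero' (Eventually.of_forall HG_nonneg) ?_ h1
  filter_upwards [eventually_ge_atTop 1] with t ht
  have habs : 1 ≤ |t| := by rw [abs_of_nonneg (by linarith)]; exact ht
  have hch := cosh_sub_one_ge' habs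
  have hchp := cosh_pos t
  have h2 : 0 < cosh t - 1 := by linarith [cosh_ge_of_one_le habs]
  have h3 := Real.log_le_sub_one_of_pos (show (0:ℝ) < 1 + 1 / (cosh t - 1) by positivity)
  have h4 : 1 / (cosh t - 1) ≤ 3 * (cosh t)⁻¹ := by
    rw [← div_eq_mul_inv, div_le_div_iff₀ h2 hchp]; linarith
  have h5 := inv_cosh_le t
  have h6 : 0 ≤ (cosh t)⁻¹ := by positivity
  unfold HG
  linarith

theorem integral_Ef_one (h : IsBump η) {x y : ℝ} (hxy : x ≠ y) :
    ∫ z, Ef η x y 1 z = 0 := by
  -- integrability on the line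
  have hM : ∀ t, HL h.Cl t ≤ h.Cl := fun t => HL_le h.Cl_pos.le t
  have mG : Measurable (fun p : ℝ × ℝ => Gk η p.1 p.2) := h.gk_meas
  have ml : Measurable (fun p : ℝ × ℝ => lk η p.1 p.2) := h.lk_meas
  have hint : ∀ x y : ℝ, Integrable (fun z => Af η x 1 z * Bf η y 1 z) := by
    intro x y
    have hm : Measurable (fun z => Af η x 1 z * Bf η y 1 z) :=
      (h.meas_slice x 1).mul (h.meas_slice_B y 1)
    have hi : Integrable (fun z => HG (x - z) * (2 * π * h.Cl)) :=
      (HG_integrable.comp_sub_left x).mul_const _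
    refine hi.mono' hm.aestronglyMeasurable (Eventually.of_forall fun z => ?_)
    rw [norm_mul, norm_eq_abs, norm_eq_abs, h.Af_one, h.Bf_one, abs_mul, abs_neg,
      abs_of_nonneg (by positivity : 0 ≤ 2 * π)]
    have h1 := h.Gk_bound x z
    have h2 := (h.lk_bound z y).trans (hM _)
    have h3 := HG_nonneg (x - z)
    gcongr
  have hE : Integrable (fun z => Ef η x y 1 z) := (hint x y).sub (hint y x)
  have htend := intervalIntegral_tendsto_integral hE (tendsto_neg_atTop_atBot) tendsto_id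
  -- bound
  have hsmall : Tendsto (fun T : ℝ => (4 * (HG (T - x) + HG (T - y)))
      + (4 * (HG (-T - x) + HG (-T - y)))) atTop (𝓝 0) := by
    have t1 : ∀ w : ℝ, Tendsto (fun T : ℝ => HG (T - w)) atTop (𝓝 0) := fun w =>
      tendsto_HG_atTop.comp (tendsto_atTop_add_const_right _ (-w) tendsto_id)
    have t2 : ∀ w : ℝ, Tendsto (fun T : ℝ => HG (-T - w)) atTop (𝓝 0) := fun w => by
      have : (fun T : ℝ => HG (-T - w)) = fun T => HG (T + w) := by
        funext T
        rw [← HG_even]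
        congr 1
        ring
      rw [this]
      exact tendsto_HG_atTop.comp (tendsto_atTop_add_const_right _ w tendsto_id)
    have := (((t1 x).add (t1 y)).const_mul 4).add (((t2 x).add (t2 y)).const_mul 4)
    simpa using this
  have hbd : ∀ᶠ T : ℝ in atTop, ‖∫ z in (-T)..T, Ef η x y 1 z‖ ≤
      (4 * (HG (T - x) + HG (T - y))) + (4 * (HG (-T - x) + HG (-T - y))) := by
    filter_upwards [eventually_ge_atTop (|x| + |y| + 1)] with T hT
    have hx1 := le_abs_self x
    have hx2 := neg_abs_le x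
    have hy1 := le_abs_self y
    have hy2 := neg_abs_le y
    have hx0 := abs_nonneg x
    have hy0 := abs_nonneg y
    have hlim := (h.tendsto_Ef hxy (a := -T) (b := T) (by linarith) (by linarith) (by linarith)
      (by linarith)).norm
    refine le_of_tendsto hlim ?_
    have hs : ∀ᶠ s : ℝ in 𝓝[<] 1, s ∈ Ioo (0 : ℝ) 1 := Ioo_mem_nhdsLT zero_lt_one
    filter_upwards [hs] with s hs
    rw [h.integral_Ef x y (by linarith) hs.1.le hs.2]
    have hG : 0 ≤ (4 * (HG (T - x) + HG (T - y))) + (4 * (HG (-T - x) + HG (-T - y))) := by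
      have := HG_nonneg (T - x); have := HG_nonneg (T - y)
      have := HG_nonneg (-T - x); have := HG_nonneg (-T - y)
      positivity
    have h8 := intervalIntegral.norm_integral_le_of_norm_le_const (a := 0) (b := s)
      (f := fun s => Rf η x y s T - Rf η x y s (-T))
      (C := (4 * (HG (T - x) + HG (T - y))) + (4 * (HG (-T - x) + HG (-T - y)))) (by
        intro r hr
        rw [uIoc_of_le hs.1.le] at hr
        have hr1 : r ≤ 1 := hr.2.trans hs.2.le
        rw [norm_eq_abs]
        refine (abs_sub _ _).trans (add_le_add ?_ ?_)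
        · refine h.abs_Rf_le hr.1.le hr1 ?_ ?_
          · rw [abs_of_nonneg (by linarith)]; linarith
          · rw [abs_of_nonneg (by linarith)]; linarith
        · refine h.abs_Rf_le hr.1.le hr1 ?_ ?_
          · rw [abs_of_nonpos (by linarith)]; linarith
          · rw [abs_of_nonpos (by linarith)]; linarith)
    refine h8.trans ?_
    rw [sub_zero, abs_of_nonneg hs.1.le]
    exact mul_le_of_le_one_right hG hs.2.le
  have h0 : Tendsto (fun T : ℝ => ∫ z in (-T)..T, Ef η x y 1 z) atTop (𝓝 0) :=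
    squeeze_zero_norm' hbd hsmall
  exact tendsto_nhds_unique htend h0

theorem kcomp_symm (h : IsBump η) {x y : ℝ} (hxy : x ≠ y) :
    kcomp (Gk η) (lk η) x y = kcomp (Gk η) (lk η) y x := by
  have h1 := h.integral_Ef_one hxy
  have hM : ∀ t, HL h.Cl t ≤ h.Cl := fun t => HL_le h.Cl_pos.le t
  have mG : Measurable (fun p : ℝ × ℝ => Gk η p.1 p.2) := h.gk_meas
  have ml : Measurable (fun p : ℝ × ℝ => lk η p.1 p.2) := h.lk_meas
  have hint : ∀ x y : ℝ, Integrable (fun z => Gk η x z * lk η z y) := by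
    intro x y
    have m1 : Measurable (fun z => Gk η x z) := by
      have m2 : Measurable fun z : ℝ => (x, z) := by fun_prop
      have m3 := mG.comp m2
      exact m3
    have m4 : Measurable (fun z => lk η z y) := by
      have m2 : Measurable fun z : ℝ => (z, y) := by fun_prop
      have m3 := ml.comp m2
      exact m3
    have hi : Integrable (fun z => HG (x - z) * h.Cl) :=
      (HG_integrable.comp_sub_left x).mul_const _
    refine hi.mono' (m1.mul m4).aestronglyMeasurable (Eventually.of_forall fun z => ?_)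
    rw [norm_mul, norm_eq_abs, norm_eq_abs]
    have h1 := h.Gk_bound x z
    have h2 := (h.lk_bound z y).trans (hM _)
    have h3 := HG_nonneg (x - z)
    gcongr
  have e : (fun z => Ef η x y 1 z) = fun z => -(2 * π) * (Gk η x z * lk η z y)
      - -(2 * π) * (Gk η y z * lk η z x) := by
    funext z
    unfold Ef
    rw [h.Af_one, h.Bf_one, h.Af_one, h.Bf_one]
    ring
  rw [e, integral_sub ((hint x y).const_mul _) ((hint y x).const_mul _), integral_const_mul,
    integral_const_mul] at h1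
  unfold kcomp
  have := pi_pos
  have h2 : -(2 * π) * ((∫ z, Gk η x z * lk η z y) - ∫ z, Gk η y z * lk η z x) = 0 := by
    linarith
  have h3 := (mul_eq_zero.mp h2).resolve_left (by linarith)
  linarith

end IsBump

end Pool.Agent.Helper59.NP
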