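import Pool.Agent.Helper59.NP.KerInst

set_option autoImplicit false
open Real MeasureTheory Set Filter Topology

namespace Pool.Agent.Helper59.NP

/-! ### elementary continuity -/

section cont

variable {α : Type*} [TopologicalSpace α] {X θ : α → ℝ} {S : Set α}

theorem continuous_N (hX : Continuous X) (hθ : Continuous θ) :
    Continuous (fun p => N (X p) (θ p)) := by
  unfold N
  exact (continuous_cosh.comp hX).sub (continuous_cos.comp hθ)

theorem continuousOn_lg (hX : Continuous X) (hθ : Continuous θ) (h : ∀ p ∈ S, N (X p) (θ p) ≠ 0) :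
    ContinuousOn (fun p => lg (X p) (θ p)) S := by
  unfold lg
  exact ((continuous_N hX hθ).continuousOn.log h).const_mul _ |>.congr fun p _ => rfl

theorem continuousOn_pp (hX : Continuous X) (hθ : Continuous θ) (h : ∀ p ∈ S, N (X p) (θ p) ≠ 0) :
    ContinuousOn (fun p => pp (X p) (θ p)) S := by
  unfold pp
  refine ContinuousOn.div (continuous_sinh.comp hX).continuousOn
    ((continuous_N hX hθ).const_mul 2).continuousOn fun p hp => ?_
  have := h p hp
  positivity

theorem continuousOn_qq (hX : Continuous X) (hθ : Continuous θ) (h : ∀ p ∈ S, N (X p) (θ p) ≠ 0) :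
    ContinuousOn (fun p => qq (X p) (θ p)) S := by
  unfold qq
  refine ContinuousOn.div (continuous_sin.comp hθ).continuousOn
    ((continuous_N hX hθ).const_mul 2).continuousOn fun p hp => ?_
  have := h p hp
  positivity

theorem continuousOn_UU (hX : Continuous X) (hθ : Continuous θ) (h : ∀ p ∈ S, N (X p) (θ p) ≠ 0) :
    ContinuousOn (fun p => UU (X p) (θ p)) S := by
  unfold UU
  refine ContinuousOn.div
    (continuous_const.sub ((continuous_cosh.comp hX).mul (continuous_cos.comp hθ))).continuousOn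
    (((continuous_N hX hθ).pow 2).const_mul 2).continuousOn fun p hp => ?_
  have := h p hp
  positivity

theorem continuousOn_WW (hX : Continuous X) (hθ : Continuous θ) (h : ∀ p ∈ S, N (X p) (θ p) ≠ 0) :
    ContinuousOn (fun p => WW (X p) (θ p)) S := by
  unfold WW
  refine ContinuousOn.div
    ((continuous_sinh.comp hX).mul (continuous_sin.comp hθ)).continuousOn
    (((continuous_N hX hθ).pow 2).const_mul 2).continuousOn fun p hp => ?_
  have := h p hp
  positivity

end cont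

/-! ### the functions along the path -/

noncomputable def Af (η : ℝ → ℝ) (x s z : ℝ) : ℝ :=
  lg (z - x) (s * gam η z + gam η x) - lg (z - x) (s * gam η z - gam η x)

noncomputable def Pp (η : ℝ → ℝ) (x s z : ℝ) : ℝ :=
  pp (z - x) (s * gam η z + gam η x) - pp (z - x) (s * gam η z - gam η x)

noncomputable def Qp (η : ℝ → ℝ) (x s z : ℝ) : ℝ :=
  qq (z - x) (s * gam η z + gam η x) - qq (z - x) (s * gam η z - gam η x)

noncomputable def Up (η : ℝ → ℝ) (x s z : ℝ) : ℝ :=
  UU (z - x) (s * gam η z + gam η x) - UU (z - x) (s * gam η z - gam η x)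

noncomputable def Wp (η : ℝ → ℝ) (x s z : ℝ) : ℝ :=
  WW (z - x) (s * gam η z + gam η x) - WW (z - x) (s * gam η z - gam η x)

noncomputable def Bf (η : ℝ → ℝ) (y s z : ℝ) : ℝ := -Qp η y s z + s * gam' η z * Pp η y s z

noncomputable def Cf (η : ℝ → ℝ) (y s z : ℝ) : ℝ := gam η z * Pp η y s z

noncomputable def Bs (η : ℝ → ℝ) (y s z : ℝ) : ℝ :=
  gam' η z * Pp η y s z + gam η z * (Up η y s z - s * gam' η z * Wp η y s z)

/-- nondegeneracy -/
def Gd (η : ℝ → ℝ) (x s z : ℝ) : Prop :=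
  N (z - x) (s * gam η z + gam η x) ≠ 0 ∧ N (z - x) (s * gam η z - gam η x) ≠ 0

variable {η : ℝ → ℝ}

namespace IsBump

theorem hasDerivAt_Af_z (h : IsBump η) {x s z : ℝ} (hg : Gd η x s z) :
    HasDerivAt (fun z => Af η x s z) (Pp η x s z + s * gam' η z * Qp η x s z) z := by
  have hX : HasDerivAt (fun z => z - x) 1 z := (hasDerivAt_id z).sub_const x
  have hp : HasDerivAt (fun z => s * gam η z + gam η x) (s * gam' η z) z :=
    ((h.hasDerivAt_gam z).const_mul s).add_const _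
  have hm : HasDerivAt (fun z => s * gam η z - gam η x) (s * gam' η z) z :=
    ((h.hasDerivAt_gam z).const_mul s).sub_const _
  have := (hasDerivAt_lg hX hp hg.1).sub (hasDerivAt_lg hX hm hg.2)
  unfold Af Pp Qp
  convert! this using 1
  ring

theorem hasDerivAt_Pp_z (h : IsBump η) {x s z : ℝ} (hg : Gd η x s z) :
    HasDerivAt (fun z => Pp η x s z) (Up η x s z - s * gam' η z * Wp η x s z) z := by
  have hX : HasDerivAt (fun z => z - x) 1 z := (hasDerivAt_id z).sub_const x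
  have hp : HasDerivAt (fun z => s * gam η z + gam η x) (s * gam' η z) z :=
    ((h.hasDerivAt_gam z).const_mul s).add_const _
  have hm : HasDerivAt (fun z => s * gam η z - gam η x) (s * gam' η z) z :=
    ((h.hasDerivAt_gam z).const_mul s).sub_const _
  have := (hasDerivAt_pp hX hp hg.1).sub (hasDerivAt_pp hX hm hg.2)
  unfold Up Pp Wp
  convert! this using 1
  ring

theorem hasDerivAt_Cf_z (h : IsBump η) {x s z : ℝ} (hg : Gd η x s z) :
    HasDerivAt (fun z => Cf η x s z) (Bs η x s z) z :=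
  (h.hasDerivAt_gam z).mul (h.hasDerivAt_Pp_z hg)

end IsBump

theorem hasDerivAt_aux (a b s : ℝ) : HasDerivAt (fun s => s * a + b) a s := by
  simpa using ((hasDerivAt_id s).mul_const a).add_const b

theorem hasDerivAt_aux' (a b s : ℝ) : HasDerivAt (fun s => s * a - b) a s := by
  simpa using ((hasDerivAt_id s).mul_const a).sub_const b

theorem hasDerivAt_Af_s {x s z : ℝ} (hg : Gd η x s z) :
    HasDerivAt (fun s => Af η x s z) (gam η z * Qp η x s z) s := by
  have hX : HasDerivAt (fun _ : ℝ => z - x) 0 s := hasDerivAt_const s _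
  have := (hasDerivAt_lg hX (hasDerivAt_aux (gam η z) (gam η x) s) hg.1).sub
    (hasDerivAt_lg hX (hasDerivAt_aux' (gam η z) (gam η x) s) hg.2)
  unfold Af Qp
  convert! this using 1
  ring

theorem hasDerivAt_Pp_s {x s z : ℝ} (hg : Gd η x s z) :
    HasDerivAt (fun s => Pp η x s z) (-(gam η z * Wp η x s z)) s := by
  have hX : HasDerivAt (fun _ : ℝ => z - x) 0 s := hasDerivAt_const s _
  have := (hasDerivAt_pp hX (hasDerivAt_aux (gam η z) (gam η x) s) hg.1).sub
    (hasDerivAt_pp hX (hasDerivAt_aux' (gam η z) (gam η x) s) hg.2)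
  unfold Pp Wp
  convert! this using 1
  ring

theorem hasDerivAt_Qp_s {x s z : ℝ} (hg : Gd η x s z) :
    HasDerivAt (fun s => Qp η x s z) (-(gam η z * Up η x s z)) s := by
  have hX : HasDerivAt (fun _ : ℝ => z - x) 0 s := hasDerivAt_const s _
  have := (hasDerivAt_qq hX (hasDerivAt_aux (gam η z) (gam η x) s) hg.1).sub
    (hasDerivAt_qq hX (hasDerivAt_aux' (gam η z) (gam η x) s) hg.2)
  unfold Qp Up
  convert! this using 1
  ring

theorem hasDerivAt_Bf_s {x s z : ℝ} (hg : Gd η x s z) :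
    HasDerivAt (fun s => Bf η x s z) (Bs η x s z) s := by
  have h1 := (hasDerivAt_Qp_s hg).neg
  have h2 : HasDerivAt (fun s => s * gam' η z) (gam' η z) s := by
    simpa using (hasDerivAt_id s).mul_const (gam' η z)
  have h3 := h1.add (h2.mul (hasDerivAt_Pp_s hg))
  unfold Bf Bs
  convert! h3 using 1
  ring

/-- the antisymmetrized integrand, its `s`-derivative, and a `z`-primitive of the latter -/
noncomputable def Ef (η : ℝ → ℝ) (x y s z : ℝ) : ℝ :=
  Af η x s z * Bf η y s z - Af η y s z * Bf η x s z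

noncomputable def Df (η : ℝ → ℝ) (x y s z : ℝ) : ℝ :=
  (gam η z * Qp η x s z * Bf η y s z + Af η x s z * Bs η y s z)
    - (gam η z * Qp η y s z * Bf η x s z + Af η y s z * Bs η x s z)

noncomputable def Rf (η : ℝ → ℝ) (x y s z : ℝ) : ℝ :=
  Af η x s z * Cf η y s z - Af η y s z * Cf η x s z

theorem hasDerivAt_Ef {x y s z : ℝ} (hx : Gd η x s z) (hy : Gd η y s z) :
    HasDerivAt (fun s => Ef η x y s z) (Df η x y s z) s :=
  ((hasDerivAt_Af_s hx).mul (hasDerivAt_Bf_s hy)).sub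
    ((hasDerivAt_Af_s hy).mul (hasDerivAt_Bf_s hx))

theorem IsBump.hasDerivAt_Rf (h : IsBump η) {x y s z : ℝ} (hx : Gd η x s z) (hy : Gd η y s z) :
    HasDerivAt (fun z => Rf η x y s z) (Df η x y s z) z := by
  have := ((h.hasDerivAt_Af_z hx).mul (h.hasDerivAt_Cf_z hy)).sub
    ((h.hasDerivAt_Af_z hy).mul (h.hasDerivAt_Cf_z hx))
  unfold Rf
  convert! this using 1
  unfold Df Bf Cf
  ring

theorem Af_zero (x z : ℝ) : Af η x 0 z = 0 := by
  unfold Af lg
  rw [zero_mul, zero_add, zero_sub, N_neg']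
  ring

theorem Ef_zero (x y z : ℝ) : Ef η x y 0 z = 0 := by
  unfold Ef
  rw [Af_zero, Af_zero]
  ring

/-! ### continuity on the region `s < 1` -/

theorem IsBump.gd (h : IsBump η) {s : ℝ} (h0 : 0 ≤ s) (h1 : s < 1) (x z : ℝ) : Gd η x s z := by
  have hx := h.gam_ge' x
  have hx' := h.gam_le' x
  have hz := h.gam_ge' z
  have hz' := h.gam_le' z
  have hpi := pi_gt_d2
  refine ⟨?_, ?_⟩
  · apply ne_of_gt
    apply N_pos_of_cos
    rw [← cos_zero]
    apply cos_lt_cos_of_nonneg_of_le_pi le_rfl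
    · nlinarith
    · nlinarith
  · by_cases hX : z = x
    · apply ne_of_gt
      apply N_pos_of_cos
      rw [hX, ← cos_neg, ← cos_zero]
      apply cos_lt_cos_of_nonneg_of_le_pi le_rfl
      · nlinarith
      · nlinarith
    · exact (N_pos_of_ne (sub_ne_zero.mpr hX) _).ne'

theorem gd_of_ne {s x z : ℝ} (hne : z ≠ x) : Gd η x s z :=
  ⟨(N_pos_of_ne (sub_ne_zero.mpr hne) _).ne', (N_pos_of_ne (sub_ne_zero.mpr hne) _).ne'⟩

section

variable {S : Set (ℝ × ℝ)}

theorem IsBump.cont_p (h : IsBump η) (x : ℝ) :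
    Continuous (fun p : ℝ × ℝ => p.1 * gam η p.2 + gam η x) := by
  have := h.continuous_gam
  fun_prop

theorem IsBump.cont_m (h : IsBump η) (x : ℝ) :
    Continuous (fun p : ℝ × ℝ => p.1 * gam η p.2 - gam η x) := by
  have := h.continuous_gam
  fun_prop

theorem cont_X (x : ℝ) : Continuous (fun p : ℝ × ℝ => p.2 - x) := by fun_prop

theorem IsBump.cont_Af (h : IsBump η) (x : ℝ) (hS : ∀ p ∈ S, Gd η x p.1 p.2) :
    ContinuousOn (fun p : ℝ × ℝ => Af η x p.1 p.2) S :=
  (continuousOn_lg (cont_X x) (h.cont_p x) fun p hp => (hS p hp).1).sub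
    (continuousOn_lg (cont_X x) (h.cont_m x) fun p hp => (hS p hp).2)

theorem IsBump.cont_Pp (h : IsBump η) (x : ℝ) (hS : ∀ p ∈ S, Gd η x p.1 p.2) :
    ContinuousOn (fun p : ℝ × ℝ => Pp η x p.1 p.2) S :=
  (continuousOn_pp (cont_X x) (h.cont_p x) fun p hp => (hS p hp).1).sub
    (continuousOn_pp (cont_X x) (h.cont_m x) fun p hp => (hS p hp).2)

theorem IsBump.cont_Qp (h : IsBump η) (x : ℝ) (hS : ∀ p ∈ S, Gd η x p.1 p.2) :
    ContinuousOn (fun p : ℝ × ℝ => Qp η x p.1 p.2) S :=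
  (continuousOn_qq (cont_X x) (h.cont_p x) fun p hp => (hS p hp).1).sub
    (continuousOn_qq (cont_X x) (h.cont_m x) fun p hp => (hS p hp).2)

theorem IsBump.cont_Up (h : IsBump η) (x : ℝ) (hS : ∀ p ∈ S, Gd η x p.1 p.2) :
    ContinuousOn (fun p : ℝ × ℝ => Up η x p.1 p.2) S :=
  (continuousOn_UU (cont_X x) (h.cont_p x) fun p hp => (hS p hp).1).sub
    (continuousOn_UU (cont_X x) (h.cont_m x) fun p hp => (hS p hp).2)

theorem IsBump.cont_Wp (h : IsBump η) (x : ℝ) (hS : ∀ p ∈ S, Gd η x p.1 p.2) :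
    ContinuousOn (fun p : ℝ × ℝ => Wp η x p.1 p.2) S :=
  (continuousOn_WW (cont_X x) (h.cont_p x) fun p hp => (hS p hp).1).sub
    (continuousOn_WW (cont_X x) (h.cont_m x) fun p hp => (hS p hp).2)

theorem IsBump.cont_g (h : IsBump η) : ContinuousOn (fun p : ℝ × ℝ => gam η p.2) S :=
  (h.continuous_gam.comp continuous_snd).continuousOn

theorem IsBump.cont_g' (h : IsBump η) : ContinuousOn (fun p : ℝ × ℝ => gam' η p.2) S :=
  (h.continuous_gam'.comp continuous_snd).continuousOn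

theorem IsBump.cont_Bf (h : IsBump η) (x : ℝ) (hS : ∀ p ∈ S, Gd η x p.1 p.2) :
    ContinuousOn (fun p : ℝ × ℝ => Bf η x p.1 p.2) S :=
  (h.cont_Qp x hS).neg.add ((continuousOn_fst.mul h.cont_g').mul (h.cont_Pp x hS))

theorem IsBump.cont_Bs (h : IsBump η) (x : ℝ) (hS : ∀ p ∈ S, Gd η x p.1 p.2) :
    ContinuousOn (fun p : ℝ × ℝ => Bs η x p.1 p.2) S :=
  (h.cont_g'.mul (h.cont_Pp x hS)).add (h.cont_g.mul ((h.cont_Up x hS).sub
    ((continuousOn_fst.mul h.cont_g').mul (h.cont_Wp x hS))))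

theorem IsBump.cont_Cf (h : IsBump η) (x : ℝ) (hS : ∀ p ∈ S, Gd η x p.1 p.2) :
    ContinuousOn (fun p : ℝ × ℝ => Cf η x p.1 p.2) S :=
  h.cont_g.mul (h.cont_Pp x hS)

theorem IsBump.cont_Ef (h : IsBump η) (x y : ℝ) (hS : ∀ p ∈ S, Gd η x p.1 p.2)
    (hS' : ∀ p ∈ S, Gd η y p.1 p.2) :
    ContinuousOn (fun p : ℝ × ℝ => Ef η x y p.1 p.2) S :=
  ((h.cont_Af x hS).mul (h.cont_Bf y hS')).sub ((h.cont_Af y hS').mul (h.cont_Bf x hS))

theorem IsBump.cont_Rf (h : IsBump η) (x y : ℝ) (hS : ∀ p ∈ S, Gd η x p.1 p.2)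
    (hS' : ∀ p ∈ S, Gd η y p.1 p.2) :
    ContinuousOn (fun p : ℝ × ℝ => Rf η x y p.1 p.2) S :=
  ((h.cont_Af x hS).mul (h.cont_Cf y hS')).sub ((h.cont_Af y hS').mul (h.cont_Cf x hS))

theorem IsBump.cont_Df (h : IsBump η) (x y : ℝ) (hS : ∀ p ∈ S, Gd η x p.1 p.2)
    (hS' : ∀ p ∈ S, Gd η y p.1 p.2) :
    ContinuousOn (fun p : ℝ × ℝ => Df η x y p.1 p.2) S :=
  (((h.cont_g.mul (h.cont_Qp x hS)).mul (h.cont_Bf y hS')).add
    ((h.cont_Af x hS).mul (h.cont_Bs y hS'))).sub
  (((h.cont_g.mul (h.cont_Qp y hS')).mul (h.cont_Bf x hS)).add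
    ((h.cont_Af y hS').mul (h.cont_Bs x hS)))

end

end Pool.Agent.Helper59.NP
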