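import Pool.Agent.Helper59.NP.Path

set_option autoImplicit false
open Real MeasureTheory Set Filter Topology

namespace Pool.Agent.Helper59.NP

/-! ### simple bounds off the diagonal -/

theorem abs_pp_le' {X : ℝ} (hX : X ≠ 0) (θ : ℝ) : |pp X θ| ≤ 1 + 1 / |X| := by
  have hN := N_pos_of_ne hX θ
  have hN1 := N_ge X θ
  have hXp : 0 < |X| := abs_pos.mpr hX
  have h1 : cosh X - 1 = 2 * sinh (X / 2) ^ 2 := by
    have h := cosh_two_mul (X / 2)
    have h2 := cosh_sq (X / 2)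
    rw [show 2 * (X / 2) = X by ring] at h
    linarith
  have h2 : sinh X = 2 * sinh (X / 2) * cosh (X / 2) := by
    have h := sinh_two_mul (X / 2)
    rw [show 2 * (X / 2) = X by ring] at h
    exact h
  set a := |sinh (X / 2)| with ha
  have ha1 : |X| / 2 ≤ a := by
    rw [ha, abs_sinh, abs_div, abs_two]
    exact self_le_sinh_iff.mpr (by positivity)
  have ha0 : 0 < a := by linarith
  have hc : cosh (X / 2) ≤ 1 + a := by
    have h3 : cosh (X / 2) ^ 2 ≤ (1 + a) ^ 2 := by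
      rw [cosh_sq, ← sq_abs (sinh (X / 2))]
      nlinarith
    exact abs_le_of_sq_le_sq' h3 (by positivity) |>.2
  have hsq : sinh (X / 2) ^ 2 = a ^ 2 := by rw [ha, sq_abs]
  unfold pp
  rw [abs_div, abs_of_pos (a := 2 * N X θ) (by positivity), h2, abs_mul, abs_mul, abs_two, ← ha,
    abs_of_pos (cosh_pos _)]
  have h5 : 0 < cosh X - 1 := by rw [h1, hsq]; positivity
  calc 2 * a * cosh (X / 2) / (2 * N X θ) ≤ 2 * a * (1 + a) / (2 * (cosh X - 1)) := by gcongr
    _ = (1 + a) / (2 * a) := by rw [h1, hsq]; field_simp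
    _ = 1 / 2 + 1 / (2 * a) := by field_simp; ring
    _ ≤ 1 / 2 + 1 / |X| := by
        gcongr
        linarith
    _ ≤ _ := by linarith

theorem abs_qq_le' {X : ℝ} (hX : X ≠ 0) (θ : ℝ) : |qq X θ| ≤ 1 + 1 / |X| := by
  have hN := N_pos_of_ne hX θ
  have hXp : 0 < |X| := abs_pos.mpr hX
  have h1 := cosh_sub_one_ge X
  have h2 : |sin θ| ^ 2 ≤ 2 * (1 - cos θ) := by
    rw [sq_abs, sin_sq]
    nlinarith [cos_le_one θ, neg_one_le_cos θ]
  have h3 : |X| * |sin θ| ≤ N X θ := by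
    have h4 : |X| * |sin θ| ≤ (|X| ^ 2 + |sin θ| ^ 2) / 2 := by nlinarith [sq_nonneg (|X| - |sin θ|)]
    have h5 : |X| ^ 2 / 2 ≤ cosh X - 1 := by rw [sq_abs]; exact h1
    unfold N
    linarith
  unfold qq
  rw [abs_div, abs_of_pos (a := 2 * N X θ) (by positivity), div_le_iff₀ (by positivity)]
  have h6 : |sin θ| = (1 / |X|) * (|X| * |sin θ|) := by field_simp
  have h7 : 0 ≤ 1 / |X| := by positivity
  calc |sin θ| = (1 / |X|) * (|X| * |sin θ|) := h6
    _ ≤ (1 / |X|) * N X θ := by gcongr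
    _ ≤ (1 + 1 / |X|) * (2 * N X θ) := by nlinarith

variable {η : ℝ → ℝ}

theorem abs_Pp_le {x s z : ℝ} (hne : z ≠ x) : |Pp η x s z| ≤ 2 * (1 + 1 / |z - x|) := by
  unfold Pp
  have h1 := abs_pp_le' (sub_ne_zero.mpr hne) (s * gam η z + gam η x)
  have h2 := abs_pp_le' (sub_ne_zero.mpr hne) (s * gam η z - gam η x)
  refine (abs_sub _ _).trans ?_
  linarith

theorem abs_Qp_le {x s z : ℝ} (hne : z ≠ x) : |Qp η x s z| ≤ 2 * (1 + 1 / |z - x|) := by
  unfold Qp
  have h1 := abs_qq_le' (sub_ne_zero.mpr hne) (s * gam η z + gam η x)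
  have h2 := abs_qq_le' (sub_ne_zero.mpr hne) (s * gam η z - gam η x)
  refine (abs_sub _ _).trans ?_
  linarith

theorem abs_Bf_le {M : ℝ} (hM : ∀ x, |gam' η x| ≤ M) {y s z : ℝ} (h0 : 0 ≤ s) (h1 : s ≤ 1)
    (hne : z ≠ y) : |Bf η y s z| ≤ 2 * (1 + M) * (1 + 1 / |z - y|) := by
  unfold Bf
  have hq := abs_Qp_le (η := η) (s := s) hne
  have hp := abs_Pp_le (η := η) (s := s) hne
  have hz := hM z
  have hz0 := abs_nonneg (gam' η z)
  have hM0 : 0 ≤ M := hz0.trans hz
  refine (abs_add_le _ _).trans ?_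
  rw [abs_neg, abs_mul, abs_mul, abs_of_nonneg h0]
  have h2 : s * |gam' η z| ≤ M := by nlinarith
  have h3 : s * |gam' η z| * |Pp η y s z| ≤ M * (2 * (1 + 1 / |z - y|)) := by gcongr
  linarith

theorem abs_dAf_le {M : ℝ} (hM : ∀ x, |gam' η x| ≤ M) {x s z : ℝ} (h0 : 0 ≤ s) (h1 : s ≤ 1)
    (hne : z ≠ x) :
    |Pp η x s z + s * gam' η z * Qp η x s z| ≤ 2 * (1 + M) * (1 + 1 / |z - x|) := by
  have hq := abs_Qp_le (η := η) (s := s) hne
  have hp := abs_Pp_le (η := η) (s := s) hne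
  have hz := hM z
  have hz0 := abs_nonneg (gam' η z)
  have hM0 : 0 ≤ M := hz0.trans hz
  refine (abs_add_le _ _).trans ?_
  rw [abs_mul, abs_mul, abs_of_nonneg h0]
  have h2 : s * |gam' η z| ≤ M := by nlinarith
  have h3 : s * |gam' η z| * |Qp η x s z| ≤ M * (2 * (1 + 1 / |z - x|)) := by gcongr
  linarith

theorem HG_even (t : ℝ) : HG (-t) = HG t := by unfold HG; rw [cosh_neg]

theorem IsBump.abs_Af_le (h : IsBump η) {x s z : ℝ} (h0 : 0 ≤ s) (h1 : s ≤ 1) (hne : z ≠ x) :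
    |Af η x s z| ≤ HG (z - x) := by
  have hx := h.gam_ge' x
  have hx' := h.gam_le x
  have hz := h.gam_ge' z
  have hz' := h.gam_le z
  have hpi := pi_gt_d2
  have hpi' := pi_lt_d2
  set X := z - x with hX
  have hX0 : X ≠ 0 := sub_ne_zero.mpr hne
  unfold Af lg HG
  rw [← hX]
  have hch := cosh_pos X
  have hch1 : 0 < cosh X - 1 := by
    have := one_lt_cosh.mpr hX0; linarith
  have hcs0 : 0 ≤ cos (s * gam η z + gam η x) :=
    cos_nonneg_of_neg_pi_div_two_le_of_le (by nlinarith) (by nlinarith)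
  have hNp : N X (s * gam η z + gam η x) ≤ cosh X := by unfold N; linarith
  have hNm := N_ge X (s * gam η z - gam η x)
  have hge : N X (s * gam η z - gam η x) ≤ N X (s * gam η z + gam η x) := by
    unfold N
    have : cos (s * gam η z + gam η x) ≤ cos (s * gam η z - gam η x) := by
      rw [cos_add, cos_sub]
      have h2 : 0 ≤ sin (s * gam η z) := sin_nonneg_of_nonneg_of_le_pi
        (by nlinarith) (by nlinarith)
      have h3 : 0 ≤ sin (gam η x) := sin_nonneg_of_nonneg_of_le_pi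
        (by linarith) (by linarith)
      have := mul_nonneg h2 h3
      linarith
    linarith
  have hNmp : 0 < N X (s * gam η z - gam η x) := by linarith
  have hNpp : 0 < N X (s * gam η z + gam η x) := by linarith
  have e : 1 / 2 * Real.log (N X (s * gam η z + gam η x))
      - 1 / 2 * Real.log (N X (s * gam η z - gam η x))
      = 1 / 2 * Real.log (N X (s * gam η z + gam η x) / N X (s * gam η z - gam η x)) := by
    rw [Real.log_div hNpp.ne' hNmp.ne']; ring
  rw [e]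
  have h5 : 0 ≤ Real.log (N X (s * gam η z + gam η x) / N X (s * gam η z - gam η x)) := by
    apply Real.log_nonneg
    rw [le_div_iff₀ hNmp]; linarith
  rw [abs_of_nonneg (by positivity)]
  have h2 : N X (s * gam η z + gam η x) / N X (s * gam η z - gam η x) ≤ 1 + 1 / (cosh X - 1) := by
    have : 1 + 1 / (cosh X - 1) = cosh X / (cosh X - 1) := by field_simp; ring
    rw [this]
    gcongr
  have h3 := Real.log_le_log (div_pos hNpp hNmp) h2
  have : 0 < (cosh X)⁻¹ := by positivity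
  linarith

/-! ### the identity for `s < 1` -/

theorem IsBump.integral_Ef (h : IsBump η) (x y : ℝ) {a b s₁ : ℝ} (hab : a ≤ b) (h0 : 0 ≤ s₁)
    (h1 : s₁ < 1) :
    ∫ z in a..b, Ef η x y s₁ z = ∫ s in (0 : ℝ)..s₁, (Rf η x y s b - Rf η x y s a) := by
  have hgx : ∀ p ∈ Icc (0 : ℝ) s₁ ×ˢ Icc a b, Gd η x p.1 p.2 := fun p hp =>
    h.gd hp.1.1 (hp.1.2.trans_lt h1) x p.2
  have hgy : ∀ p ∈ Icc (0 : ℝ) s₁ ×ˢ Icc a b, Gd η y p.1 p.2 := fun p hp =>
    h.gd hp.1.1 (hp.1.2.trans_lt h1) y p.2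
  have hc := h.cont_Df x y hgx hgy
  have e1 : ∀ z ∈ Icc a b, Ef η x y s₁ z = ∫ s in (0 : ℝ)..s₁, Df η x y s z := by
    intro z hz
    have hu : uIcc 0 s₁ = Icc 0 s₁ := uIcc_of_le h0
    rw [intervalIntegral.integral_eq_sub_of_hasDerivAt (f := fun s => Ef η x y s z)]
    · rw [Ef_zero, sub_zero]
    · intro s hs
      rw [hu] at hs
      exact hasDerivAt_Ef (h.gd hs.1 (hs.2.trans_lt h1) x z) (h.gd hs.1 (hs.2.trans_lt h1) y z)
    · apply ContinuousOn.intervalIntegrable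
      rw [hu]
      exact hc.comp (f := fun s => (s, z)) (by fun_prop) (fun s hs => ⟨hs, hz⟩)
  have e2 : ∀ s ∈ Icc 0 s₁, ∫ z in a..b, Df η x y s z = Rf η x y s b - Rf η x y s a := by
    intro s hs
    have hu : uIcc a b = Icc a b := uIcc_of_le hab
    rw [intervalIntegral.integral_eq_sub_of_hasDerivAt (f := fun z => Rf η x y s z)]
    · intro z hz
      exact h.hasDerivAt_Rf (h.gd hs.1 (hs.2.trans_lt h1) x z) (h.gd hs.1 (hs.2.trans_lt h1) y z)
    · apply ContinuousOn.intervalIntegrable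
      rw [hu]
      exact hc.comp (f := fun z => (s, z)) (by fun_prop) (fun z hz => ⟨hs, hz⟩)
  have e3 : ∫ z in a..b, Ef η x y s₁ z = ∫ z in a..b, ∫ s in (0 : ℝ)..s₁, Df η x y s z := by
    apply intervalIntegral.integral_congr
    intro z hz
    rw [uIcc_of_le hab] at hz
    exact e1 z hz
  have e4 : ∫ s in (0 : ℝ)..s₁, (Rf η x y s b - Rf η x y s a)
      = ∫ s in (0 : ℝ)..s₁, ∫ z in a..b, Df η x y s z := by
    apply intervalIntegral.integral_congr
    intro s hs
    rw [uIcc_of_le h0] at hs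
    exact (e2 s hs).symm
  rw [e3, e4]
  simp only [intervalIntegral.integral_of_le hab, intervalIntegral.integral_of_le h0]
  rw [integral_integral_swap]
  have h5 : IntegrableOn (fun p : ℝ × ℝ => Df η x y p.1 p.2) (Icc 0 s₁ ×ˢ Icc a b)
      (volume.prod volume) :=
    hc.integrableOn_compact (isCompact_Icc.prod isCompact_Icc)
  have h6 := h5.mono_set (prod_mono Ioc_subset_Icc_self Ioc_subset_Icc_self :
    Ioc 0 s₁ ×ˢ Ioc a b ⊆ _)
  unfold IntegrableOn at h6
  rw [← Measure.prod_restrict] at h6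
  exact h6.swap

end Pool.Agent.Helper59.NP
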