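import Pool.Agent.Helper59.NP.Limit
import Pool.Agent.Helper59.NP.Iface

set_option autoImplicit false
open Real MeasureTheory Set Filter Topology

namespace Pool.Agent.Helper59.NP

variable {η : ℝ → ℝ}

/-- the strip part of the Neumann–Poincaré kernel -/
noncomputable def kk (η : ℝ → ℝ) (x y : ℝ) : ℝ :=
  (1 / (2 * π)) * (qq (y - x) (gam η y - gam η x) + qq (y - x) (gam η y + gam η x)
    - gam' η y * (pp (y - x) (gam η y - gam η x) + pp (y - x) (gam η y + gam η x)))

theorem kk_eq (η : ℝ → ℝ) (x y : ℝ) : kk η x y = -lk η y x + (1 / π) *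
    (qq (y - x) (gam η y + gam η x) - gam' η y * pp (y - x) (gam η y + gam η x)) := by
  unfold kk lk Qf Pf
  have := pi_pos
  field_simp
  ring

theorem qq_neg (X θ : ℝ) : qq (-X) (-θ) = -qq X θ := by
  unfold qq; rw [N_neg, N_neg', sin_neg]; ring

theorem qq_neg' (X θ : ℝ) : qq (-X) θ = qq X θ := by
  unfold qq; rw [N_neg]

theorem pp_neg (X θ : ℝ) : pp (-X) (-θ) = -pp X θ := by
  unfold pp; rw [N_neg, N_neg', sinh_neg]; ring

theorem pp_neg' (X θ : ℝ) : pp (-X) θ = -pp X θ := by
  unfold pp; rw [N_neg, sinh_neg]; ring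

namespace IsBump

theorem exists_kk_bound (h : IsBump η) : ∃ C : ℝ, 0 < C ∧
    ∀ x y, |kk η x y| ≤ C * (cosh (y - x))⁻¹ + C * (Icc (-1 : ℝ) 0).indicator 1 y := by
  obtain ⟨M, hM0, hM, -, -⟩ := h.exists_bound
  refine ⟨h.Cl + 1 + M, by have := h.Cl_pos; positivity, fun x y => ?_⟩
  rw [kk_eq]
  have h1 := h.lk_bound y x
  have hCl := h.Cl_pos
  have hc : 0 < (cosh (y - x))⁻¹ := inv_pos.mpr (cosh_pos _)
  have hN := h.N_sum_ge (y - x) y x
  have hq := abs_qq_le (by norm_num : (0 : ℝ) < 1 / 2) hN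
  have hp := abs_pp_le (by norm_num : (0 : ℝ) < 1 / 2) hN
  norm_num at hq hp
  have hpi : 1 / π ≤ 1 := by
    rw [div_le_one pi_pos]
    have := pi_gt_d2
    linarith
  have hpi0 : 0 ≤ 1 / π := by positivity
  have hind : |gam' η y * pp (y - x) (gam η y + gam η x)| ≤ M * (Icc (-1 : ℝ) 0).indicator 1 y := by
    by_cases hy : y ∈ Icc (-1 : ℝ) 0
    · rw [indicator_of_mem hy, abs_mul, Pi.one_apply]
      gcongr
      exact hM y
    · rw [indicator_of_notMem hy, h.gam'_eq hy]
      simp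
  have hind0 : 0 ≤ (Icc (-1 : ℝ) 0).indicator (1 : ℝ → ℝ) y :=
    indicator_nonneg (fun _ _ => zero_le_one) y
  have h2 : |1 / π * (qq (y - x) (gam η y + gam η x) - gam' η y * pp (y - x) (gam η y + gam η x))|
      ≤ (cosh (y - x))⁻¹ + M * (Icc (-1 : ℝ) 0).indicator 1 y := by
    rw [abs_mul, abs_of_nonneg hpi0]
    have h3 : |qq (y - x) (gam η y + gam η x) - gam' η y * pp (y - x) (gam η y + gam η x)|
        ≤ (cosh (y - x))⁻¹ + M * (Icc (-1 : ℝ) 0).indicator 1 y :=
      (abs_sub _ _).trans (add_le_add hq hind)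
    calc 1 / π * |qq (y - x) (gam η y + gam η x) - gam' η y * pp (y - x) (gam η y + gam η x)|
        ≤ 1 * ((cosh (y - x))⁻¹ + M * (Icc (-1 : ℝ) 0).indicator 1 y) := by gcongr
      _ = _ := one_mul _
  refine (abs_add_le _ _).trans ?_
  rw [abs_neg]
  have h4 : 0 ≤ M * (cosh (y - x))⁻¹ := by positivity
  have h5 : 0 ≤ (h.Cl + 1) * (Icc (-1 : ℝ) 0).indicator 1 y := by positivity
  nlinarith

theorem kk_meas (h : IsBump η) : Measurable (fun p : ℝ × ℝ => kk η p.1 p.2) := by
  have h1 := h.continuous_gam.measurable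
  have h1' := h.continuous_gam'.measurable
  have h2 := continuous_cosh.measurable
  have h3 := continuous_cos.measurable
  have h4 := continuous_sinh.measurable
  have h5 := continuous_sin.measurable
  unfold kk qq pp N
  fun_prop

theorem kk_meas_slice (h : IsBump η) (x : ℝ) : Measurable (fun y => kk η x y) := by
  have m2 : Measurable fun z : ℝ => (x, z) := by fun_prop
  have m3 := h.kk_meas.comp m2
  exact m3

/-- derivative of `If` in the source variable -/
theorem hasDerivAt_If_y (h : IsBump η) {x y : ℝ} (hne : y ≠ x) :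
    HasDerivAt (fun y => If η y 1 x) (2 * π * kk η x y) y := by
  have hX : HasDerivAt (fun y => x - y) (-1) y := (hasDerivAt_id y).const_sub x
  have hp : HasDerivAt (fun y => 1 * gam η x + gam η y) (gam' η y) y :=
    (h.hasDerivAt_gam y).const_add _
  have hm : HasDerivAt (fun y => 1 * gam η x - gam η y) (-gam' η y) y :=
    (h.hasDerivAt_gam y).const_sub _
  have hy := h.gam_ge' y
  have hy' := h.gam_le' y
  have hz := h.gam_ge' x
  have hz' := h.gam_le' x
  have hpi := pi_gt_d2
  have hg := gd_of_ne (η := η) (s := 1) hne.symm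
  have h1 := hasDerivAt_arg_aux one_ne_zero hX hp hg.1 (slit1 (by linarith) (by linarith))
  have h2 := hasDerivAt_arg_aux Complex.I_ne_zero hX hm hg.2
    (slit2 (by linarith) (by linarith) (Or.inl (sub_ne_zero.mpr hne.symm)))
  have h3 := h1.sub h2
  unfold If If₁ If₂ sh
  convert! h3 using 1
  have e1 : qq (y - x) (gam η y - gam η x) = -qq (x - y) (gam η x - gam η y) := by
    rw [← qq_neg, neg_sub, neg_sub]
  have e2 : qq (y - x) (gam η y + gam η x) = qq (x - y) (gam η x + gam η y) := by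
    rw [← qq_neg', neg_sub, add_comm]
  have e3 : pp (y - x) (gam η y - gam η x) = -pp (x - y) (gam η x - gam η y) := by
    rw [← pp_neg, neg_sub, neg_sub]
  have e4 : pp (y - x) (gam η y + gam η x) = -pp (x - y) (gam η x + gam η y) := by
    rw [← pp_neg', neg_sub, add_comm]
  unfold kk
  rw [one_mul, e1, e2, e3, e4]
  have := pi_pos
  field_simp
  ring

/-- the difference function -/
noncomputable def _root_.Pool.Agent.Helper59.NP.Tf (η : ℝ → ℝ) (x₁ x₂ y : ℝ) : ℝ :=
  ∫ x in x₁..x₂, lk η x y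

theorem intervalIntegrable_lk (h : IsBump η) (y a b : ℝ) :
    IntervalIntegrable (fun x => lk η x y) volume a b := by
  have hi := h.intervalIntegrable_Bf_one y a b
  have := hi.const_mul (-(2 * π))⁻¹
  refine this.congr (fun x _ => ?_)
  rw [h.Bf_one]
  have := pi_pos
  field_simp

theorem Tf_eq (h : IsBump η) {x₁ x₂ y : ℝ} :
    Tf η x₁ x₂ y = -(2 * π)⁻¹ * ∫ x in x₁..x₂, Bf η y 1 x := by
  unfold Tf
  simp only [h.Bf_one]
  rw [intervalIntegral.integral_const_mul]
  have := pi_pos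
  field_simp

theorem Tf_in (h : IsBump η) {x₁ x₂ y : ℝ} (h1 : x₁ < y) (h2 : y < x₂) :
    Tf η x₁ x₂ y = -(2 * π)⁻¹ * (If η y 1 x₂ - If η y 1 x₁ + π) := by
  rw [h.Tf_eq, h.integral_Bf_one h1 h2]

theorem Tf_out (h : IsBump η) {x₁ x₂ y : ℝ} (h12 : x₁ ≤ x₂) (hy : y < x₁ ∨ x₂ < y) :
    Tf η x₁ x₂ y = -(2 * π)⁻¹ * (If η y 1 x₂ - If η y 1 x₁) := by
  rw [h.Tf_eq]
  congr 1
  apply intervalIntegral.integral_eq_sub_of_hasDerivAt
  · intro x hx
    rw [uIcc_of_le h12] at hx
    refine h.hasDerivAt_If zero_le_one le_rfl (Or.inl ?_)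
    rcases hy with hy | hy
    · exact (lt_of_lt_of_le hy hx.1).ne'
    · exact (lt_of_le_of_lt hx.2 hy).ne
  · exact h.intervalIntegrable_Bf_one y x₁ x₂

theorem hasDerivAt_Tf (h : IsBump η) {x₁ x₂ y : ℝ} (h12 : x₁ < x₂) (h1 : y ≠ x₁) (h2 : y ≠ x₂) :
    HasDerivAt (fun y => Tf η x₁ x₂ y) (kk η x₁ y - kk η x₂ y) y := by
  have hd := ((h.hasDerivAt_If_y h2).sub (h.hasDerivAt_If_y h1)).const_mul (-(2 * π)⁻¹)
  have hpi := pi_pos
  have e : -(2 * π)⁻¹ * (2 * π * kk η x₂ y - 2 * π * kk η x₁ y) = kk η x₁ y - kk η x₂ y := by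
    field_simp
    ring
  rw [e] at hd
  by_cases hin : x₁ < y ∧ y < x₂
  · have hd2 := hd.add_const (-(2 * π)⁻¹ * π)
    refine hd2.congr_of_eventuallyEq ?_
    filter_upwards [Ioo_mem_nhds hin.1 hin.2] with z hz
    rw [h.Tf_in hz.1 hz.2]
    simp only [Pi.sub_apply]
    ring
  · refine hd.congr_of_eventuallyEq ?_
    have hor : y < x₁ ∨ x₂ < y := by
      rcases lt_or_gt_of_ne h1 with h3 | h3
      · exact Or.inl h3
      · right
        by_contra h4
        push Not at h4
        exact hin ⟨h3, lt_of_le_of_ne h4 h2⟩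
    rcases hor with h3 | h3
    · filter_upwards [Iio_mem_nhds h3] with z hz
      rw [h.Tf_out h12.le (Or.inl hz)]
      rfl
    · filter_upwards [Ioi_mem_nhds h3] with z hz
      rw [h.Tf_out h12.le (Or.inr hz)]
      rfl

theorem continuous_Tf (h : IsBump η) (x₁ x₂ : ℝ) : Continuous (fun y => Tf η x₁ x₂ y) := by
  rw [continuous_iff_continuousAt]
  intro y₀
  unfold Tf
  refine intervalIntegral.continuousAt_of_dominated_interval (bound := fun _ => h.Cl) ?_ ?_
    intervalIntegrable_const ?_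
  · refine Eventually.of_forall fun y => ?_
    have hm : Measurable (fun z => lk η z y) := by
      have m1 : Measurable (fun p : ℝ × ℝ => lk η p.1 p.2) := h.lk_meas
      have m2 : Measurable fun z : ℝ => (z, y) := by fun_prop
      have m3 := m1.comp m2
      exact m3
    exact hm.aestronglyMeasurable
  · refine Eventually.of_forall fun y => Eventually.of_forall fun x _ => ?_
    rw [norm_eq_abs]
    exact (h.lk_bound x y).trans (HL_le h.Cl_pos.le _)
  · filter_upwards [ae_ne y₀] with x hx _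
    have cX : ContinuousAt (fun y => x - y) y₀ := by fun_prop
    have cg := h.continuous_gam
    have S : Set ℝ := {y | y ≠ x}
    have hopen : IsOpen {y : ℝ | y ≠ x} := isOpen_ne
    have hc : ContinuousOn (fun y => lk η x y) {y : ℝ | y ≠ x} := by
      unfold lk Qf Pf
      have hX : Continuous (fun y => x - y) := by fun_prop
      have hp : Continuous (fun y => gam η x + gam η y) := by fun_prop
      have hm : Continuous (fun y => gam η x - gam η y) := by fun_prop
      have hN : ∀ θ : ℝ → ℝ, ∀ y ∈ {y : ℝ | y ≠ x}, N (x - y) (θ y) ≠ 0 := fun θ y hy =>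
        (N_pos_of_ne (sub_ne_zero.mpr (Ne.symm hy)) _).ne'
      exact ((((continuousOn_qq hX hp (hN _)).sub (continuousOn_qq hX hm (hN _)))).sub
        (continuousOn_const.mul ((continuousOn_pp hX hp (hN _)).sub
          (continuousOn_pp hX hm (hN _))))).const_mul _ |>.congr fun _ _ => rfl
    exact hc.continuousAt (hopen.mem_nhds (Ne.symm hx))

end IsBump

end Pool.Agent.Helper59.NP
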